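import Pool.Agent.ASP.LipSup

set_option autoImplicit false

open MeasureTheory Set Filter Topology

namespace Pool.ASP

variable {E : Type} [NormedAddCommGroup E] [NormedSpace ℝ E] {P : Sys E}

/-- difference of the cut-offs -/
theorem con_chi (F F' : Fam P) (D : ℝ)
    (hD : ∀ B a, 0 < a → a ≤ 1 → ∀ x, |F.N B a x - F'.N B a x| ≤ D * a)
    (B : P.K) (β : Ordinal.{0}) {a : ℝ} (ha : 0 < a) (ha1 : a ≤ 1) (hD0 : 0 ≤ D) (j : ℕ) (x : E)
    (u : ℝ) :
    |chi P F.N B a β j x u - chi P F'.N B a β j x u| ≤ D * (aj a j / rho a j) := by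
  have hρ := rho_pos ha j
  have hτ := tau_pos ha j
  have hτ1 := tau_le_one ha ha1 j
  have ha0 := aj_pos ha j
  have hb : |bb P F.N B a β j x - bb P F'.N B a β j x| ≤ D * tau a j := hD _ _ hτ hτ1 x
  have ht : |tt P F.N B a β j x - tt P F'.N B a β j x| ≤ D * tau a j := by
    have h1 := hD (P.C B β) (tau a j) hτ hτ1 x
    have h2 : tt P F.N B a β j x - tt P F'.N B a β j x =
        (1 / 100) * (F.N (P.C B β) (tau a j) x - F'.N (P.C B β) (tau a j) x) := by
      unfold tt; ring
    rw [h2, abs_mul, abs_of_pos (by norm_num : (0 : ℝ) < 1 / 100)]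
    have h3 := abs_nonneg (F.N (P.C B β) (tau a j) x - F'.N (P.C B β) (tau a j) x)
    linarith
  have hτe : tau a j = aj a j / 30 := rfl
  unfold chi
  set p := (u - bb P F.N B a β j x) / rho a j with hp
  set p' := (u - bb P F'.N B a β j x) / rho a j with hp'
  set q := (tt P F.N B a β j x - u) / rho a j with hq
  set q' := (tt P F'.N B a β j x - u) / rho a j with hq'
  have h1 : |p - p'| ≤ D * tau a j / rho a j := by
    have e : p - p' = -(bb P F.N B a β j x - bb P F'.N B a β j x) / rho a j := by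
      rw [hp, hp']; ring
    rw [e, abs_div, abs_neg, abs_of_pos hρ]
    exact div_le_div_of_nonneg_right hb hρ.le
  have h2 : |q - q'| ≤ D * tau a j / rho a j := by
    have e : q - q' = (tt P F.N B a β j x - tt P F'.N B a β j x) / rho a j := by
      rw [hq, hq']; ring
    rw [e, abs_div, abs_of_pos hρ]
    exact div_le_div_of_nonneg_right ht hρ.le
  have h3 := th_lip p p'
  have h4 := th_lip q q'
  have e : th p * th q - th p' * th q' = (th p - th p') * th q + th p' * (th q - th q') := by ring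
  rw [e]
  refine (abs_add_le _ _).trans ?_
  rw [abs_mul, abs_mul, abs_of_nonneg (th_nonneg q), abs_of_nonneg (th_nonneg p')]
  have h5 : |th p - th p'| * th q ≤ |th p - th p'| * 1 :=
    mul_le_mul_of_nonneg_left (th_le_one q) (abs_nonneg _)
  have h6 : th p' * |th q - th q'| ≤ 1 * |th q - th q'| :=
    mul_le_mul_of_nonneg_right (th_le_one p') (abs_nonneg _)
  have h7 : D * tau a j / rho a j = 1 / 30 * (D * (aj a j / rho a j)) := by rw [hτe]; ring
  have h8 : 0 ≤ D * (aj a j / rho a j) := by positivity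
  linarith

/-- contraction estimate for `G` in a gap -/
theorem con_G (F F' : Fam P) (D : ℝ)
    (hD : ∀ B a, 0 < a → a ≤ 1 → ∀ x, |F.N B a x - F'.N B a x| ≤ D * a)
    (B : P.K) {α β : Ordinal.{0}} (hβ : β < α) (hD0 : 0 ≤ D)
    (ih : ∀ a, 0 < a → a ≤ 1 → ∀ (x : E) (v : ℝ), P.h (P.S B β) x - 4 / 5 * a < v →
      |V P F.N B β x v a - V P F'.N B β x v a| ≤ D * a / 2)
    {a : ℝ} (ha : 0 < a) (ha1 : a ≤ 1) {x : E} {u : ℝ} (hg : Gap P B β x u) :
    |G P F.N B α x u a - G P F'.N B α x u a| ≤ D * a / 2 := by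
  have hcc : cc = 1 / 10000 := rfl
  have hlt : P.h (P.S B (Order.succ β)) x < P.h (P.S B β) x := by linarith [hg.1, hg.2]
  rw [G_gap P F.N B a hβ hg, G_gap P F'.N B a hβ hg]
  obtain ⟨J1, hJ1⟩ := chi_eventually F B ha ha1 hg
  obtain ⟨J2, hJ2⟩ := chi_eventually F' B ha ha1 hg
  set J := max J1 J2 with hJ
  have c1 : ∀ j, J ≤ j → chi P F.N B a β j x u = 1 :=
    fun j hj => hJ1 j ((le_max_left _ _).trans hj)
  have c2 : ∀ j, J ≤ j → chi P F'.N B a β j x u = 1 :=
    fun j hj => hJ2 j ((le_max_right _ _).trans hj)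
  set W : ℕ → ℝ := fun j => V P F.N B β x (tt P F.N B a β j x) (aj a j) with hW
  set W' : ℕ → ℝ := fun j => V P F'.N B β x (tt P F'.N B a β j x) (aj a j) with hW'
  have hdom : ∀ (H : Fam P) (j : ℕ), P.h (P.S B β) x - 4 / 5 * aj a j < tt P H.N B a β j x := by
    intro H j
    have h1 := (abs_le.1 (tt_close H B ha ha1 (β := β) j hlt)).1
    have h2 := aj_pos ha j
    linarith
  -- single terms
  have hterm : ∀ j, |W j - W' j| ≤ D * (cc * a ^ 2) := by
    intro j
    have hp := aj_pos ha j
    have hp1 := aj_le_one ha ha1 j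
    have h1 := lipV F B β (aj a j) hp hp1 x x _ _ (hdom F j) (hdom F' j)
    have h2 := ih (aj a j) hp hp1 x (tt P F'.N B a β j x) (hdom F' j)
    rw [sub_self, norm_zero, mul_zero, max_eq_right (abs_nonneg _)] at h1
    have h3 : |tt P F.N B a β j x - tt P F'.N B a β j x| ≤ D * aj a j / 3000 := by
      have h1 := hD (P.C B β) (tau a j) (tau_pos ha j) (tau_le_one ha ha1 j) x
      have h2 : tt P F.N B a β j x - tt P F'.N B a β j x =
          (1 / 100) * (F.N (P.C B β) (tau a j) x - F'.N (P.C B β) (tau a j) x) := by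
        unfold tt; ring
      rw [h2, abs_mul, abs_of_pos (by norm_num : (0 : ℝ) < 1 / 100)]
      have h4 : tau a j = aj a j / 30 := rfl
      rw [h4] at h1 ⊢
      linarith
    have h4 : KK (aj a j) ≤ 1 := by
      unfold KK
      rw [hcc]
      linarith
    have h5 : (1 + KK (aj a j)) * |tt P F.N B a β j x - tt P F'.N B a β j x| ≤
        2 * (D * aj a j / 3000) := by
      refine mul_le_mul (by linarith) h3 (abs_nonneg _) (by norm_num)
    have h6 := abs_sub_le (W j) (V P F.N B β x (tt P F'.N B a β j x) (aj a j)) (W' j)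
    have h7 : 0 ≤ D * aj a j := by positivity
    have h8 := aj_le_zero ha j
    have h9 : D * aj a j ≤ D * (cc * a ^ 2) := mul_le_mul_of_nonneg_left h8 hD0
    have h10 : |W j - V P F.N B β x (tt P F'.N B a β j x) (aj a j)| ≤
        2 * (D * aj a j / 3000) := h1.trans h5
    have h11 : |V P F.N B β x (tt P F'.N B a β j x) (aj a j) - W' j| ≤ D * aj a j / 2 := h2
    linarith
  -- first part
  have e1 : ∑' j, wt P F.N B a β j x u * W j - ∑' j, wt P F.N B a β j x u * W' j =
      ∑' j, wt P F.N B a β j x u * (W j - W' j) := by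
    have k := fun (Z : ℕ → ℝ) => weights_tsum (fun j => chi P F.N B a β j x u) Z J c1
    have k' : ∀ Z : ℕ → ℝ, ∑' j, wt P F.N B a β j x u * Z j = ∑ j ∈ Finset.range (J + 1),
        (chi P F.N B a β j x u - (if j = 0 then 0 else chi P F.N B a β (j - 1) x u)) * Z j := k
    rw [k', k', k', ← Finset.sum_sub_distrib]
    refine Finset.sum_congr rfl fun j _ => ?_
    ring
  have b1 : |∑' j, wt P F.N B a β j x u * W j - ∑' j, wt P F.N B a β j x u * W' j| ≤
      D * (cc * a ^ 2) := by
    rw [e1]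
    have h := wsum_close F B ha ha1 hg (fun j => W j - W' j) 0 (D * (cc * a ^ 2))
      (fun j _ => by rw [sub_zero]; exact hterm j)
    rwa [sub_zero] at h
  -- second part
  have e2 : ∑' j, wt P F.N B a β j x u * W' j - ∑' j, wt P F'.N B a β j x u * W' j =
      ∑ j ∈ Finset.range J, (chi P F.N B a β j x u - chi P F'.N B a β j x u) *
        (W' j - W' (j + 1)) := by
    have k1 : ∑' j, wt P F.N B a β j x u * W' j = W' J + ∑ j ∈ Finset.range J,
        chi P F.N B a β j x u * (W' j - W' (j + 1)) :=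
      abel_tsum (fun j => chi P F.N B a β j x u) W' J c1
    have k2 : ∑' j, wt P F'.N B a β j x u * W' j = W' J + ∑ j ∈ Finset.range J,
        chi P F'.N B a β j x u * (W' j - W' (j + 1)) :=
      abel_tsum (fun j => chi P F'.N B a β j x u) W' J c2
    rw [k1, k2, add_sub_add_left_eq_sub, ← Finset.sum_sub_distrib]
    refine Finset.sum_congr rfl fun j _ => ?_
    ring
  have hstep : ∀ j, |W' j - W' (j + 1)| ≤ 6 * (cc * a ^ 2) := by
    intro j
    have hs : ∀ i, |W' i - P.h B x| ≤ 3 * aj a i := by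
      intro i
      refine supV F' B β (aj a i) (aj_pos ha i) (aj_le_one ha ha1 i) x _ (hdom F' i) ?_
      have h3 := (abs_le.1 (tt_close F' B ha ha1 (β := β) i hlt)).2
      have h4 := P.S_anti B 0 β x zero_le
      rw [P.S_zero] at h4
      have h5 := aj_pos ha i
      linarith
    have h2 := hs j
    have h3 := hs (j + 1)
    have h6 := aj_le_zero ha j
    have h7 := aj_le_zero ha (j + 1)
    have := abs_sub_le (W' j) (P.h B x) (W' (j + 1))
    rw [abs_sub_comm (P.h B x)] at this
    linarith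
  have b2 : |∑' j, wt P F.N B a β j x u * W' j - ∑' j, wt P F'.N B a β j x u * W' j| ≤
      6 * (cc * a ^ 2) * D * (2 * cc * a) := by
    rw [e2]
    refine (Finset.abs_sum_le_sum_abs _ _).trans ?_
    have h1 : ∀ j ∈ Finset.range J, |(chi P F.N B a β j x u - chi P F'.N B a β j x u) *
        (W' j - W' (j + 1))| ≤ 6 * (cc * a ^ 2) * D * (aj a j / rho a j) := by
      intro j _
      rw [abs_mul]
      have h2 := con_chi F F' D hD B β ha ha1 hD0 j x u
      have h3 := hstep j
      have h4 : 0 ≤ D * (aj a j / rho a j) := by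
        have := aj_pos ha j
        have := rho_pos ha j
        positivity
      refine (mul_le_mul h2 h3 (abs_nonneg _) h4).trans (le_of_eq ?_)
      ring
    refine (Finset.sum_le_sum h1).trans ?_
    rw [← Finset.mul_sum]
    refine mul_le_mul_of_nonneg_left (sum_aj_div_rho ha J) ?_
    rw [hcc]
    positivity
  have h3 := abs_sub_le (∑' j, wt P F.N B a β j x u * W j) (∑' j, wt P F.N B a β j x u * W' j)
    (∑' j, wt P F'.N B a β j x u * W' j)
  have h4 : D * (cc * a ^ 2) + 6 * (cc * a ^ 2) * D * (2 * cc * a) ≤ D * a / 2 := by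
    have h5 : a ^ 2 ≤ a := by nlinarith
    have h6 : a ^ 3 ≤ a := by
      have : a ^ 3 = a * a ^ 2 := by ring
      rw [this]
      nlinarith
    rw [hcc]
    have e : D * (1 / 10000 * a ^ 2) + 6 * (1 / 10000 * a ^ 2) * D * (2 * (1 / 10000) * a) =
        D * (1 / 10000 * a ^ 2 + 12 / 100000000 * a ^ 3) := by ring
    have e2 : D * a / 2 = D * (a / 2) := by ring
    rw [e, e2]
    refine mul_le_mul_of_nonneg_left ?_ hD0
    linarith
  linarith

/-- contraction estimate -/
theorem con (F F' : Fam P) (D : ℝ)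
    (hD : ∀ B a, 0 < a → a ≤ 1 → ∀ x, |F.N B a x - F'.N B a x| ≤ D * a)
    (B : P.K) (α : Ordinal.{0}) :
    ∀ a, 0 < a → a ≤ 1 → ∀ (x : E) (v : ℝ), P.h (P.S B α) x - 4 / 5 * a < v →
      |V P F.N B α x v a - V P F'.N B α x v a| ≤ D * a / 2 := by
  have hD0 : 0 ≤ D := by
    have h1 := hD B 1 one_pos le_rfl 0
    have h2 := abs_nonneg (F.N B 1 0 - F'.N B 1 0)
    linarith
  induction α using WellFoundedLT.induction with
  | ind α ih =>
  intro a ha ha1 x v hv
  have hc : ∀ H : Fam P, IntervalIntegrable (fun d => G P H.N B α x (v + d) a - d) volume a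
      (2 * a) := by
    intro H
    refine ContinuousOn.intervalIntegrable ?_
    rw [Set.uIcc_of_le (by linarith)]
    refine ContinuousOn.sub (ContinuousOn.comp (f := fun d => v + d)
      (G_continuousOn H B α ha ha1 x) ?_ ?_) continuousOn_id
    · exact (continuous_const.add continuous_id).continuousOn
    · intro d hd
      show P.h (P.S B α) x < v + d
      linarith [hd.1]
  rw [V_eq, V_eq, ← mul_sub, ← intervalIntegral.integral_sub (hc F) (hc F'), abs_mul,
    abs_of_pos (by positivity : 0 < 1 / a)]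
  have hb : ∀ d ∈ Set.uIoc a (2 * a), ‖G P F.N B α x (v + d) a - d -
      (G P F'.N B α x (v + d) a - d)‖ ≤ D * a / 2 := by
    intro d hd
    rw [Set.uIoc_of_le (by linarith)] at hd
    have e : G P F.N B α x (v + d) a - d - (G P F'.N B α x (v + d) a - d) =
      G P F.N B α x (v + d) a - G P F'.N B α x (v + d) a := by ring
    rw [e, Real.norm_eq_abs]
    by_cases hg : ∃ β, β < α ∧ Gap P B β x (v + d)
    · obtain ⟨β, hβ, hg⟩ := hg
      exact con_G F F' D hD B hβ hD0 (ih β hβ) ha ha1 hg
    · rw [G_nogap P F.N B a hg, G_nogap P F'.N B a hg, sub_self, abs_zero]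
      positivity
  have h1 := intervalIntegral.norm_integral_le_of_norm_le_const hb
  rw [Real.norm_eq_abs] at h1
  have h2 : |2 * a - a| = a := by
    have : 2 * a - a = a := by ring
    rw [this, abs_of_pos ha]
  rw [h2] at h1
  calc 1 / a * |∫ d in a..(2 * a), G P F.N B α x (v + d) a - d -
        (G P F'.N B α x (v + d) a - d)| ≤ 1 / a * (D * a / 2 * a) :=
        mul_le_mul_of_nonneg_left h1 (by positivity)
    _ = D * a / 2 := by field_simp

theorem con_TN (F F' : Fam P) (D : ℝ)
    (hD : ∀ B a, 0 < a → a ≤ 1 → ∀ x, |F.N B a x - F'.N B a x| ≤ D * a)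
    (B : P.K) (a : ℝ) (ha : 0 < a) (ha1 : a ≤ 1) (x : E) :
    |TN P F.N B a x - TN P F'.N B a x| ≤ D * a / 2 := by
  have := con F F' D hD B (P.Θ B) a ha ha1 x 0 (by rw [P.S_top]; linarith)
  exact this

end Pool.ASP
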