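import Mathlib

set_option autoImplicit false

open MeasureTheory Set Filter Topology

namespace Pool.ASP

/-- Abstract system: bodies `B : K` with support functions `h B`, a decreasing ordinal-indexed
family `S B α` of bodies, and for each `α` a functional `f B α` and a small body `C B α`. -/
structure Sys (E : Type) [NormedAddCommGroup E] [NormedSpace ℝ E] where
  K : Type
  h : K → E → ℝ
  h_nonneg : ∀ B x, 0 ≤ h B x
  h_lip : ∀ B x y, |h B x - h B y| ≤ ‖x - y‖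
  S : K → Ordinal.{0} → K
  S_zero : ∀ B x, h (S B 0) x = h B x
  S_anti : ∀ B α β x, α ≤ β → h (S B β) x ≤ h (S B α) x
  Θ : K → Ordinal.{0}
  S_top : ∀ B x, h (S B (Θ B)) x = 0
  sel : ∀ B x u, 0 < u → u ≤ h B x → ∃ α, h (S B (Order.succ α)) x < u ∧ u ≤ h (S B α) x
  f : K → Ordinal.{0} → (E →L[ℝ] ℝ)
  f_le : ∀ B α x, |f B α x| ≤ ‖x‖
  C : K → Ordinal.{0} → K
  split : ∀ B α x, h (S B (Order.succ α)) x < h (S B α) x →
    h (S B α) x = f B α x + (1 / 100) * h (C B α) x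

/-- constant `c` -/
noncomputable def cc : ℝ := 1 / 10000

/-- `rho_j = a / 2^j` -/
noncomputable def rho (a : ℝ) (j : ℕ) : ℝ := a / 2 ^ j

/-- next scales `a_j = c a^2 / 4^j` -/
noncomputable def aj (a : ℝ) (j : ℕ) : ℝ := cc * a ^ 2 / 4 ^ j

/-- tolerances -/
noncomputable def tau (a : ℝ) (j : ℕ) : ℝ := aj a j / 30

/-- `T = 1 + 2 eps` -/
noncomputable def TT : ℝ := 102 / 100

/-- `K'(a) = 24 c + 180 c a` -/
noncomputable def KK (a : ℝ) : ℝ := 24 * cc + 180 * cc * a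

/-- the cut-off function -/
noncomputable def th (s : ℝ) : ℝ := ∫ y in (1 : ℝ)..s, 6 * max 0 ((y - 1) * (2 - y))

variable {E : Type} [NormedAddCommGroup E] [NormedSpace ℝ E]

/-- families of approximants -/
structure Fam (P : Sys E) where
  N : P.K → ℝ → E → ℝ
  close : ∀ B a, 0 < a → a ≤ 1 → ∀ x, |N B a x - P.h B x| ≤ 3 * a
  lip : ∀ B a, 0 < a → a ≤ 1 → ∀ x y, |N B a x - N B a y| ≤ 2 * ‖x - y‖

section
variable (P : Sys E) (N : P.K → ℝ → E → ℝ) (B : P.K)

/-- `u` lies strictly between `h_(β+1)(x)` and `h_β(x)` -/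
def Gap (β : Ordinal.{0}) (x : E) (u : ℝ) : Prop :=
  P.h (P.S B (Order.succ β)) x < u ∧ u < P.h (P.S B β) x

noncomputable def bb (a : ℝ) (β : Ordinal.{0}) (j : ℕ) (x : E) : ℝ :=
  N (P.S B (Order.succ β)) (tau a j) x

noncomputable def tt (a : ℝ) (β : Ordinal.{0}) (j : ℕ) (x : E) : ℝ :=
  P.f B β x + (1 / 100) * N (P.C B β) (tau a j) x

noncomputable def chi (a : ℝ) (β : Ordinal.{0}) (j : ℕ) (x : E) (u : ℝ) : ℝ :=
  th ((u - bb P N B a β j x) / rho a j) * th ((tt P N B a β j x - u) / rho a j)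

noncomputable def wt (a : ℝ) (β : Ordinal.{0}) (j : ℕ) (x : E) (u : ℝ) : ℝ :=
  chi P N B a β j x u - (if j = 0 then 0 else chi P N B a β (j - 1) x u)

open Classical in
/-- the scan, by recursion on the ordinal -/
noncomputable def V : Ordinal.{0} → E → ℝ → ℝ → ℝ :=
  WellFoundedLT.fix (fun α IH x v a =>
    (1 / a) * ∫ d in a..(2 * a),
      ((if hg : ∃ β, β < α ∧ Gap P B β x (v + d) then
          ∑' j, wt P N B a hg.choose j x (v + d) *
            IH hg.choose hg.choose_spec.1 x (tt P N B a hg.choose j x) (aj a j)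
        else max (v + d) (P.h B x)) - d))

open Classical in
noncomputable def G (α : Ordinal.{0}) (x : E) (u a : ℝ) : ℝ :=
  if hg : ∃ β, β < α ∧ Gap P B β x u then
    ∑' j, wt P N B a hg.choose j x u * V P N B hg.choose x (tt P N B a hg.choose j x) (aj a j)
  else max u (P.h B x)

theorem V_eq (α : Ordinal.{0}) (x : E) (v a : ℝ) :
    V P N B α x v a = (1 / a) * ∫ d in a..(2 * a), (G P N B α x (v + d) a - d) := by
  unfold V
  rw [WellFoundedLT.fix_eq]
  rfl

theorem Gap.unique {β γ : Ordinal.{0}} {x : E} {u : ℝ} (h1 : Gap P B β x u)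
    (h2 : Gap P B γ x u) : β = γ := by
  rcases lt_trichotomy β γ with h | h | h
  · exfalso
    have := P.S_anti B (Order.succ β) γ x (Order.succ_le_of_lt h)
    linarith [h1.1, h2.2]
  · exact h
  · exfalso
    have := P.S_anti B (Order.succ γ) β x (Order.succ_le_of_lt h)
    linarith [h2.1, h1.2]

theorem G_gap {α β : Ordinal.{0}} {x : E} {u : ℝ} (a : ℝ) (hβ : β < α) (hg : Gap P B β x u) :
    G P N B α x u a = ∑' j, wt P N B a β j x u * V P N B β x (tt P N B a β j x) (aj a j) := by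
  have hex : ∃ β, β < α ∧ Gap P B β x u := ⟨β, hβ, hg⟩
  have : hex.choose = β := Gap.unique P B hex.choose_spec.2 hg
  unfold G
  rw [dif_pos hex, this]

theorem G_nogap {α : Ordinal.{0}} {x : E} {u : ℝ} (a : ℝ)
    (hg : ¬ ∃ β, β < α ∧ Gap P B β x u) :
    G P N B α x u a = max u (P.h B x) := by
  unfold G
  rw [dif_neg hg]

/-- if `h_α(x) < u` then any gap containing `u` has index `< α` -/
theorem Gap.lt {α β : Ordinal.{0}} {x : E} {u : ℝ} (hu : P.h (P.S B α) x < u)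
    (hg : Gap P B β x u) : β < α := by
  by_contra hcon
  have := P.S_anti B α β x (not_lt.mp hcon)
  linarith [hg.2]

end

/-- local Lipschitz bound -/
def LipNear (φ : E → ℝ) (x0 : E) (L : ℝ) : Prop :=
  ∃ r > 0, ∀ y z, ‖y - x0‖ < r → ‖z - x0‖ < r → |φ y - φ z| ≤ L * ‖y - z‖

/-- the non-smoothness of `φ` at `x0` is at most `b` -/
def JB (φ : E → ℝ) (x0 : E) (b : ℝ) : Prop :=
  ∀ b' > b, ∃ r > 0, ∀ y y' k, ‖y - x0‖ < r → ‖y' - x0‖ < r → ‖k‖ < r →
    |φ (y + k) - φ y - φ (y' + k) + φ y'| ≤ b' * ‖k‖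

/-- weak-star fragmentability of subsets of the dual unit ball -/
def Frag (E : Type) [NormedAddCommGroup E] [NormedSpace ℝ E] : Prop :=
  ∀ A : Set (WeakDual ℝ E), A.Nonempty → (∀ f ∈ A, ∀ x, |f x| ≤ ‖x‖) → ∀ ε > 0,
    ∃ U : Set (WeakDual ℝ E), IsOpen U ∧ (A ∩ U).Nonempty ∧
      ∀ f ∈ A ∩ U, ∀ g ∈ A ∩ U, ∀ x, |f x - g x| ≤ ε * ‖x‖

end Pool.ASP
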