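import Pool.Agent.ASP.Defs

set_option autoImplicit false

open MeasureTheory Set Filter Topology

namespace Pool.ASP

variable {E : Type} [NormedAddCommGroup E] [NormedSpace ℝ E]

namespace Der

/-- the support function of `B`, cut at `0` -/
noncomputable def hB (B : Set (WeakDual ℝ E)) (x : E) : ℝ :=
  sSup (insert 0 ((fun f : WeakDual ℝ E => f x) '' B))

/-- `B` is contained in the dual unit ball -/
def InBall (B : Set (WeakDual ℝ E)) : Prop := ∀ f ∈ B, ∀ x : E, |f x| ≤ ‖x‖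

theorem InBall.mono {B C : Set (WeakDual ℝ E)} (hB : InBall B) (h : C ⊆ B) : InBall C :=
  fun f hf x => hB f (h hf) x

theorem bddAbove_hB {B : Set (WeakDual ℝ E)} (hb : InBall B) (x : E) :
    BddAbove (insert 0 ((fun f : WeakDual ℝ E => f x) '' B)) := by
  refine ⟨‖x‖, ?_⟩
  rintro y (rfl | ⟨f, hf, rfl⟩)
  · exact norm_nonneg x
  · exact (abs_le.mp (hb f hf x)).2

theorem hB_nonneg {B : Set (WeakDual ℝ E)} (hb : InBall B) (x : E) : 0 ≤ hB B x :=
  le_csSup (bddAbove_hB hb x) (mem_insert _ _)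

theorem le_hB {B : Set (WeakDual ℝ E)} (hb : InBall B) {f : WeakDual ℝ E} (hf : f ∈ B) (x : E) :
    f x ≤ hB B x :=
  le_csSup (bddAbove_hB hb x) (mem_insert_of_mem _ ⟨f, hf, rfl⟩)

theorem hB_le {B : Set (WeakDual ℝ E)} {x : E} {r : ℝ} (hr : 0 ≤ r)
    (h : ∀ f ∈ B, f x ≤ r) : hB B x ≤ r := by
  refine csSup_le (insert_nonempty _ _) ?_
  rintro y (rfl | ⟨f, hf, rfl⟩)
  · exact hr
  · exact h f hf

theorem hB_mono {B C : Set (WeakDual ℝ E)} (hb : InBall B) (h : C ⊆ B) (x : E) :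
    hB C x ≤ hB B x :=
  hB_le (hB_nonneg hb x) (fun _ hf => le_hB hb (h hf) x)

theorem hB_empty (x : E) : hB (∅ : Set (WeakDual ℝ E)) x = 0 := by
  unfold hB
  simp

theorem isCompact_of {B : Set (WeakDual ℝ E)} (hb : InBall B) (hc : IsClosed B) :
    IsCompact B := by
  refine (WeakDual.isCompact_closedBall (𝕜 := ℝ) (E := E) 0 1).of_isClosed_subset hc ?_
  intro f hf
  rw [mem_preimage, mem_closedBall_zero_iff]
  refine ContinuousLinearMap.opNorm_le_bound _ zero_le_one (fun x => ?_)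
  rw [one_mul, Real.norm_eq_abs]
  exact hb f hf x

/-- a positive value of `h` is attained -/
theorem exists_max {B : Set (WeakDual ℝ E)} (hb : InBall B) (hc : IsClosed B) {x : E}
    (hx : 0 < hB B x) : ∃ f ∈ B, f x = hB B x := by
  have hne : B.Nonempty := by
    by_contra hcon
    rw [not_nonempty_iff_eq_empty] at hcon
    rw [hcon, hB_empty] at hx
    exact lt_irrefl _ hx
  obtain ⟨f, hf, hmax⟩ := (isCompact_of hb hc).exists_isMaxOn hne
    (WeakDual.eval_continuous (𝕜 := ℝ) x).continuousOn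
  refine ⟨f, hf, le_antisymm (le_hB hb hf x) ?_⟩
  by_contra hcon
  rw [not_le] at hcon
  have h1 : hB B x ≤ max (f x) 0 :=
    hB_le (le_max_right _ _) (fun g hg => (hmax hg).trans (le_max_left _ _))
  rcases le_max_iff.mp h1 with h | h
  · exact absurd hcon (not_lt.mpr h)
  · exact absurd hx (not_lt.mpr h)

theorem exists_ge {B : Set (WeakDual ℝ E)} (hb : InBall B) (hc : IsClosed B) {x : E} {u : ℝ}
    (hu : 0 < u) (hx : u ≤ hB B x) : ∃ f ∈ B, u ≤ f x := by
  obtain ⟨f, hf, h⟩ := exists_max hb hc (hu.trans_le hx)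
  exact ⟨f, hf, h ▸ hx⟩

theorem hB_lip {B : Set (WeakDual ℝ E)} (hb : InBall B) (x y : E) :
    |hB B x - hB B y| ≤ ‖x - y‖ := by
  have key : ∀ x y : E, hB B x ≤ hB B y + ‖x - y‖ := by
    intro x y
    refine hB_le (add_nonneg (hB_nonneg hb y) (norm_nonneg _)) (fun f hf => ?_)
    have h1 : f x = f y + f (x - y) := by
      rw [← map_add]; congr 1; abel
    rw [h1]
    exact add_le_add (le_hB hb hf y) (abs_le.mp (hb f hf _)).2
  rw [abs_le]
  constructor
  · have := key y x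
    rw [norm_sub_rev] at this
    linarith
  · linarith [key x y]

section
variable (hF : Frag E)

open Classical in
/-- the open set cutting a small piece out of `A` -/
noncomputable def UU (hF : Frag E) (A : Set (WeakDual ℝ E)) : Set (WeakDual ℝ E) :=
  if h : A.Nonempty ∧ InBall A then (hF A h.1 h.2 (1 / 100) (by norm_num)).choose else ∅

theorem UU_open (A : Set (WeakDual ℝ E)) : IsOpen (UU hF A) := by
  unfold UU
  split_ifs with h
  · exact (hF A h.1 h.2 (1 / 100) (by norm_num)).choose_spec.1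
  · exact isOpen_empty

theorem UU_nonempty {A : Set (WeakDual ℝ E)} (h1 : A.Nonempty) (h2 : InBall A) :
    (A ∩ UU hF A).Nonempty := by
  unfold UU
  rw [dif_pos ⟨h1, h2⟩]
  exact (hF A h1 h2 (1 / 100) (by norm_num)).choose_spec.2.1

theorem UU_small {A : Set (WeakDual ℝ E)} {f g : WeakDual ℝ E}
    (h2 : InBall A) (hf : f ∈ A ∩ UU hF A) (hg : g ∈ A ∩ UU hF A) (x : E) :
    |f x - g x| ≤ (1 / 100) * ‖x‖ := by
  have h1 : A.Nonempty := ⟨f, hf.1⟩
  have hU : UU hF A = (hF A h1 h2 (1 / 100) (by norm_num)).choose := by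
    unfold UU
    rw [dif_pos ⟨h1, h2⟩]
  rw [hU] at hf hg
  exact (hF A h1 h2 (1 / 100) (by norm_num)).choose_spec.2.2 f hf g hg x

/-- one step of the derivation -/
noncomputable def DD (A : Set (WeakDual ℝ E)) : Set (WeakDual ℝ E) := A \ UU hF A

theorem DD_sub (A : Set (WeakDual ℝ E)) : DD hF A ⊆ A := sdiff_subset

theorem DD_closed {A : Set (WeakDual ℝ E)} (h : IsClosed A) : IsClosed (DD hF A) :=
  h.sdiff (UU_open hF A)

/-- the transfinite derivation -/
noncomputable def SS (B : Set (WeakDual ℝ E)) : Ordinal.{0} → Set (WeakDual ℝ E) :=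
  WellFoundedLT.fix (fun α IH => {f | f ∈ B ∧ ∀ β, ∀ hβ : β < α, f ∈ DD hF (IH β hβ)})

theorem SS_eq (B : Set (WeakDual ℝ E)) (α : Ordinal.{0}) :
    SS hF B α = {f | f ∈ B ∧ ∀ β, β < α → f ∈ DD hF (SS hF B β)} := by
  unfold SS
  rw [WellFoundedLT.fix_eq]

theorem mem_SS {B : Set (WeakDual ℝ E)} {α : Ordinal.{0}} {f : WeakDual ℝ E} :
    f ∈ SS hF B α ↔ f ∈ B ∧ ∀ β, β < α → f ∈ DD hF (SS hF B β) := by
  rw [SS_eq]
  rfl

theorem SS_zero (B : Set (WeakDual ℝ E)) : SS hF B 0 = B := by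
  ext f
  rw [mem_SS]
  exact ⟨fun h => h.1, fun h => ⟨h, fun β hβ => absurd hβ not_lt_zero⟩⟩

theorem SS_anti (B : Set (WeakDual ℝ E)) {α β : Ordinal.{0}} (h : α ≤ β) :
    SS hF B β ⊆ SS hF B α := by
  intro f hf
  rw [mem_SS] at hf ⊢
  exact ⟨hf.1, fun γ hγ => hf.2 γ (hγ.trans_le h)⟩

theorem SS_sub (B : Set (WeakDual ℝ E)) (α : Ordinal.{0}) : SS hF B α ⊆ B := by
  intro f hf
  exact ((mem_SS hF).mp hf).1

theorem SS_succ (B : Set (WeakDual ℝ E)) (α : Ordinal.{0}) :
    SS hF B (Order.succ α) = DD hF (SS hF B α) := by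
  apply Subset.antisymm
  · intro f hf
    exact ((mem_SS hF).mp hf).2 α (Order.lt_succ α)
  · intro f hf
    rw [mem_SS]
    have h1 := (mem_SS hF).mp (DD_sub hF _ hf)
    refine ⟨h1.1, fun β hβ => ?_⟩
    rcases (Order.lt_succ_iff.mp hβ).lt_or_eq with h | h
    · exact h1.2 β h
    · rw [h]; exact hf

theorem SS_closed {B : Set (WeakDual ℝ E)} (hc : IsClosed B) (α : Ordinal.{0}) :
    IsClosed (SS hF B α) := by
  induction α using WellFoundedLT.induction with
  | ind α IH =>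
    have : SS hF B α = B ∩ ⋂ β : {β // β < α}, DD hF (SS hF B β.1) := by
      ext f
      rw [mem_SS]
      simp
    rw [this]
    exact hc.inter (isClosed_iInter fun β => DD_closed hF (IH β.1 β.2))

theorem exists_empty {B : Set (WeakDual ℝ E)} (hb : InBall B) :
    ∃ α : Ordinal.{0}, SS hF B α = ∅ := by
  by_contra hcon
  have hne : ∀ α : Ordinal.{0}, (SS hF B α ∩ UU hF (SS hF B α)).Nonempty := by
    intro α
    refine UU_nonempty hF ?_ (hb.mono (SS_sub hF B α))
    rw [nonempty_iff_ne_empty]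
    exact fun h => hcon ⟨α, h⟩
  choose g hg using hne
  refine not_injective_of_ordinal g ?_
  have key : ∀ α β : Ordinal.{0}, α < β → g α ≠ g β := by
    intro α β hαβ h
    have h1 : g β ∈ SS hF B (Order.succ α) :=
      SS_anti hF B (Order.succ_le_of_lt hαβ) (hg β).1
    rw [SS_succ, ← h] at h1
    exact h1.2 (hg α).2
  intro α β h
  rcases lt_trichotomy α β with h1 | h1 | h1
  · exact absurd h (key α β h1)
  · exact h1
  · exact absurd h.symm (key β α h1)

theorem sel_aux {B : Set (WeakDual ℝ E)} (hb : InBall B) (hc : IsClosed B) (x : E) (u : ℝ)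
    (hu : 0 < u) (hx : u ≤ hB B x) :
    ∃ α : Ordinal.{0}, hB (SS hF B (Order.succ α)) x < u ∧ u ≤ hB (SS hF B α) x := by
  obtain ⟨Θ, hΘ⟩ := exists_empty hF hb
  have hex : ∃ γ : Ordinal.{0}, hB (SS hF B γ) x < u := ⟨Θ, by rw [hΘ, hB_empty]; exact hu⟩
  obtain ⟨γ, hγ, hmin⟩ : ∃ γ : Ordinal.{0}, hB (SS hF B γ) x < u ∧
      ∀ β, β < γ → u ≤ hB (SS hF B β) x := by
    have hwf := (inferInstance : WellFoundedLT Ordinal.{0}).wf
    refine ⟨hwf.min {γ | hB (SS hF B γ) x < u} hex,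
      hwf.min_mem {γ | hB (SS hF B γ) x < u} hex, ?_⟩
    intro β hβ
    by_contra hcon
    exact hwf.not_lt_min {γ | hB (SS hF B γ) x < u} (not_le.mp hcon) hβ
  by_cases hs : ∃ β, γ = Order.succ β
  · obtain ⟨β, rfl⟩ := hs
    exact ⟨β, hγ, hmin β (Order.lt_succ β)⟩
  · exfalso
    have hsl : ∀ β, β < γ → Order.succ β < γ := by
      intro β hβ
      refine lt_of_le_of_ne (Order.succ_le_of_lt hβ) ?_
      exact fun h => hs ⟨β, h.symm⟩
    have hγ0 : 0 < γ := by
      rw [pos_iff_ne_zero]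
      rintro rfl
      rw [SS_zero] at hγ
      exact absurd hx (not_le.mpr hγ)
    let t : {β // β < γ} → Set (WeakDual ℝ E) := fun β => SS hF B β.1 ∩ {f | u ≤ f x}
    have hcl : IsClosed {f : WeakDual ℝ E | u ≤ f x} :=
      isClosed_le continuous_const (WeakDual.eval_continuous x)
    have : Nonempty {β // β < γ} := ⟨⟨0, hγ0⟩⟩
    have hne : (⋂ i, t i).Nonempty := by
      refine IsCompact.nonempty_iInter_of_directed_nonempty_isCompact_isClosed t ?_ ?_ ?_ ?_
      · intro i j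
        rcases le_total i.1 j.1 with h | h
        · exact ⟨j, inter_subset_inter_left _ (SS_anti hF B h), Subset.rfl⟩
        · exact ⟨i, Subset.rfl, inter_subset_inter_left _ (SS_anti hF B h)⟩
      · intro i
        obtain ⟨f, hf, h⟩ := exists_ge (hb.mono (SS_sub hF B i.1)) (SS_closed hF hc i.1) hu
          (hmin i.1 i.2)
        exact ⟨f, hf, h⟩
      · intro i
        exact (isCompact_of (hb.mono (SS_sub hF B i.1)) (SS_closed hF hc i.1)).inter_right hcl
      · intro i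
        exact (SS_closed hF hc i.1).inter hcl
    obtain ⟨f, hf⟩ := hne
    rw [mem_iInter] at hf
    have hfγ : f ∈ SS hF B γ := by
      rw [mem_SS]
      refine ⟨SS_sub hF B _ (hf ⟨0, hγ0⟩).1, fun β hβ => ?_⟩
      rw [← SS_succ]
      exact (hf ⟨Order.succ β, hsl β hβ⟩).1
    have h1 : u ≤ f x := (hf ⟨0, hγ0⟩).2
    have h2 := le_hB (hb.mono (SS_sub hF B γ)) hfγ x
    exact absurd hγ (not_lt.mpr (h1.trans h2))

open Classical in
/-- the selected functional -/
noncomputable def ff (A : Set (WeakDual ℝ E)) : WeakDual ℝ E :=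
  if h : (A ∩ UU hF A).Nonempty then h.choose else 0

theorem ff_mem {A : Set (WeakDual ℝ E)} (h : (A ∩ UU hF A).Nonempty) :
    ff hF A ∈ A ∩ UU hF A := by
  unfold ff
  rw [dif_pos h]
  exact h.choose_spec

theorem ff_le {A : Set (WeakDual ℝ E)} (hb : InBall A) (x : E) : |ff hF A x| ≤ ‖x‖ := by
  by_cases h : (A ∩ UU hF A).Nonempty
  · exact hb _ (ff_mem hF h).1 x
  · unfold ff
    rw [dif_neg h]
    have : (0 : WeakDual ℝ E) x = 0 := rfl
    rw [this, abs_zero]
    exact norm_nonneg x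

/-- the small body -/
noncomputable def CCs (A : Set (WeakDual ℝ E)) : Set (WeakDual ℝ E) :=
  (fun g : WeakDual ℝ E => ff hF A + (1 / 100 : ℝ) • g) ⁻¹' closure (A ∩ UU hF A)

theorem CCs_closed (A : Set (WeakDual ℝ E)) : IsClosed (CCs hF A) := by
  unfold CCs
  exact isClosed_closure.preimage (continuous_const.add (continuous_const_smul (1 / 100 : ℝ)))

theorem eval_add_smul (f g : WeakDual ℝ E) (r : ℝ) (x : E) : (f + r • g) x = f x + r * g x := rfl

theorem CCs_ball {A : Set (WeakDual ℝ E)} (hb : InBall A) : InBall (CCs hF A) := by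
  intro g hg x
  have hg' : ff hF A + (1 / 100 : ℝ) • g ∈ closure (A ∩ UU hF A) := hg
  have hne : (A ∩ UU hF A).Nonempty := by
    rw [← closure_nonempty_iff]
    exact ⟨_, hg'⟩
  have hff := ff_mem hF hne
  have hcl : IsClosed {f : WeakDual ℝ E | |f x - ff hF A x| ≤ (1 / 100) * ‖x‖} :=
    isClosed_le (((WeakDual.eval_continuous x).sub continuous_const).abs) continuous_const
  have hsub : closure (A ∩ UU hF A) ⊆ {f : WeakDual ℝ E | |f x - ff hF A x| ≤ (1 / 100) * ‖x‖} :=
    closure_minimal (fun f hf => UU_small hF hb hf hff x) hcl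
  have h1 : |(ff hF A + (1 / 100 : ℝ) • g) x - ff hF A x| ≤ (1 / 100) * ‖x‖ := hsub hg'
  rw [eval_add_smul, add_sub_cancel_left, abs_mul, abs_of_pos (by norm_num : (0 : ℝ) < 1 / 100)]
    at h1
  linarith

theorem split_aux {A : Set (WeakDual ℝ E)} (hb : InBall A) (hc : IsClosed A) {x : E}
    (hx : hB (DD hF A) x < hB A x) :
    hB A x = ff hF A x + (1 / 100) * hB (CCs hF A) x := by
  have h0 : 0 < hB A x := (hB_nonneg (hb.mono (DD_sub hF A)) x).trans_lt hx
  obtain ⟨f, hf, hfx⟩ := exists_max hb hc h0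
  have hfU : f ∈ UU hF A := by
    by_contra hcon
    have h1 : f ∈ DD hF A := ⟨hf, hcon⟩
    have h2 := le_hB (hb.mono (DD_sub hF A)) h1 x
    rw [hfx] at h2
    exact absurd hx (not_lt.mpr h2)
  have hne : (A ∩ UU hF A).Nonempty := ⟨f, hf, hfU⟩
  have hff := ff_mem hF hne
  apply le_antisymm
  · have hg : (100 : ℝ) • (f - ff hF A) ∈ CCs hF A := by
      have h1 : ff hF A + (1 / 100 : ℝ) • ((100 : ℝ) • (f - ff hF A)) = f := by
        rw [smul_smul]
        norm_num
      show ff hF A + (1 / 100 : ℝ) • ((100 : ℝ) • (f - ff hF A)) ∈ closure (A ∩ UU hF A)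
      rw [h1]
      exact subset_closure ⟨hf, hfU⟩
    have h2 := le_hB (CCs_ball hF hb) hg x
    have h3 : ((100 : ℝ) • (f - ff hF A)) x = 100 * (f x - ff hF A x) := rfl
    rw [h3] at h2
    rw [← hfx]
    linarith
  · have h1 : hB (CCs hF A) x ≤ 100 * (hB A x - ff hF A x) := by
      refine hB_le ?_ ?_
      · have := le_hB hb hff.1 x
        linarith
      · intro g hg
        have hg' : ff hF A + (1 / 100 : ℝ) • g ∈ closure (A ∩ UU hF A) := hg
        have hgA : ff hF A + (1 / 100 : ℝ) • g ∈ A :=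
          (closure_minimal inter_subset_left hc) hg'
        have h2 := le_hB hb hgA x
        rw [eval_add_smul] at h2
        linarith
    linarith

theorem ball_closed : IsClosed {f : WeakDual ℝ E | ∀ x : E, |f x| ≤ ‖x‖} := by
  have : {f : WeakDual ℝ E | ∀ x : E, |f x| ≤ ‖x‖} = ⋂ x : E, {f | |f x| ≤ ‖x‖} := by
    ext f
    simp
  rw [this]
  exact isClosed_iInter fun x =>
    isClosed_le (WeakDual.eval_continuous x).abs continuous_const

theorem hB_ball (x : E) : hB {f : WeakDual ℝ E | ∀ x : E, |f x| ≤ ‖x‖} x = ‖x‖ := by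
  have hb : InBall {f : WeakDual ℝ E | ∀ x : E, |f x| ≤ ‖x‖} := fun f hf x => hf x
  apply le_antisymm
  · exact hB_le (norm_nonneg x) (fun f hf => (abs_le.mp (hf x)).2)
  · obtain ⟨g, hg, hgx⟩ := exists_dual_vector'' ℝ x
    have hmem : StrongDual.toWeakDual g ∈ {f : WeakDual ℝ E | ∀ x : E, |f x| ≤ ‖x‖} := by
      intro y
      have h1 : |g y| ≤ ‖g‖ * ‖y‖ := g.le_opNorm y
      have h2 : ‖g‖ * ‖y‖ ≤ 1 * ‖y‖ := mul_le_mul_of_nonneg_right hg (norm_nonneg y)
      rw [one_mul] at h2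
      exact h1.trans h2
    have h3 := le_hB hb hmem x
    have h4 : (StrongDual.toWeakDual g) x = g x := rfl
    rw [h4, hgx] at h3
    exact h3

end

end Der

open Der in
/-- the system of all weak-star compact subsets of the dual unit ball -/
noncomputable def theSys (hF : Frag E) : Sys E where
  K := {B : Set (WeakDual ℝ E) // InBall B ∧ IsClosed B}
  h := fun B x => hB B.1 x
  h_nonneg := fun B x => hB_nonneg B.2.1 x
  h_lip := fun B x y => hB_lip B.2.1 x y
  S := fun B α => ⟨SS hF B.1 α, B.2.1.mono (SS_sub hF B.1 α), SS_closed hF B.2.2 α⟩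
  S_zero := fun B x => by
    show hB (SS hF B.1 0) x = hB B.1 x
    rw [SS_zero]
  S_anti := fun B α β x h => hB_mono (B.2.1.mono (SS_sub hF B.1 α)) (SS_anti hF B.1 h) x
  Θ := fun B => (exists_empty hF B.2.1).choose
  S_top := fun B x => by
    show hB (SS hF B.1 (exists_empty hF B.2.1).choose) x = 0
    rw [(exists_empty hF B.2.1).choose_spec, hB_empty]
  sel := fun B x u hu hx => sel_aux hF B.2.1 B.2.2 x u hu hx
  f := fun B α => WeakDual.toStrongDual (ff hF (SS hF B.1 α))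
  f_le := fun B α x => ff_le hF (B.2.1.mono (SS_sub hF B.1 α)) x
  C := fun B α => ⟨CCs hF (SS hF B.1 α), CCs_ball hF (B.2.1.mono (SS_sub hF B.1 α)),
    CCs_closed hF (SS hF B.1 α)⟩
  split := fun B α x h => by
    have h' : hB (SS hF B.1 (Order.succ α)) x < hB (SS hF B.1 α) x := h
    rw [SS_succ] at h'
    exact split_aux hF (B.2.1.mono (SS_sub hF B.1 α)) (SS_closed hF B.2.2 α) h'

theorem exists_sys (hF : Frag E) : ∃ (P : Sys E) (B : P.K), ∀ x, P.h B x = ‖x‖ :=
  ⟨theSys hF, ⟨{f : WeakDual ℝ E | ∀ x : E, |f x| ≤ ‖x‖}, fun _ hf x => hf x, Der.ball_closed⟩,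
    fun x => Der.hB_ball x⟩

end Pool.ASP
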