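import Pool.Agent.ASP.Defs

set_option autoImplicit false
set_option linter.unusedSectionVars false

open MeasureTheory Set Filter Topology

namespace Pool.ASP

variable {E : Type} [NormedAddCommGroup E] [NormedSpace ℝ E]

/-- splitting a weak-star open set that meets `A` -/
theorem frag_split {A : Set (WeakDual ℝ E)} {ε : ℝ} (hε : 0 < ε)
    (hno : ∀ U : Set (WeakDual ℝ E), IsOpen U → (A ∩ U).Nonempty →
      ∃ f ∈ A ∩ U, ∃ g ∈ A ∩ U, ∃ x : E, ε * ‖x‖ < |f x - g x|)
    (U : {U : Set (WeakDual ℝ E) // IsOpen U ∧ (A ∩ U).Nonempty}) :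
    ∃ (c : Bool → {U : Set (WeakDual ℝ E) // IsOpen U ∧ (A ∩ U).Nonempty}) (x : E) (p q : ℝ),
      (∀ b, (c b).1 ⊆ U.1) ∧ (∀ f ∈ (c true).1, p ≤ f x) ∧ (∀ g ∈ (c false).1, g x ≤ q) ∧
      ε / 2 * ‖x‖ < p - q := by
  obtain ⟨f0, hf0, g0, hg0, x0, hx0⟩ := hno U.1 U.2.1 U.2.2
  -- reorder so that the difference is positive
  have key : ∀ f1 ∈ A ∩ U.1, ∀ g1 ∈ A ∩ U.1, ∀ x : E, ε * ‖x‖ < f1 x - g1 x →
      ∃ (c : Bool → {U : Set (WeakDual ℝ E) // IsOpen U ∧ (A ∩ U).Nonempty}) (x : E) (p q : ℝ),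
      (∀ b, (c b).1 ⊆ U.1) ∧ (∀ f ∈ (c true).1, p ≤ f x) ∧ (∀ g ∈ (c false).1, g x ≤ q) ∧
      ε / 2 * ‖x‖ < p - q := by
    intro f1 hf1 g1 hg1 x hx
    have hs : 0 < f1 x - g1 x := lt_of_le_of_lt (by positivity) hx
    have hev : Continuous (fun f : WeakDual ℝ E => f x) := WeakDual.eval_continuous x
    let U1 : Set (WeakDual ℝ E) := U.1 ∩ {f | f1 x - (f1 x - g1 x) / 4 < f x}
    let U2 : Set (WeakDual ℝ E) := U.1 ∩ {f | f x < g1 x + (f1 x - g1 x) / 4}
    have o1 : IsOpen U1 := U.2.1.inter (isOpen_lt continuous_const hev)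
    have o2 : IsOpen U2 := U.2.1.inter (isOpen_lt hev continuous_const)
    have n1 : (A ∩ U1).Nonempty := ⟨f1, hf1.1, hf1.2, by
      show f1 x - (f1 x - g1 x) / 4 < f1 x
      linarith⟩
    have n2 : (A ∩ U2).Nonempty := ⟨g1, hg1.1, hg1.2, by
      show g1 x < g1 x + (f1 x - g1 x) / 4
      linarith⟩
    refine ⟨fun b => if b then ⟨U1, o1, n1⟩ else ⟨U2, o2, n2⟩, x,
      f1 x - (f1 x - g1 x) / 4, g1 x + (f1 x - g1 x) / 4, ?_, ?_, ?_, ?_⟩
    · intro b
      cases b
      · exact inter_subset_left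
      · exact inter_subset_left
    · intro f hf
      have hf' : f ∈ U1 := hf
      exact le_of_lt hf'.2
    · intro f hf
      have hf' : f ∈ U2 := hf
      exact le_of_lt hf'.2
    · have : ε / 2 * ‖x‖ = (ε * ‖x‖) / 2 := by ring
      rw [this]
      linarith
  rcases lt_abs.mp hx0 with h | h
  · exact key f0 hf0 g0 hg0 x0 h
  · exact key g0 hg0 f0 hf0 x0 (by linarith)

/-- branches as reversed lists -/
def br (σ : ℕ → Bool) : ℕ → List Bool
  | 0 => []
  | n + 1 => σ n :: br σ n

theorem br_congr {σ τ : ℕ → Bool} {n : ℕ} (h : ∀ i < n, σ i = τ i) : br σ n = br τ n := by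
  induction n with
  | zero => rfl
  | succ n ih =>
    simp only [br]
    rw [h n (Nat.lt_succ_self n), ih (fun i hi => h i (Nat.lt_succ_of_lt hi))]

theorem not_countable_branches : ¬ (Set.univ : Set (ℕ → Bool)).Countable := by
  intro hc
  have h1 : Countable (ℕ → Bool) := Set.countable_univ_iff.mp hc
  obtain ⟨e, he⟩ := exists_surjective_nat (ℕ → Bool)
  obtain ⟨n, hn⟩ := he (fun n => !(e n n))
  have := congrFun hn n
  simp at this

theorem frag_of_asplund
    (h : ∀ F : Submodule ℝ E, TopologicalSpace.IsSeparable (F : Set E) →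
          TopologicalSpace.SeparableSpace (F →L[ℝ] ℝ)) : Frag E := by
  intro A hA hbd ε hε
  by_contra hcon
  have hno : ∀ U : Set (WeakDual ℝ E), IsOpen U → (A ∩ U).Nonempty →
      ∃ f ∈ A ∩ U, ∃ g ∈ A ∩ U, ∃ x : E, ε * ‖x‖ < |f x - g x| := by
    intro U hU hUn
    by_contra hc
    push Not at hc
    exact hcon ⟨U, hU, hUn, hc⟩
  choose c x p q hsub hp hq hpq using frag_split hε hno
  let T : List Bool → {U : Set (WeakDual ℝ E) // IsOpen U ∧ (A ∩ U).Nonempty} := fun l =>
    List.rec ⟨univ, isOpen_univ, by simpa using hA⟩ (fun b _ U => c U b) l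
  have hT : ∀ b l, T (b :: l) = c (T l) b := fun b l => rfl
  -- the ball
  let K : Set (WeakDual ℝ E) := {f | ∀ x, |f x| ≤ ‖x‖}
  have hKeq : K = WeakDual.toStrongDual ⁻¹' (Metric.closedBall (0 : StrongDual ℝ E) 1) := by
    ext f
    simp only [K, mem_ofPred_eq, mem_preimage, mem_closedBall_zero_iff]
    constructor
    · intro hf
      refine ContinuousLinearMap.opNorm_le_bound _ (by norm_num) (fun y => ?_)
      rw [one_mul]
      exact hf y
    · intro hf y
      have := (WeakDual.toStrongDual f).le_of_opNorm_le hf y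
      rw [one_mul] at this
      exact this
  have hKc : IsCompact K := by
    rw [hKeq]
    exact WeakDual.isCompact_closedBall (0 : StrongDual ℝ E) 1
  have hKcl : IsClosed K := by
    rw [hKeq]
    exact WeakDual.isClosed_closedBall (0 : StrongDual ℝ E) 1
  have hbranch : ∀ σ : ℕ → Bool, ∃ f : WeakDual ℝ E,
      ∀ n, f ∈ closure (A ∩ (T (br σ n)).1) := by
    intro σ
    have hne := IsCompact.nonempty_iInter_of_sequence_nonempty_isCompact_isClosed
      (fun n => closure (A ∩ (T (br σ n)).1)) ?_ ?_ ?_ ?_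
    · obtain ⟨f, hf⟩ := hne
      exact ⟨f, fun n => mem_iInter.mp hf n⟩
    · intro n
      apply closure_mono
      apply inter_subset_inter_right
      exact hsub _ _
    · intro n
      exact (T (br σ n)).2.2.closure
    · exact hKc.of_isClosed_subset isClosed_closure
        (closure_minimal (fun f hf => hbd f hf.1) hKcl)
    · intro n
      exact isClosed_closure
  choose f hf using hbranch
  let xs : List Bool → E := fun l => x (T l)
  let F : Submodule ℝ E := Submodule.span ℝ (range xs)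
  have hFsep : TopologicalSpace.IsSeparable (F : Set E) :=
    (countable_range xs).isSeparable.span
  have := h F hFsep
  let Φ : (ℕ → Bool) → (F →L[ℝ] ℝ) := fun σ =>
    (WeakDual.toStrongDual (f σ)).comp F.subtypeL
  have hsep0 : ∀ σ τ : ℕ → Bool, ∀ n, (∀ i < n, σ i = τ i) → σ n = true → τ n = false →
      ε / 2 < ‖Φ σ - Φ τ‖ := by
    intro σ τ n hlt h1 h2
    have hbr : br σ n = br τ n := br_congr hlt
    set l := br σ n with hl
    have hxF : xs l ∈ F := Submodule.subset_span (mem_range_self l)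
    have hev : Continuous (fun f : WeakDual ℝ E => f (xs l)) := WeakDual.eval_continuous (xs l)
    have a1 : p (T l) ≤ f σ (xs l) := by
      have h3 := hf σ (n + 1)
      simp only [br] at h3
      rw [h1, ← hl, hT] at h3
      have : closure (A ∩ (c (T l) true).1) ⊆ {g : WeakDual ℝ E | p (T l) ≤ g (xs l)} :=
        closure_minimal (fun g hg => hp (T l) g hg.2) (isClosed_le continuous_const hev)
      exact this h3
    have a2 : f τ (xs l) ≤ q (T l) := by
      have h3 := hf τ (n + 1)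
      simp only [br] at h3
      rw [h2, ← hbr, hT] at h3
      have : closure (A ∩ (c (T l) false).1) ⊆ {g : WeakDual ℝ E | g (xs l) ≤ q (T l)} :=
        closure_minimal (fun g hg => hq (T l) g hg.2) (isClosed_le hev continuous_const)
      exact this h3
    have a3 := hpq (T l)
    have a4 : ε / 2 * ‖xs l‖ < f σ (xs l) - f τ (xs l) := by
      have : ε / 2 * ‖xs l‖ < p (T l) - q (T l) := a3
      linarith
    have a5 : f σ (xs l) - f τ (xs l) = (Φ σ - Φ τ) ⟨xs l, hxF⟩ := rfl
    rw [a5] at a4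
    have a6 := (Φ σ - Φ τ).le_opNorm ⟨xs l, hxF⟩
    have a7 : ‖(⟨xs l, hxF⟩ : F)‖ = ‖xs l‖ := rfl
    rw [a7] at a6
    have a8 := le_abs_self ((Φ σ - Φ τ) ⟨xs l, hxF⟩)
    rw [Real.norm_eq_abs] at a6
    by_contra hc
    push Not at hc
    have := mul_le_mul_of_nonneg_right hc (norm_nonneg (xs l))
    linarith
  have hsep : ∀ σ τ : ℕ → Bool, σ ≠ τ → ε / 2 < ‖Φ σ - Φ τ‖ := by
    intro σ τ hne
    have hex : ∃ n, σ n ≠ τ n := by
      by_contra hc
      push Not at hc
      exact hne (funext hc)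
    classical
    let n := Nat.find hex
    have hn : σ n ≠ τ n := Nat.find_spec hex
    have hlt : ∀ i < n, σ i = τ i := fun i hi => by
      have := Nat.find_min hex hi
      push Not at this
      exact this
    cases h1 : σ n with
    | true =>
      have h2 : τ n = false := by
        cases h3 : τ n with
        | false => rfl
        | true => exact absurd (h1.trans h3.symm) hn
      exact hsep0 σ τ n hlt h1 h2
    | false =>
      have h2 : τ n = true := by
        cases h3 : τ n with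
        | true => rfl
        | false => exact absurd (h1.trans h3.symm) hn
      have e : ‖Φ σ - Φ τ‖ = ‖Φ τ - Φ σ‖ := norm_sub_rev (Φ σ) (Φ τ)
      exact lt_of_lt_of_eq (hsep0 τ σ n (fun i hi => (hlt i hi).symm) h2 h1) e.symm
  apply not_countable_branches
  refine Set.PairwiseDisjoint.countable_of_isOpen (s := fun σ => Metric.ball (Φ σ) (ε / 4)) ?_ ?_ ?_
  · intro σ _ τ _ hne
    apply Metric.ball_disjoint_ball
    have e : dist (Φ σ) (Φ τ) = ‖Φ σ - Φ τ‖ := dist_eq_norm (Φ σ) (Φ τ)
    have := hsep σ τ hne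
    have h2 : ε / 4 + ε / 4 ≤ ‖Φ σ - Φ τ‖ := by linarith
    exact le_of_le_of_eq h2 e.symm
  · intro σ _
    exact Metric.isOpen_ball
  · intro σ _
    exact ⟨Φ σ, Metric.mem_ball_self (by positivity)⟩

end Pool.ASP
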