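import Pool.Agent.ASP.MainJ
import Pool.Agent.ASP.FragA
import Pool.Agent.ASP.Der

set_option autoImplicit false

open MeasureTheory Set Filter Topology

namespace Pool.ASP

theorem final (E : Type) [NormedAddCommGroup E] [NormedSpace ℝ E]
    (h : ∀ F : Submodule ℝ E, TopologicalSpace.IsSeparable (F : Set E) →
          TopologicalSpace.SeparableSpace (F →L[ℝ] ℝ)) :
    ∃ f : E → ℝ, ContDiff ℝ 1 f ∧ (∃ x, f x ≠ 0) ∧
        Bornology.IsBounded (Function.support f) := by
  obtain ⟨P, B, hB⟩ := exists_sys (frag_of_asplund h)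
  obtain ⟨F, hF⟩ := exists_C1 P
  have hc := F.close B (1 / 10) (by norm_num) (by norm_num)
  refine ⟨fun x => Real.smoothTransition (2 - F.N B (1 / 10) x), ?_, ⟨0, ?_⟩, ?_⟩
  · exact (Real.smoothTransition.contDiff (n := 1)).comp
      (contDiff_const.sub (hF B (1 / 10) (by norm_num) (by norm_num)))
  · have h0 := hc 0
    rw [hB, norm_zero, abs_le] at h0
    have h1 : Real.smoothTransition (2 - F.N B (1 / 10) 0) = 1 :=
      Real.smoothTransition.one_of_one_le (by linarith [h0.2])
    simp only
    rw [h1]
    exact one_ne_zero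
  · refine (Metric.isBounded_ball (x := (0 : E)) (r := 3)).subset ?_
    intro x hx
    rw [Function.mem_support] at hx
    rw [mem_ball_zero_iff]
    by_contra hcon
    apply hx
    have h0 := hc x
    rw [hB, abs_le] at h0
    exact Real.smoothTransition.zero_of_nonpos (by linarith [h0.1, not_lt.mp hcon])

end Pool.ASP
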