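import Pool.Agent.ASP.Contr

set_option autoImplicit false

open MeasureTheory Set Filter Topology

namespace Pool.ASP

variable {E : Type} [NormedAddCommGroup E] [NormedSpace ℝ E]

/-- the starting family: the support functions themselves -/
noncomputable def Fam0 (P : Sys E) : Fam P where
  N := fun B _ x => P.h B x
  close := fun B a ha _ x => by
    rw [sub_self, abs_zero]; positivity
  lip := fun B a _ _ x y => (P.h_lip B x y).trans (by linarith [norm_nonneg (x - y)])

/-- the iterates of the operator -/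
noncomputable def FIt (P : Sys E) : ℕ → Fam P
  | 0 => Fam0 P
  | n + 1 => TFam (FIt P n)

theorem FIt_succ_N (P : Sys E) (n : ℕ) : (FIt P (n + 1)).N = TN P (FIt P n).N := rfl

/-- consecutive iterates are close -/
theorem FIt_step (P : Sys E) (n : ℕ) : ∀ B a, 0 < a → a ≤ 1 → ∀ x,
    |(FIt P (n + 1)).N B a x - (FIt P n).N B a x| ≤ (3 / 2 ^ n) * a := by
  induction n with
  | zero =>
    intro B a ha ha1 x
    have := (FIt P 1).close B a ha ha1 x
    simpa [FIt, Fam0] using this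
  | succ n ih =>
    intro B a ha ha1 x
    have h := con_TN (FIt P (n + 1)) (FIt P n) (3 / 2 ^ n) ih B a ha ha1 x
    rw [FIt_succ_N P (n + 1)]
    rw [FIt_succ_N P n] at h ⊢
    calc _ ≤ 3 / 2 ^ n * a / 2 := h
      _ = 3 / 2 ^ (n + 1) * a := by rw [pow_succ]; ring

theorem FIt_dist (P : Sys E) (B : P.K) {a : ℝ} (ha : 0 < a) (ha1 : a ≤ 1) (x : E) (n : ℕ) :
    dist ((FIt P n).N B a x) ((FIt P (n + 1)).N B a x) ≤ (6 * a) / 2 / 2 ^ n := by
  rw [dist_comm, Real.dist_eq]
  calc _ ≤ (3 / 2 ^ n) * a := FIt_step P n B a ha ha1 x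
    _ = (6 * a) / 2 / 2 ^ n := by ring

theorem FIt_cauchy (P : Sys E) (B : P.K) {a : ℝ} (ha : 0 < a) (ha1 : a ≤ 1) (x : E) :
    CauchySeq (fun n => (FIt P n).N B a x) :=
  cauchySeq_of_le_geometric_two (C := 6 * a) (fun n => FIt_dist P B ha ha1 x n)

open Classical in
/-- the limit of the iterates -/
noncomputable def NLim (P : Sys E) : P.K → ℝ → E → ℝ :=
  fun B a x => limUnder atTop (fun n => (FIt P n).N B a x)

theorem NLim_tendsto (P : Sys E) (B : P.K) {a : ℝ} (ha : 0 < a) (ha1 : a ≤ 1) (x : E) :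
    Tendsto (fun n => (FIt P n).N B a x) atTop (𝓝 (NLim P B a x)) :=
  (FIt_cauchy P B ha ha1 x).tendsto_limUnder

theorem NLim_dist (P : Sys E) (B : P.K) {a : ℝ} (ha : 0 < a) (ha1 : a ≤ 1) (x : E) (n : ℕ) :
    |NLim P B a x - (FIt P n).N B a x| ≤ (6 / 2 ^ n) * a := by
  have h := dist_le_of_le_geometric_two_of_tendsto (C := 6 * a)
    (fun n => FIt_dist P B ha ha1 x n) (NLim_tendsto P B ha ha1 x) n
  rw [dist_comm, Real.dist_eq] at h
  calc _ ≤ (6 * a) / 2 ^ n := h
    _ = (6 / 2 ^ n) * a := by ring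

/-- the limit family -/
noncomputable def FLim (P : Sys E) : Fam P where
  N := NLim P
  close := fun B a ha ha1 x =>
    le_of_tendsto' (((NLim_tendsto P B ha ha1 x).sub_const _).abs)
      (fun n => (FIt P n).close B a ha ha1 x)
  lip := fun B a ha ha1 x y =>
    le_of_tendsto' (((NLim_tendsto P B ha ha1 x).sub (NLim_tendsto P B ha ha1 y)).abs)
      (fun n => (FIt P n).lip B a ha ha1 x y)

theorem exists_fixed (P : Sys E) :
    ∃ F : Fam P, ∀ B a, 0 < a → a ≤ 1 → ∀ x, TN P F.N B a x = F.N B a x := by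
  refine ⟨FLim P, fun B a ha ha1 x => ?_⟩
  -- `T N_n → T N` and `T N_n = N_{n+1} → N`
  have h1 : Tendsto (fun n => (FIt P (n + 1)).N B a x) atTop (𝓝 (NLim P B a x)) :=
    (NLim_tendsto P B ha ha1 x).comp (tendsto_add_atTop_nat 1)
  have h2 : Tendsto (fun n => (FIt P (n + 1)).N B a x) atTop (𝓝 (TN P (FLim P).N B a x)) := by
    rw [tendsto_iff_dist_tendsto_zero]
    have hb : ∀ n, dist ((FIt P (n + 1)).N B a x) (TN P (FLim P).N B a x)
        ≤ (3 * a) * (1 / 2) ^ n := by
      intro n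
      have h := con_TN (FLim P) (FIt P n) (6 / 2 ^ n)
        (fun B a ha ha1 x => NLim_dist P B ha ha1 x n) B a ha ha1 x
      rw [dist_comm, Real.dist_eq, FIt_succ_N]
      calc _ ≤ 6 / 2 ^ n * a / 2 := h
        _ = (3 * a) * (1 / 2) ^ n := by rw [one_div, inv_pow]; ring
    refine squeeze_zero (fun n => dist_nonneg) hb ?_
    have := (tendsto_pow_atTop_nhds_zero_of_lt_one (r := (1 / 2 : ℝ)) (by norm_num)
      (by norm_num)).const_mul (3 * a)
    simpa using this
  exact tendsto_nhds_unique h2 h1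

end Pool.ASP
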