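import Pool.Agent.ASP.Defs

set_option autoImplicit false

open MeasureTheory Set Filter Topology

namespace Pool.ASP

variable {E : Type} [NormedAddCommGroup E] [NormedSpace ℝ E] (P : Sys E) (B : P.K)

/-- the values of the support functions at `x` -/
def HS (x : E) : Set ℝ := {u | ∃ β, P.h (P.S B β) x = u}

theorem HS_le {x : E} {u : ℝ} (hu : u ∈ HS P B x) : u ≤ P.h B x := by
  obtain ⟨β, rfl⟩ := hu
  have h1 := P.S_anti B 0 β x (zero_le)
  rw [P.S_zero] at h1
  exact h1

theorem HS_pick {x : E} {u : ℝ} (hu : u ∈ HS P B x) (h0 : 0 < u) :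
    ∃ q : ℚ, (q : ℝ) < u ∧ ∀ v ∈ HS P B x, v < u → v < (q : ℝ) := by
  obtain ⟨α, h1, h2⟩ := P.sel B x u h0 (HS_le P B hu)
  obtain ⟨q, hq1, hq2⟩ := exists_rat_btwn h1
  refine ⟨q, hq2, ?_⟩
  rintro v ⟨β, rfl⟩ hv
  rcases lt_or_ge α β with h | h
  · have := P.S_anti B (Order.succ α) β x (Order.succ_le_of_lt h)
    exact lt_of_le_of_lt this hq1
  · have := P.S_anti B β α x h
    linarith

theorem HS_countable (x : E) : (HS P B x).Countable := by
  classical
  have key : (HS P B x ∩ Set.Ioi 0).Countable := by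
    let q : ℝ → ℚ := fun u =>
      if hu : u ∈ HS P B x ∧ 0 < u then (HS_pick P B hu.1 hu.2).choose else 0
    have hq : ∀ u ∈ HS P B x ∩ Set.Ioi 0, (q u : ℝ) < u ∧
        ∀ v ∈ HS P B x, v < u → v < (q u : ℝ) := by
      rintro u ⟨hu, hu0⟩
      have hu' : u ∈ HS P B x ∧ 0 < u := ⟨hu, hu0⟩
      have : q u = (HS_pick P B hu'.1 hu'.2).choose := dif_pos hu'
      rw [this]
      exact (HS_pick P B hu'.1 hu'.2).choose_spec
    have hinj : Set.InjOn q (HS P B x ∩ Set.Ioi 0) := by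
      intro u hu v hv huv
      rcases lt_trichotomy u v with h | h | h
      · exfalso
        have h1 := (hq v hv).2 u hu.1 h
        have h2 := (hq u hu).1
        rw [huv] at h2
        linarith
      · exact h
      · exfalso
        have h1 := (hq u hu).2 v hv.1 h
        have h2 := (hq v hv).1
        rw [← huv] at h2
        linarith
    exact Set.MapsTo.countable_of_injOn (t := Set.univ) (fun _ _ => Set.mem_univ _) hinj
      Set.countable_univ
  refine Set.Countable.mono (s₂ := insert 0 (HS P B x ∩ Set.Ioi 0)) ?_ (key.insert 0)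
  intro u hu
  obtain ⟨β, hβ⟩ := id hu
  have h0 := P.h_nonneg (P.S B β) x
  rw [hβ] at h0
  rcases h0.lt_or_eq with h | h
  · exact Or.inr ⟨hu, h⟩
  · exact Or.inl h.symm

theorem exists_gap {x : E} {u : ℝ} (hu : 0 < u) (hu1 : u ≤ P.h B x) (hn : u ∉ HS P B x) :
    ∃ β, Gap P B β x u := by
  obtain ⟨α, h1, h2⟩ := P.sel B x u hu hu1
  refine ⟨α, h1, lt_of_le_of_ne h2 ?_⟩
  intro h
  exact hn ⟨α, h.symm⟩

end Pool.ASP
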