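import Mathlib

open Filter Topology Set MeasureTheory

namespace Pool.Agent.ASP

set_option linter.unusedSectionVars false

variable {X : Type*} [NormedAddCommGroup X] [NormedSpace ℝ X]

/-- The local non-smoothness of `φ` at `x0` is at most `b`. -/
def JLe (φ : X → ℝ) (x0 : X) (b : ℝ) : Prop :=
  ∀ e > 0, ∃ r > 0, ∀ y y' h : X, ‖y - x0‖ < r → ‖y' - x0‖ < r → ‖h‖ < r →
    |φ (y + h) - φ y - φ (y' + h) + φ y'| ≤ (b + e) * ‖h‖

/-- `φ` is `L`-Lipschitz near `x0`. -/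
def LipNear (φ : X → ℝ) (x0 : X) (L : ℝ) : Prop :=
  ∃ r > 0, ∀ y y' : X, ‖y - x0‖ < r → ‖y' - x0‖ < r → |φ y - φ y'| ≤ L * ‖y - y'‖

theorem JLe.mono {φ : X → ℝ} {x0 : X} {b b' : ℝ} (h : JLe φ x0 b) (hb : b ≤ b') :
    JLe φ x0 b' := by
  intro e he
  obtain ⟨r, hr, H⟩ := h e he
  refine ⟨r, hr, fun y y' k h1 h2 h3 => (H y y' k h1 h2 h3).trans ?_⟩
  have := norm_nonneg k
  nlinarith

theorem JLe.congr {φ ψ : X → ℝ} {x0 : X} {b : ℝ} (h : JLe φ x0 b) {r : ℝ} (hr : 0 < r)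
    (hφ : ∀ y, ‖y - x0‖ < r → ψ y = φ y) : JLe ψ x0 b := by
  intro e he
  obtain ⟨s, hs, H⟩ := h e he
  refine ⟨min s (r / 2), by positivity, fun y y' k h1 h2 h3 => ?_⟩
  have a1 := lt_of_lt_of_le h1 (min_le_left _ _)
  have a2 := lt_of_lt_of_le h2 (min_le_left _ _)
  have a3 := lt_of_lt_of_le h3 (min_le_left _ _)
  have b1 := lt_of_lt_of_le h1 (min_le_right _ _)
  have b2 := lt_of_lt_of_le h2 (min_le_right _ _)
  have b3 := lt_of_lt_of_le h3 (min_le_right _ _)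
  have c1 : ‖y + k - x0‖ < r := by
    calc ‖y + k - x0‖ = ‖(y - x0) + k‖ := by congr 1; abel
      _ ≤ ‖y - x0‖ + ‖k‖ := norm_add_le _ _
      _ < r := by linarith
  have c2 : ‖y' + k - x0‖ < r := by
    calc ‖y' + k - x0‖ = ‖(y' - x0) + k‖ := by congr 1; abel
      _ ≤ ‖y' - x0‖ + ‖k‖ := norm_add_le _ _
      _ < r := by linarith
  rw [hφ _ c1, hφ _ c2, hφ y (by linarith), hφ y' (by linarith)]
  exact H y y' k a1 a2 a3

theorem jle_const (c : ℝ) (x0 : X) : JLe (fun _ => c) x0 0 := by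
  intro e he
  refine ⟨1, one_pos, fun y y' k _ _ _ => ?_⟩
  have := norm_nonneg k
  simp only [sub_self, zero_sub, zero_add]
  rw [neg_add_cancel, abs_zero]
  positivity

theorem jle_linear (f : X →L[ℝ] ℝ) (x0 : X) : JLe (fun x => f x) x0 0 := by
  intro e he
  refine ⟨1, one_pos, fun y y' k _ _ _ => ?_⟩
  have := norm_nonneg k
  have h0 : f (y + k) - f y - f (y' + k) + f y' = 0 := by
    rw [map_add, map_add]; ring
  rw [h0, abs_zero]
  positivity

theorem JLe.add {φ ψ : X → ℝ} {x0 : X} {b c : ℝ} (h : JLe φ x0 b) (h' : JLe ψ x0 c) :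
    JLe (fun x => φ x + ψ x) x0 (b + c) := by
  intro e he
  obtain ⟨r, hr, H⟩ := h (e / 2) (by positivity)
  obtain ⟨s, hs, H'⟩ := h' (e / 2) (by positivity)
  refine ⟨min r s, by positivity, fun y y' k h1 h2 h3 => ?_⟩
  have q1 := H y y' k (lt_of_lt_of_le h1 (min_le_left _ _)) (lt_of_lt_of_le h2 (min_le_left _ _))
    (lt_of_lt_of_le h3 (min_le_left _ _))
  have q2 := H' y y' k (lt_of_lt_of_le h1 (min_le_right _ _))
    (lt_of_lt_of_le h2 (min_le_right _ _)) (lt_of_lt_of_le h3 (min_le_right _ _))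
  have e1 : φ (y + k) + ψ (y + k) - (φ y + ψ y) - (φ (y' + k) + ψ (y' + k)) + (φ y' + ψ y') =
      (φ (y + k) - φ y - φ (y' + k) + φ y') + (ψ (y + k) - ψ y - ψ (y' + k) + ψ y') := by ring
  rw [e1]
  refine (abs_add_le _ _).trans ?_
  nlinarith

theorem JLe.const_mul {φ : X → ℝ} {x0 : X} {b : ℝ} (h : JLe φ x0 b) (c : ℝ) :
    JLe (fun x => c * φ x) x0 (|c| * b) := by
  intro e he
  obtain ⟨r, hr, H⟩ := h (e / (|c| + 1)) (by positivity)
  refine ⟨r, hr, fun y y' k h1 h2 h3 => ?_⟩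
  have q1 := H y y' k h1 h2 h3
  have e1 : c * φ (y + k) - c * φ y - c * φ (y' + k) + c * φ y' =
      c * (φ (y + k) - φ y - φ (y' + k) + φ y') := by ring
  rw [e1, abs_mul]
  have hk := norm_nonneg k
  have hc := abs_nonneg c
  calc |c| * |φ (y + k) - φ y - φ (y' + k) + φ y'| ≤ |c| * ((b + e / (|c| + 1)) * ‖k‖) := by
        gcongr
    _ = (|c| * b + |c| * (e / (|c| + 1))) * ‖k‖ := by ring
    _ ≤ (|c| * b + e) * ‖k‖ := by
        gcongr
        rw [mul_div_assoc', div_le_iff₀ (by positivity)]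
        nlinarith

theorem JLe.neg {φ : X → ℝ} {x0 : X} {b : ℝ} (h : JLe φ x0 b) :
    JLe (fun x => - φ x) x0 b := by
  have := h.const_mul (-1)
  simp only [abs_neg, abs_one, one_mul, neg_mul] at this
  exact this

theorem JLe.sub {φ ψ : X → ℝ} {x0 : X} {b c : ℝ} (h : JLe φ x0 b) (h' : JLe ψ x0 c) :
    JLe (fun x => φ x - ψ x) x0 (b + c) := by
  have := h.add h'.neg
  simpa only [sub_eq_add_neg] using this

theorem LipNear.jle {φ : X → ℝ} {x0 : X} {L : ℝ} (h : LipNear φ x0 L) :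
    JLe φ x0 (2 * L) := by
  intro e he
  obtain ⟨r, hr, H⟩ := h
  refine ⟨r / 2, by positivity, fun y y' k h1 h2 h3 => ?_⟩
  have c1 : ‖y + k - x0‖ < r := by
    calc ‖y + k - x0‖ = ‖(y - x0) + k‖ := by congr 1; abel
      _ ≤ ‖y - x0‖ + ‖k‖ := norm_add_le _ _
      _ < r := by linarith
  have c2 : ‖y' + k - x0‖ < r := by
    calc ‖y' + k - x0‖ = ‖(y' - x0) + k‖ := by congr 1; abel
      _ ≤ ‖y' - x0‖ + ‖k‖ := norm_add_le _ _
      _ < r := by linarith
  have q1 := H (y + k) y c1 (by linarith)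
  have q2 := H (y' + k) y' c2 (by linarith)
  rw [add_sub_cancel_left] at q1 q2
  have e1 : φ (y + k) - φ y - φ (y' + k) + φ y' =
      (φ (y + k) - φ y) - (φ (y' + k) - φ y') := by ring
  rw [e1]
  have hk := norm_nonneg k
  have := abs_sub (φ (y + k) - φ y) (φ (y' + k) - φ y')
  nlinarith

theorem LipNear.mono {φ : X → ℝ} {x0 : X} {L L' : ℝ} (h : LipNear φ x0 L) (hL : L ≤ L') :
    LipNear φ x0 L' := by
  obtain ⟨r, hr, H⟩ := h
  refine ⟨r, hr, fun y y' h1 h2 => (H y y' h1 h2).trans ?_⟩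
  have := norm_nonneg (y - y')
  nlinarith

theorem norm_add_sub_lt {y k x0 : X} {r : ℝ} (h1 : ‖y - x0‖ < r / 2) (h3 : ‖k‖ < r / 2) :
    ‖y + k - x0‖ < r := by
  calc ‖y + k - x0‖ = ‖(y - x0) + k‖ := by congr 1; abel
    _ ≤ ‖y - x0‖ + ‖k‖ := norm_add_le _ _
    _ < r := by linarith

/-- A function Lipschitz near `x0` is continuous at `x0`, quantitative form. -/
theorem LipNear.close {φ : X → ℝ} {x0 : X} {L : ℝ} (h : LipNear φ x0 L) {e : ℝ} (he : 0 < e) :
    ∃ r > 0, ∀ y, ‖y - x0‖ < r → |φ y - φ x0| < e := by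
  obtain ⟨r, hr, H⟩ := h
  refine ⟨min r (e / (|L| + 1)), by positivity, fun y hy => ?_⟩
  have h1 := lt_of_lt_of_le hy (min_le_left _ _)
  have h2 := lt_of_lt_of_le hy (min_le_right _ _)
  have q := H y x0 h1 (by simpa using hr)
  have hn := norm_nonneg (y - x0)
  have hL := le_abs_self L
  have hL0 := abs_nonneg L
  rw [lt_div_iff₀ (by positivity)] at h2
  nlinarith

/-- Composition with a `C¹` function of one variable. -/
theorem JLe.comp {φ : X → ℝ} {x0 : X} {b L m : ℝ} (h : JLe φ x0 b) (hφ : LipNear φ x0 L)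
    {θ : ℝ → ℝ} (hθ : ContDiff ℝ 1 θ) (hm : |deriv θ (φ x0)| ≤ m) :
    JLe (fun x => θ (φ x)) x0 (m * b) := by
  intro e he
  have hm0 : 0 ≤ m := (abs_nonneg _).trans hm
  set D := deriv θ (φ x0) with hD
  obtain ⟨r1, hr1, H1⟩ := h (e / (2 * (m + 1))) (by positivity)
  obtain ⟨r2, hr2, H2⟩ := id hφ
  have hst : HasStrictDerivAt θ D (φ x0) :=
    (hθ.contDiffAt).hasStrictDerivAt one_ne_zero
  set c := e / (4 * (|L| + 1)) with hc
  have hc0 : 0 < c := by positivity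
  have hst' : ∀ᶠ p : ℝ × ℝ in 𝓝 (φ x0, φ x0), |θ p.1 - θ p.2 - D * (p.1 - p.2)| ≤
      c * |p.1 - p.2| := by
    have := hst.hasStrictFDerivAt.isLittleO.def hc0
    filter_upwards [this] with p hp
    simpa [mul_comm] using hp
  obtain ⟨ε, hε, Hε⟩ := Metric.eventually_nhds_iff.1 hst'
  obtain ⟨r3, hr3, H3⟩ := hφ.close hε
  refine ⟨min r1 (min (r2 / 2) (r3 / 2)), by positivity, fun y y' k h1 h2 h3 => ?_⟩
  have a1 := lt_of_lt_of_le h1 (min_le_left _ _)
  have a2 := lt_of_lt_of_le h2 (min_le_left _ _)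
  have a3 := lt_of_lt_of_le h3 (min_le_left _ _)
  have b1 := lt_of_lt_of_le h1 ((min_le_right _ _).trans (min_le_left _ _))
  have b2 := lt_of_lt_of_le h2 ((min_le_right _ _).trans (min_le_left _ _))
  have b3 := lt_of_lt_of_le h3 ((min_le_right _ _).trans (min_le_left _ _))
  have c1 := lt_of_lt_of_le h1 ((min_le_right _ _).trans (min_le_right _ _))
  have c2 := lt_of_lt_of_le h2 ((min_le_right _ _).trans (min_le_right _ _))
  have c3 := lt_of_lt_of_le h3 ((min_le_right _ _).trans (min_le_right _ _))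
  have key : ∀ z : X, ‖z - x0‖ < r2 / 2 → ‖z - x0‖ < r3 / 2 →
      |θ (φ (z + k)) - θ (φ z) - D * (φ (z + k) - φ z)| ≤ e / 4 * ‖k‖ := by
    intro z hz hz'
    have q1 : |φ (z + k) - φ x0| < ε := H3 _ (norm_add_sub_lt hz' c3)
    have q2 : |φ z - φ x0| < ε := H3 _ (by linarith)
    have q3 := @Hε (φ (z + k), φ z) (by
      rw [Prod.dist_eq]
      exact max_lt (by rw [Real.dist_eq]; exact q1) (by rw [Real.dist_eq]; exact q2))
    refine q3.trans ?_
    have q4 := H2 (z + k) z (norm_add_sub_lt hz b3) (by linarith)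
    rw [add_sub_cancel_left] at q4
    have hk := norm_nonneg k
    have hL := le_abs_self L
    calc c * |φ (z + k) - φ z| ≤ c * (L * ‖k‖) := by gcongr
      _ ≤ c * ((|L| + 1) * ‖k‖) := by gcongr; linarith
      _ = e / 4 * ‖k‖ := by rw [hc]; field_simp
  have k1 := key y b1 c1
  have k2 := key y' b2 c2
  have q := H1 y y' k a1 a2 a3
  have e1 : θ (φ (y + k)) - θ (φ y) - θ (φ (y' + k)) + θ (φ y') =
      D * (φ (y + k) - φ y - φ (y' + k) + φ y') +
      (θ (φ (y + k)) - θ (φ y) - D * (φ (y + k) - φ y)) -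
      (θ (φ (y' + k)) - θ (φ y') - D * (φ (y' + k) - φ y')) := by ring
  rw [e1]
  have hk := norm_nonneg k
  have q5 : |D * (φ (y + k) - φ y - φ (y' + k) + φ y')| ≤ (m * b + e / 2) * ‖k‖ := by
    rw [abs_mul]
    calc |D| * |φ (y + k) - φ y - φ (y' + k) + φ y'|
        ≤ m * ((b + e / (2 * (m + 1))) * ‖k‖) := by gcongr
      _ = (m * b + m * (e / (2 * (m + 1)))) * ‖k‖ := by ring
      _ ≤ (m * b + e / 2) * ‖k‖ := by
        gcongr
        rw [mul_div_assoc', div_le_div_iff₀ (by positivity) (by positivity)]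
        nlinarith
  have t1 := abs_sub (D * (φ (y + k) - φ y - φ (y' + k) + φ y') +
      (θ (φ (y + k)) - θ (φ y) - D * (φ (y + k) - φ y)))
      (θ (φ (y' + k)) - θ (φ y') - D * (φ (y' + k) - φ y'))
  have t2 := abs_add_le (D * (φ (y + k) - φ y - φ (y' + k) + φ y'))
      (θ (φ (y + k)) - θ (φ y) - D * (φ (y + k) - φ y))
  nlinarith

/-- Products. -/
theorem JLe.mul {φ ψ : X → ℝ} {x0 : X} {b c L L' A B : ℝ} (h : JLe φ x0 b) (h' : JLe ψ x0 c)
    (hφ : LipNear φ x0 L) (hψ : LipNear ψ x0 L') (hA : |φ x0| ≤ A) (hB : |ψ x0| ≤ B) :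
    JLe (fun x => φ x * ψ x) x0 (A * c + B * b) := by
  intro e he
  have hA0 : 0 ≤ A := (abs_nonneg _).trans hA
  have hB0 : 0 ≤ B := (abs_nonneg _).trans hB
  obtain ⟨r1, hr1, H1⟩ := h (e / (6 * (B + 1))) (by positivity)
  obtain ⟨r2, hr2, H2⟩ := h' (e / (6 * (A + 1))) (by positivity)
  obtain ⟨r3, hr3, H3⟩ := id hφ
  obtain ⟨r4, hr4, H4⟩ := id hψ
  set M := |L| + |L'| + 1 with hM
  have hM0 : 0 < M := by positivity
  obtain ⟨r5, hr5, H5⟩ := hφ.close (e := e / (6 * M)) (by positivity)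
  obtain ⟨r6, hr6, H6⟩ := hψ.close (e := e / (6 * M)) (by positivity)
  set r := min (min r1 r2) (min (min r3 r4) (min r5 r6)) with hr
  have hr0 : 0 < r := by positivity
  have l1 : r ≤ r1 := (min_le_left _ _).trans (min_le_left _ _)
  have l2 : r ≤ r2 := (min_le_left _ _).trans (min_le_right _ _)
  have l3 : r ≤ r3 := (min_le_right _ _).trans ((min_le_left _ _).trans (min_le_left _ _))
  have l4 : r ≤ r4 := (min_le_right _ _).trans ((min_le_left _ _).trans (min_le_right _ _))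
  have l5 : r ≤ r5 := (min_le_right _ _).trans ((min_le_right _ _).trans (min_le_left _ _))
  have l6 : r ≤ r6 := (min_le_right _ _).trans ((min_le_right _ _).trans (min_le_right _ _))
  refine ⟨r / 2, by positivity, fun y y' k h1 h2 h3 => ?_⟩
  have y1 := norm_add_sub_lt h1 h3
  have y2 := norm_add_sub_lt h2 h3
  have hk := norm_nonneg k
  -- writing the double difference at the base point
  have q1 := H1 y y' k (by linarith) (by linarith) (by linarith)
  have q2 := H2 y y' k (by linarith) (by linarith) (by linarith)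
  have key : ∀ z : X, ‖z - x0‖ < r / 2 →
      |φ (z + k) * ψ (z + k) - φ z * ψ z - φ x0 * (ψ (z + k) - ψ z) -
        ψ x0 * (φ (z + k) - φ z)| ≤ e / 3 * ‖k‖ := by
    intro z hz
    have z1 := norm_add_sub_lt hz h3
    have s1 := H3 (z + k) z (by linarith) (by linarith)
    have s2 := H4 (z + k) z (by linarith) (by linarith)
    rw [add_sub_cancel_left] at s1 s2
    have s3 := H5 (z + k) (by linarith)
    have s4 := H6 z (by linarith)
    have e1 : φ (z + k) * ψ (z + k) - φ z * ψ z - φ x0 * (ψ (z + k) - ψ z) -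
        ψ x0 * (φ (z + k) - φ z) =
        (φ (z + k) - φ x0) * (ψ (z + k) - ψ z) + (ψ z - ψ x0) * (φ (z + k) - φ z) := by ring
    rw [e1]
    have m1 : |φ (z + k) - φ z| ≤ M * ‖k‖ := s1.trans (by
      have := le_abs_self L
      have := abs_nonneg L'
      gcongr; linarith)
    have m2 : |ψ (z + k) - ψ z| ≤ M * ‖k‖ := s2.trans (by
      have := le_abs_self L'
      have := abs_nonneg L
      gcongr; linarith)
    refine (abs_add_le _ _).trans ?_
    rw [abs_mul, abs_mul]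
    calc |φ (z + k) - φ x0| * |ψ (z + k) - ψ z| + |ψ z - ψ x0| * |φ (z + k) - φ z|
        ≤ e / (6 * M) * (M * ‖k‖) + e / (6 * M) * (M * ‖k‖) := by gcongr
      _ = e / 3 * ‖k‖ := by field_simp; ring
  have k1 := key y h1
  have k2 := key y' h2
  have e1 : φ (y + k) * ψ (y + k) - φ y * ψ y - φ (y' + k) * ψ (y' + k) + φ y' * ψ y' =
      (φ x0 * (ψ (y + k) - ψ y - ψ (y' + k) + ψ y') +
        ψ x0 * (φ (y + k) - φ y - φ (y' + k) + φ y')) +
      ((φ (y + k) * ψ (y + k) - φ y * ψ y - φ x0 * (ψ (y + k) - ψ y) -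
        ψ x0 * (φ (y + k) - φ y)) -
      (φ (y' + k) * ψ (y' + k) - φ y' * ψ y' - φ x0 * (ψ (y' + k) - ψ y') -
        ψ x0 * (φ (y' + k) - φ y'))) := by ring
  have q3 : |φ x0 * (ψ (y + k) - ψ y - ψ (y' + k) + ψ y')| ≤ (A * c + e / 6) * ‖k‖ := by
    rw [abs_mul]
    calc |φ x0| * |ψ (y + k) - ψ y - ψ (y' + k) + ψ y'|
        ≤ A * ((c + e / (6 * (A + 1))) * ‖k‖) := by gcongr
      _ = (A * c + A * (e / (6 * (A + 1)))) * ‖k‖ := by ring
      _ ≤ (A * c + e / 6) * ‖k‖ := by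
        gcongr
        rw [mul_div_assoc', div_le_div_iff₀ (by positivity) (by positivity)]
        nlinarith
  have q4 : |ψ x0 * (φ (y + k) - φ y - φ (y' + k) + φ y')| ≤ (B * b + e / 6) * ‖k‖ := by
    rw [abs_mul]
    calc |ψ x0| * |φ (y + k) - φ y - φ (y' + k) + φ y'|
        ≤ B * ((b + e / (6 * (B + 1))) * ‖k‖) := by gcongr
      _ = (B * b + B * (e / (6 * (B + 1)))) * ‖k‖ := by ring
      _ ≤ (B * b + e / 6) * ‖k‖ := by
        gcongr
        rw [mul_div_assoc', div_le_div_iff₀ (by positivity) (by positivity)]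
        nlinarith
  rw [e1]
  refine (abs_add_le _ _).trans ?_
  refine (add_le_add (abs_add_le _ _) (abs_sub _ _)).trans ?_
  nlinarith

end Pool.Agent.ASP
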