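import Pool.Agent.ASP.Defs

set_option autoImplicit false

namespace Pool.ASP

open MeasureTheory Set Filter Topology

variable {E : Type} [NormedAddCommGroup E] [NormedSpace ℝ E]

/-- The dyadic difference quotients. -/
noncomputable def Qd (φ : E → ℝ) (x0 h : E) (n : ℕ) : ℝ :=
  2 ^ n * (φ (x0 + (1 / 2 ^ n : ℝ) • h) - φ x0)

theorem Qd_halve {φ : E → ℝ} {x0 : E} {η δ : ℝ} (hη : 0 < η) (hδ : 0 < δ)
    (H : ∀ y y' h : E, dist y x0 < δ → dist y' x0 < δ → ‖h‖ < δ →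
      |φ (y + h) - φ y - φ (y' + h) + φ y'| ≤ η * ‖h‖)
    (h : E) (n k : ℕ) (hn : ‖(1 / 2 ^ n : ℝ) • h‖ < δ) :
    |Qd φ x0 h n - Qd φ x0 h (n + k)| ≤ η * ‖h‖ := by
  -- increments
  set e : E := (1 / 2 ^ (n + k) : ℝ) • h with he
  have hk : (0 : ℝ) < 2 ^ k := by positivity
  have hnk : (0 : ℝ) < 2 ^ (n + k) := by positivity
  have key : ∀ m : ℕ, (m : ℝ) ≤ 2 ^ k →
      |φ (x0 + (m : ℝ) • e) - φ x0 - m * (φ (x0 + e) - φ x0)| ≤ m * (η * ‖e‖) := by
    intro m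
    induction m with
    | zero => intro _; simp
    | succ m ih =>
      intro hm
      have hm' : (m : ℝ) ≤ 2 ^ k := by push_cast at hm; linarith
      have h1 := ih hm'
      have hee : ‖e‖ < δ := by
        have : ‖e‖ ≤ ‖(1 / 2 ^ n : ℝ) • h‖ := by
          rw [he, norm_smul, norm_smul]
          apply mul_le_mul_of_nonneg_right _ (norm_nonneg _)
          rw [Real.norm_of_nonneg (by positivity), Real.norm_of_nonneg (by positivity)]
          apply one_div_le_one_div_of_le (by positivity)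
          exact pow_le_pow_right₀ (by norm_num) (by omega)
        linarith
      have hd : dist (x0 + (m : ℝ) • e) x0 < δ := by
        rw [dist_eq_norm]
        have : x0 + (m : ℝ) • e - x0 = (m : ℝ) • e := by abel
        rw [this]
        have h2 : ‖(m : ℝ) • e‖ ≤ ‖(1 / 2 ^ n : ℝ) • h‖ := by
          rw [he, smul_smul, norm_smul, norm_smul]
          apply mul_le_mul_of_nonneg_right _ (norm_nonneg _)
          rw [Real.norm_of_nonneg (by positivity), Real.norm_of_nonneg (by positivity)]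
          rw [pow_add, mul_one_div, div_le_div_iff₀ (by positivity) (by positivity)]
          have : (0 : ℝ) < 2 ^ n := by positivity
          nlinarith
        linarith
      have h3 := H (x0 + (m : ℝ) • e) x0 e hd (by simpa using hδ) hee
      have h4 : x0 + ((m + 1 : ℕ) : ℝ) • e = x0 + (m : ℝ) • e + e := by
        push_cast; rw [add_smul, one_smul]; abel
      rw [h4]
      push_cast
      have h5 : φ (x0 + (m : ℝ) • e + e) - φ x0 - ((m : ℝ) + 1) * (φ (x0 + e) - φ x0)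
          = (φ (x0 + (m : ℝ) • e + e) - φ (x0 + (m : ℝ) • e) - φ (x0 + e) + φ x0)
            + (φ (x0 + (m : ℝ) • e) - φ x0 - m * (φ (x0 + e) - φ x0)) := by ring
      rw [h5]
      have h6 := abs_add_le (φ (x0 + (m : ℝ) • e + e) - φ (x0 + (m : ℝ) • e) - φ (x0 + e) + φ x0)
        (φ (x0 + (m : ℝ) • e) - φ x0 - m * (φ (x0 + e) - φ x0))
      linarith
  have h7 := key (2 ^ k) (by push_cast; exact le_refl _)
  have h8 : x0 + (((2 ^ k : ℕ) : ℝ)) • e = x0 + (1 / 2 ^ n : ℝ) • h := by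
    rw [he, smul_smul]
    congr 2
    push_cast
    rw [pow_add]
    field_simp
  rw [h8] at h7
  push_cast at h7
  have h9 : Qd φ x0 h n - Qd φ x0 h (n + k)
      = 2 ^ n * (φ (x0 + (1 / 2 ^ n : ℝ) • h) - φ x0 - 2 ^ k * (φ (x0 + e) - φ x0)) := by
    unfold Qd
    rw [he, pow_add]
    ring
  rw [h9, abs_mul, abs_of_pos (by positivity : (0 : ℝ) < 2 ^ n)]
  have h10 : ‖e‖ = (1 / 2 ^ (n + k)) * ‖h‖ := by
    rw [he, norm_smul, Real.norm_of_nonneg (by positivity)]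
  rw [h10] at h7
  calc 2 ^ n * |φ (x0 + (1 / 2 ^ n : ℝ) • h) - φ x0 - 2 ^ k * (φ (x0 + e) - φ x0)|
      ≤ 2 ^ n * (2 ^ k * (η * (1 / 2 ^ (n + k) * ‖h‖))) :=
        mul_le_mul_of_nonneg_left h7 (by positivity)
    _ = η * ‖h‖ := by
        rw [pow_add]; field_simp

theorem Qd_bound {φ : E → ℝ} {L : ℝ} (hL : ∀ y z : E, |φ y - φ z| ≤ L * ‖y - z‖) (x0 h : E) (n : ℕ) :
    |Qd φ x0 h n| ≤ L * ‖h‖ := by
  unfold Qd
  rw [abs_mul, abs_of_pos (by positivity : (0 : ℝ) < 2 ^ n)]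
  have h1 := hL (x0 + (1 / 2 ^ n : ℝ) • h) x0
  have h2 : x0 + (1 / 2 ^ n : ℝ) • h - x0 = (1 / 2 ^ n : ℝ) • h := by abel
  rw [h2, norm_smul, Real.norm_of_nonneg (by positivity)] at h1
  calc 2 ^ n * |φ (x0 + (1 / 2 ^ n : ℝ) • h) - φ x0|
      ≤ 2 ^ n * (L * (1 / 2 ^ n * ‖h‖)) := mul_le_mul_of_nonneg_left h1 (by positivity)
    _ = L * ‖h‖ := by field_simp

theorem small_scale (h : E) {δ : ℝ} (hδ : 0 < δ) :
    ∃ n0 : ℕ, ∀ n, n0 ≤ n → ‖(1 / 2 ^ n : ℝ) • h‖ < δ := by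
  obtain ⟨n0, hn0⟩ := exists_pow_lt_of_lt_one (y := (1 / 2 : ℝ)) (x := δ / (‖h‖ + 1))
    (by positivity) (by norm_num)
  refine ⟨n0, fun n hn => ?_⟩
  have h1 : (1 / 2 : ℝ) ^ n ≤ (1 / 2) ^ n0 := pow_le_pow_of_le_one (by norm_num) (by norm_num) hn
  have h2 : (1 / 2 ^ n : ℝ) = (1 / 2) ^ n := by rw [one_div_pow]
  rw [norm_smul, h2, Real.norm_of_nonneg (by positivity)]
  have h3 : (1 / 2 : ℝ) ^ n * (‖h‖ + 1) < δ := by
    have : (1 / 2 : ℝ) ^ n < δ / (‖h‖ + 1) := lt_of_le_of_lt h1 hn0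
    rwa [lt_div_iff₀ (by positivity)] at this
  have h4 : (0 : ℝ) ≤ (1 / 2) ^ n := by positivity
  nlinarith

omit [NormedSpace ℝ E] in
theorem JB_zero_dist {φ : E → ℝ} {x0 : E} (hJ : JB φ x0 0) (η : ℝ) (hη : 0 < η) :
    ∃ δ : ℝ, 0 < δ ∧ ∀ y y' h : E, dist y x0 < δ → dist y' x0 < δ → ‖h‖ < δ →
      |φ (y + h) - φ y - φ (y' + h) + φ y'| ≤ η * ‖h‖ := by
  obtain ⟨r, hr, H⟩ := hJ η hη
  refine ⟨r, hr, fun y y' h a b c => H y y' h ?_ ?_ c⟩
  · rwa [← dist_eq_norm]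
  · rwa [← dist_eq_norm]

/-- If the non-smoothness vanishes at `x0`, there is a strict derivative at `x0`. -/
theorem strict_of_JB {φ : E → ℝ} {L : ℝ} (hL : ∀ y z : E, |φ y - φ z| ≤ L * ‖y - z‖) {x0 : E}
    (hJ : JB φ x0 0) :
    ∃ D : E →L[ℝ] ℝ, ∀ η : ℝ, 0 < η → ∃ δ : ℝ, 0 < δ ∧ ∀ y h : E, dist y x0 < δ → ‖h‖ < δ →
      |φ (y + h) - φ y - D h| ≤ η * ‖h‖ := by
  have hcau : ∀ h : E, CauchySeq (Qd φ x0 h) := by
    intro h
    rw [Metric.cauchySeq_iff']
    intro ε hε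
    obtain ⟨δ, hδ, H⟩ := JB_zero_dist hJ (ε / (2 * (‖h‖ + 1))) (by positivity)
    obtain ⟨n0, hn0⟩ := small_scale h hδ
    refine ⟨n0, fun n hn => ?_⟩
    obtain ⟨k, rfl⟩ := Nat.exists_eq_add_of_le hn
    have := Qd_halve (φ := φ) (x0 := x0) (η := ε / (2 * (‖h‖ + 1))) (δ := δ) (by positivity) hδ
      H h n0 k (hn0 n0 le_rfl)
    rw [dist_comm, Real.dist_eq]
    refine lt_of_le_of_lt this ?_
    rw [div_mul_eq_mul_div, div_lt_iff₀ (by positivity)]
    nlinarith [norm_nonneg h]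
  choose D0 hD0 using fun h => cauchySeq_tendsto_of_complete (hcau h)
  -- the limit is close to the quotients
  have hclose : ∀ η : ℝ, 0 < η → ∃ δ : ℝ, 0 < δ ∧ ∀ y h : E, dist y x0 < δ → ‖h‖ < δ →
      |φ (y + h) - φ y - D0 h| ≤ η * ‖h‖ := by
    intro η hη
    obtain ⟨δ, hδ, H⟩ := JB_zero_dist hJ (η / 2) (by positivity)
    refine ⟨δ, hδ, fun y h hy hh => ?_⟩
    have h1 : |Qd φ x0 h 0 - D0 h| ≤ η / 2 * ‖h‖ := by
      have ht : Tendsto (fun n => |Qd φ x0 h 0 - Qd φ x0 h n|) atTop (𝓝 |Qd φ x0 h 0 - D0 h|) :=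
        (tendsto_const_nhds.sub (hD0 h)).abs
      refine le_of_tendsto ht (Eventually.of_forall fun n => ?_)
      have := Qd_halve (φ := φ) (x0 := x0) (η := η / 2) (δ := δ) (by positivity) hδ
        H h 0 n (by simpa using hh)
      simpa using this
    have h2 := H y x0 h hy (by simpa using hδ) hh
    have h3 : Qd φ x0 h 0 = φ (x0 + h) - φ x0 := by simp [Qd]
    rw [h3] at h1
    have h4 : φ (y + h) - φ y - D0 h
        = (φ (y + h) - φ y - φ (x0 + h) + φ x0) + (φ (x0 + h) - φ x0 - D0 h) := by ring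
    rw [h4]
    have h5 := abs_add_le (φ (y + h) - φ y - φ (x0 + h) + φ x0) (φ (x0 + h) - φ x0 - D0 h)
    linarith
  -- bound
  have hbd : ∀ h : E, |D0 h| ≤ L * ‖h‖ := by
    intro h
    refine le_of_tendsto (hD0 h).abs (Eventually.of_forall fun n => Qd_bound hL x0 h n)
  -- additivity
  have hadd : ∀ h h' : E, D0 (h + h') = D0 h + D0 h' := by
    intro h h'
    have ht : Tendsto (fun n => |Qd φ x0 (h + h') n - (Qd φ x0 h n + Qd φ x0 h' n)|) atTop
        (𝓝 |D0 (h + h') - (D0 h + D0 h')|) := ((hD0 _).sub ((hD0 h).add (hD0 h'))).abs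
    have h0 : |D0 (h + h') - (D0 h + D0 h')| ≤ 0 := by
      refine le_of_forall_pos_le_add fun ε hε => ?_
      obtain ⟨δ, hδ, H⟩ := JB_zero_dist hJ (ε / (‖h'‖ + 1)) (by positivity)
      obtain ⟨n1, hn1⟩ := small_scale h hδ
      obtain ⟨n2, hn2⟩ := small_scale h' hδ
      refine le_of_tendsto ht ?_
      filter_upwards [eventually_ge_atTop (max n1 n2)] with n hn
      have a1 := hn1 n (le_trans (le_max_left _ _) hn)
      have a2 := hn2 n (le_trans (le_max_right _ _) hn)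
      have b1 := H (x0 + (1 / 2 ^ n : ℝ) • h) x0 ((1 / 2 ^ n : ℝ) • h')
        (by rw [dist_eq_norm]; simpa using a1) (by simpa using hδ) a2
      have b2 : x0 + (1 / 2 ^ n : ℝ) • (h + h')
          = x0 + (1 / 2 ^ n : ℝ) • h + (1 / 2 ^ n : ℝ) • h' := by rw [smul_add]; abel
      have b3 : Qd φ x0 (h + h') n - (Qd φ x0 h n + Qd φ x0 h' n)
          = 2 ^ n * (φ (x0 + (1 / 2 ^ n : ℝ) • h + (1 / 2 ^ n : ℝ) • h')
            - φ (x0 + (1 / 2 ^ n : ℝ) • h) - φ (x0 + (1 / 2 ^ n : ℝ) • h') + φ x0) := by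
        unfold Qd; rw [b2]; ring
      rw [b3, abs_mul, abs_of_pos (by positivity : (0 : ℝ) < 2 ^ n)]
      rw [norm_smul, Real.norm_of_nonneg (by positivity)] at b1
      calc 2 ^ n * |φ (x0 + (1 / 2 ^ n : ℝ) • h + (1 / 2 ^ n : ℝ) • h')
            - φ (x0 + (1 / 2 ^ n : ℝ) • h) - φ (x0 + (1 / 2 ^ n : ℝ) • h') + φ x0|
          ≤ 2 ^ n * (ε / (‖h'‖ + 1) * (1 / 2 ^ n * ‖h'‖)) :=
            mul_le_mul_of_nonneg_left b1 (by positivity)
        _ = ε * (‖h'‖ / (‖h'‖ + 1)) := by field_simp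
        _ ≤ ε * 1 := by
            apply mul_le_mul_of_nonneg_left _ hε.le
            rw [div_le_one (by positivity)]; linarith
        _ = 0 + ε := by ring
    have h1 := abs_nonneg (D0 (h + h') - (D0 h + D0 h'))
    have h2 : |D0 (h + h') - (D0 h + D0 h')| = 0 := le_antisymm h0 h1
    have := abs_eq_zero.mp h2
    linarith
  have hzero : D0 0 = 0 := by
    have := hbd 0
    simp at this
    exact this
  let A : E →+ ℝ := { toFun := D0, map_zero' := hzero, map_add' := hadd }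
  have hAc : Continuous A := by
    exact AddMonoidHomClass.continuous_of_bound A L (fun x => by
      rw [Real.norm_eq_abs]; exact hbd x)
  refine ⟨A.toRealLinearMap hAc, ?_⟩
  exact hclose

/-- **Row J5**: a Lipschitz function whose non-smoothness vanishes everywhere is `C^1`. -/
theorem contDiff_of_JB {φ : E → ℝ} {L : ℝ} (hL : ∀ y z : E, |φ y - φ z| ≤ L * ‖y - z‖)
    (hJ : ∀ x0, JB φ x0 0) : ContDiff ℝ 1 φ := by
  choose D hD using fun x0 => strict_of_JB hL (hJ x0)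
  have hder : ∀ x, HasFDerivAt φ (D x) x := by
    intro x
    rw [hasFDerivAt_iff_isLittleO_nhds_zero, Asymptotics.isLittleO_iff]
    intro c hc
    obtain ⟨δ, hδ, H⟩ := hD x c hc
    filter_upwards [Metric.ball_mem_nhds (0 : E) hδ] with h hh
    have := H x h (by simpa using hδ) (by simpa using hh)
    simpa [Real.norm_eq_abs] using this
  have hfd : fderiv ℝ φ = D := by
    ext1 x
    exact (hder x).fderiv
  rw [contDiff_one_iff_fderiv]
  refine ⟨fun x => (hder x).differentiableAt, ?_⟩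
  rw [hfd]
  rw [Metric.continuous_iff]
  intro x0 ε hε
  obtain ⟨δ, hδ, H⟩ := hD x0 (ε / 2) (by positivity)
  refine ⟨δ, hδ, fun y hy => ?_⟩
  rw [dist_eq_norm]
  have h1 : HasFDerivAt (fun z => φ z - D x0 z) (D y - D x0) y :=
    (hder y).sub (D x0).hasFDerivAt
  have h2 : ‖D y - D x0‖ ≤ ε / 2 := by
    refine h1.le_of_lip' (by positivity) ?_
    filter_upwards [Metric.ball_mem_nhds y hδ] with z hz
    have := H y (z - y) hy (by simpa [dist_eq_norm] using hz)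
    rw [add_sub_cancel] at this
    rw [Real.norm_eq_abs]
    have h3 : φ z - (D x0) z - (φ y - (D x0) y) = φ z - φ y - (D x0) (z - y) := by
      rw [map_sub]; ring
    rw [h3]
    exact this
  linarith

end Pool.ASP
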