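import Mathlib

/-! Calculus of non-smoothness: `NS φ x b` says that the second differences
`φ (y + h) - φ y - (φ (y' + h) - φ y')` are at most `(b + o(1)) ‖h‖` as `y, y' → x`, `h → 0`. -/

set_option autoImplicit false
set_option linter.unusedSectionVars false

open Filter Topology MeasureTheory Set

namespace Pool.Agent.ASPNS

variable {X : Type*} [NormedAddCommGroup X] [NormedSpace ℝ X]

/-- second difference -/
def dd (φ : X → ℝ) (p : X × X × X) : ℝ :=
  φ (p.1 + p.2.2) - φ p.1 - (φ (p.2.1 + p.2.2) - φ p.2.1)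

/-- the non-smoothness of `φ` at `x` is at most `b` -/
def NS (φ : X → ℝ) (x : X) (b : ℝ) : Prop :=
  ∀ η : ℝ, 0 < η → ∀ᶠ p : X × X × X in 𝓝 (x, x, 0), |dd φ p| ≤ (b + η) * ‖p.2.2‖

/-- `φ` is `L`-Lipschitz near `x` -/
def LipNear (φ : X → ℝ) (x : X) (L : ℝ) : Prop :=
  ∀ᶠ p : X × X in 𝓝 (x, x), |φ p.1 - φ p.2| ≤ L * ‖p.1 - p.2‖

/-- `φ` is Lipschitz near `x` -/
def LipAt (φ : X → ℝ) (x : X) : Prop := ∃ L : ℝ, LipNear φ x L

section tendsto

variable (x : X)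

lemma tendsto_y : Tendsto (fun p : X × X × X => p.1) (𝓝 (x, x, 0)) (𝓝 x) := by
  have : Continuous (fun p : X × X × X => p.1) := by fun_prop
  simpa using this.tendsto (x, x, (0 : X))

lemma tendsto_y' : Tendsto (fun p : X × X × X => p.2.1) (𝓝 (x, x, 0)) (𝓝 x) := by
  have : Continuous (fun p : X × X × X => p.2.1) := by fun_prop
  simpa using this.tendsto (x, x, (0 : X))

lemma tendsto_h : Tendsto (fun p : X × X × X => p.2.2) (𝓝 (x, x, 0)) (𝓝 0) := by
  have : Continuous (fun p : X × X × X => p.2.2) := by fun_prop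
  simpa using this.tendsto (x, x, (0 : X))

lemma tendsto_yh : Tendsto (fun p : X × X × X => p.1 + p.2.2) (𝓝 (x, x, 0)) (𝓝 x) := by
  have : Continuous (fun p : X × X × X => p.1 + p.2.2) := by fun_prop
  simpa using this.tendsto (x, x, (0 : X))

lemma tendsto_y'h : Tendsto (fun p : X × X × X => p.2.1 + p.2.2) (𝓝 (x, x, 0)) (𝓝 x) := by
  have : Continuous (fun p : X × X × X => p.2.1 + p.2.2) := by fun_prop
  simpa using this.tendsto (x, x, (0 : X))

lemma tendsto_pair_yh_y :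
    Tendsto (fun p : X × X × X => (p.1 + p.2.2, p.1)) (𝓝 (x, x, 0)) (𝓝 (x, x)) := by
  have : Continuous (fun p : X × X × X => (p.1 + p.2.2, p.1)) := by fun_prop
  simpa using this.tendsto (x, x, (0 : X))

lemma tendsto_pair_y'h_y' :
    Tendsto (fun p : X × X × X => (p.2.1 + p.2.2, p.2.1)) (𝓝 (x, x, 0)) (𝓝 (x, x)) := by
  have : Continuous (fun p : X × X × X => (p.2.1 + p.2.2, p.2.1)) := by fun_prop
  simpa using this.tendsto (x, x, (0 : X))

end tendsto

/-! ### Lipschitz near a point -/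

lemma LipNear.mono {φ : X → ℝ} {x : X} {L L' : ℝ} (h : LipNear φ x L) (hL : L ≤ L') :
    LipNear φ x L' := by
  filter_upwards [h] with p hp
  exact hp.trans (mul_le_mul_of_nonneg_right hL (norm_nonneg _))

lemma LipNear.abs {φ : X → ℝ} {x : X} {L : ℝ} (h : LipNear φ x L) : LipNear φ x |L| :=
  h.mono (le_abs_self L)

lemma lipNear_of_forall {φ : X → ℝ} {L : ℝ} (h : ∀ y y', |φ y - φ y'| ≤ L * ‖y - y'‖) (x : X) :
    LipNear φ x L := Eventually.of_forall fun p => h p.1 p.2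

lemma LipAt.continuousAt {φ : X → ℝ} {x : X} (h : LipAt φ x) : ContinuousAt φ x := by
  obtain ⟨L, hL⟩ := h
  have h1 : Tendsto (fun y : X => (y, x)) (𝓝 x) (𝓝 (x, x)) := by
    have : Continuous (fun y : X => (y, x)) := by fun_prop
    simpa using this.tendsto x
  have h2 : ∀ᶠ y in 𝓝 x, |φ y - φ x| ≤ |L| * ‖y - x‖ := by
    have := h1.eventually hL.abs
    exact this
  have h3 : Tendsto (fun y : X => |L| * ‖y - x‖) (𝓝 x) (𝓝 0) := by
    have : Continuous (fun y : X => |L| * ‖y - x‖) := by fun_prop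
    simpa using this.tendsto x
  rw [ContinuousAt, tendsto_iff_norm_sub_tendsto_zero]
  refine squeeze_zero' (Eventually.of_forall fun _ => norm_nonneg _) ?_ h3
  simpa [Real.norm_eq_abs] using h2

lemma LipAt.add {φ ψ : X → ℝ} {x : X} (h : LipAt φ x) (h' : LipAt ψ x) :
    LipAt (fun y => φ y + ψ y) x := by
  obtain ⟨L, hL⟩ := h
  obtain ⟨L', hL'⟩ := h'
  refine ⟨L + L', ?_⟩
  filter_upwards [hL, hL'] with p h1 h2
  have e : φ p.1 + ψ p.1 - (φ p.2 + ψ p.2) = (φ p.1 - φ p.2) + (ψ p.1 - ψ p.2) := by ring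
  rw [e]
  calc _ ≤ |φ p.1 - φ p.2| + |ψ p.1 - ψ p.2| := abs_add_le _ _
    _ ≤ L * ‖p.1 - p.2‖ + L' * ‖p.1 - p.2‖ := add_le_add h1 h2
    _ = _ := by ring

lemma LipAt.const_mul {φ : X → ℝ} {x : X} (h : LipAt φ x) (c : ℝ) :
    LipAt (fun y => c * φ y) x := by
  obtain ⟨L, hL⟩ := h
  refine ⟨|c| * L, ?_⟩
  filter_upwards [hL] with p h1
  rw [← mul_sub, abs_mul, mul_assoc]
  exact mul_le_mul_of_nonneg_left h1 (abs_nonneg c)

lemma lipAt_const (c : ℝ) (x : X) : LipAt (fun _ : X => c) x :=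
  ⟨0, Eventually.of_forall fun p => by simp⟩

lemma LipAt.neg {φ : X → ℝ} {x : X} (h : LipAt φ x) : LipAt (fun y => - φ y) x := by
  simpa using h.const_mul (-1)

lemma LipAt.sub {φ ψ : X → ℝ} {x : X} (h : LipAt φ x) (h' : LipAt ψ x) :
    LipAt (fun y => φ y - ψ y) x := by
  simpa [sub_eq_add_neg] using h.add h'.neg

lemma LipAt.sum {ι : Type*} (s : Finset ι) {φ : ι → X → ℝ} {x : X} (h : ∀ i ∈ s, LipAt (φ i) x) :
    LipAt (fun y => ∑ i ∈ s, φ i y) x := by
  classical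
  induction s using Finset.induction_on with
  | empty => simpa using lipAt_const (0 : ℝ) x
  | insert i s hi ih =>
    simp only [Finset.sum_insert hi]
    exact (h i (Finset.mem_insert_self i s)).add (ih fun j hj => h j (Finset.mem_insert_of_mem hj))

/-- Lipschitz functions are bounded near the point -/
lemma LipAt.bounded {φ : X → ℝ} {x : X} (h : LipAt φ x) :
    ∀ᶠ y in 𝓝 x, |φ y| ≤ |φ x| + 1 := by
  have h1 := h.continuousAt.abs
  have h2 : ∀ᶠ y in 𝓝 x, |φ y| < |φ x| + 1 := h1.eventually_lt_const (by linarith)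
  exact h2.mono fun y hy => hy.le

lemma LipAt.mul {φ ψ : X → ℝ} {x : X} (h : LipAt φ x) (h' : LipAt ψ x) :
    LipAt (fun y => φ y * ψ y) x := by
  have b1 := h.bounded
  have b2 := h'.bounded
  obtain ⟨L, hL⟩ := h
  obtain ⟨L', hL'⟩ := h'
  refine ⟨(|φ x| + 1) * |L'| + (|ψ x| + 1) * |L|, ?_⟩
  have t1 : Tendsto (fun p : X × X => p.1) (𝓝 (x, x)) (𝓝 x) := by
    have : Continuous (fun p : X × X => p.1) := by fun_prop
    simpa using this.tendsto (x, x)
  have t2 : Tendsto (fun p : X × X => p.2) (𝓝 (x, x)) (𝓝 x) := by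
    have : Continuous (fun p : X × X => p.2) := by fun_prop
    simpa using this.tendsto (x, x)
  filter_upwards [hL.abs, hL'.abs, t1.eventually b1, t2.eventually b2] with p h1 h2 h3 h4
  have e : φ p.1 * ψ p.1 - φ p.2 * ψ p.2 = φ p.1 * (ψ p.1 - ψ p.2) + ψ p.2 * (φ p.1 - φ p.2) := by
    ring
  rw [e]
  calc _ ≤ |φ p.1 * (ψ p.1 - ψ p.2)| + |ψ p.2 * (φ p.1 - φ p.2)| := abs_add_le _ _
    _ ≤ (|φ x| + 1) * (|L'| * ‖p.1 - p.2‖) + (|ψ x| + 1) * (|L| * ‖p.1 - p.2‖) := by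
      rw [abs_mul, abs_mul]
      gcongr
    _ = _ := by ring

lemma LipAt.comp_lipschitz {φ : X → ℝ} {x : X} (h : LipAt φ x) {θ : ℝ → ℝ} {K : ℝ}
    (hK : 0 ≤ K) (hθ : ∀ s t, |θ s - θ t| ≤ K * |s - t|) : LipAt (fun y => θ (φ y)) x := by
  obtain ⟨L, hL⟩ := h
  refine ⟨K * L, ?_⟩
  filter_upwards [hL] with p h1
  calc _ ≤ K * |φ p.1 - φ p.2| := hθ _ _
    _ ≤ K * (L * ‖p.1 - p.2‖) := mul_le_mul_of_nonneg_left h1 hK
    _ = _ := by ring

/-! ### Rules for `NS` -/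

lemma NS.mono {φ : X → ℝ} {x : X} {b b' : ℝ} (h : NS φ x b) (hb : b ≤ b') : NS φ x b' := by
  intro η hη
  filter_upwards [h η hη] with p hp
  exact hp.trans (mul_le_mul_of_nonneg_right (by linarith) (norm_nonneg _))

/-- closedness in `b` -/
lemma NS.of_forall_lt {φ : X → ℝ} {x : X} {b : ℝ} (h : ∀ b' > b, NS φ x b') : NS φ x b := by
  intro η hη
  filter_upwards [h (b + η / 2) (by linarith) (η / 2) (by linarith)] with p hp
  calc _ ≤ _ := hp
    _ = _ := by ring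

lemma LipNear.dd_le {φ : X → ℝ} {x : X} {L : ℝ} (h : LipNear φ x L) :
    ∀ᶠ p : X × X × X in 𝓝 (x, x, 0), |dd φ p| ≤ 2 * L * ‖p.2.2‖ := by
  filter_upwards [(tendsto_pair_yh_y x).eventually h, (tendsto_pair_y'h_y' x).eventually h]
    with p h1 h2
  simp only [add_sub_cancel_left] at h1 h2
  calc |dd φ p| ≤ |φ (p.1 + p.2.2) - φ p.1| + |φ (p.2.1 + p.2.2) - φ p.2.1| := abs_sub _ _
    _ ≤ L * ‖p.2.2‖ + L * ‖p.2.2‖ := add_le_add h1 h2
    _ = _ := by ring

lemma LipNear.ns {φ : X → ℝ} {x : X} {L : ℝ} (h : LipNear φ x L) : NS φ x (2 * L) := by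
  intro η hη
  filter_upwards [h.dd_le] with p hp
  refine hp.trans (mul_le_mul_of_nonneg_right (by linarith) (norm_nonneg _))

lemma NS.congr {φ ψ : X → ℝ} {x : X} {b : ℝ} (h : NS φ x b) (e : φ =ᶠ[𝓝 x] ψ) : NS ψ x b := by
  intro η hη
  filter_upwards [h η hη, (tendsto_y x).eventually e, (tendsto_y' x).eventually e,
    (tendsto_yh x).eventually e, (tendsto_y'h x).eventually e] with p hp h1 h2 h3 h4
  unfold dd at hp ⊢
  rw [← h1, ← h2, ← h3, ← h4]
  exact hp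

lemma NS.add {φ ψ : X → ℝ} {x : X} {b b' : ℝ} (h : NS φ x b) (h' : NS ψ x b') :
    NS (fun y => φ y + ψ y) x (b + b') := by
  intro η hη
  filter_upwards [h (η / 2) (by linarith), h' (η / 2) (by linarith)] with p h1 h2
  have e : dd (fun y => φ y + ψ y) p = dd φ p + dd ψ p := by unfold dd; ring
  rw [e]
  calc _ ≤ |dd φ p| + |dd ψ p| := abs_add_le _ _
    _ ≤ (b + η / 2) * ‖p.2.2‖ + (b' + η / 2) * ‖p.2.2‖ := add_le_add h1 h2
    _ = _ := by ring

lemma NS.const_mul {φ : X → ℝ} {x : X} {b : ℝ} (h : NS φ x b) (c : ℝ) :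
    NS (fun y => c * φ y) x (|c| * b) := by
  intro η hη
  have hc : (0 : ℝ) < |c| + 1 := by positivity
  filter_upwards [h (η / (|c| + 1)) (by positivity)] with p h1
  have e : dd (fun y => c * φ y) p = c * dd φ p := by unfold dd; ring
  rw [e, abs_mul]
  calc _ ≤ |c| * ((b + η / (|c| + 1)) * ‖p.2.2‖) := mul_le_mul_of_nonneg_left h1 (abs_nonneg c)
    _ = (|c| * b + η * (|c| / (|c| + 1))) * ‖p.2.2‖ := by field_simp
    _ ≤ _ := by
      refine mul_le_mul_of_nonneg_right ?_ (norm_nonneg _)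
      have : |c| / (|c| + 1) ≤ 1 := by rw [div_le_one hc]; linarith
      nlinarith

lemma NS.neg {φ : X → ℝ} {x : X} {b : ℝ} (h : NS φ x b) : NS (fun y => - φ y) x b := by
  simpa using h.const_mul (-1)

lemma NS.sub {φ ψ : X → ℝ} {x : X} {b b' : ℝ} (h : NS φ x b) (h' : NS ψ x b') :
    NS (fun y => φ y - ψ y) x (b + b') := by
  simpa [sub_eq_add_neg] using h.add h'.neg

lemma ns_const (c : ℝ) (x : X) : NS (fun _ : X => c) x 0 := by
  intro η hη
  refine Eventually.of_forall fun p => ?_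
  simp only [dd, sub_self, abs_zero, zero_add]
  positivity

lemma ns_linear (f : X →L[ℝ] ℝ) (x : X) : NS (fun y => f y) x 0 := by
  intro η hη
  refine Eventually.of_forall fun p => ?_
  simp only [dd, map_add, add_sub_cancel_left, sub_self, abs_zero, zero_add]
  positivity

/-- adding or subtracting a constant does not change `NS` -/
lemma NS.add_const {φ : X → ℝ} {x : X} {b : ℝ} (h : NS φ x b) (c : ℝ) :
    NS (fun y => φ y + c) x b := by
  simpa using h.add (ns_const c x)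

lemma NS.sub_const {φ : X → ℝ} {x : X} {b : ℝ} (h : NS φ x b) (c : ℝ) :
    NS (fun y => φ y - c) x b := by
  simpa using h.sub (ns_const c x)

/-- composition with a `C^1` function -/
lemma NS.comp {φ : X → ℝ} {x : X} {b : ℝ} (h : NS φ x b) (hφ : LipAt φ x)
    {θ : ℝ → ℝ} {m : ℝ} (hθ : HasStrictDerivAt θ m (φ x)) :
    NS (fun y => θ (φ y)) x (|m| * b) := by
  intro η hη
  obtain ⟨L, hL⟩ := hφ
  have hL' := hL.abs
  have hc : ContinuousAt φ x := LipAt.continuousAt ⟨L, hL⟩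
  -- the error of linearisation
  set κ : ℝ := η / (2 * (2 * (|L| + 1))) with hκ
  have hκ0 : 0 < κ := by positivity
  have hs : ∀ᶠ q : ℝ × ℝ in 𝓝 (φ x, φ x), |θ q.1 - θ q.2 - m * (q.1 - q.2)| ≤ κ * |q.1 - q.2| := by
    have := hθ.hasStrictFDerivAt.isLittleO
    have h2 := this.def hκ0
    filter_upwards [h2] with q hq
    simpa [Real.norm_eq_abs, mul_comm] using hq
  have t1 : Tendsto (fun p : X × X × X => (φ (p.1 + p.2.2), φ p.1)) (𝓝 (x, x, 0))
      (𝓝 (φ x, φ x)) :=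
    (hc.tendsto.comp (tendsto_yh x)).prodMk_nhds (hc.tendsto.comp (tendsto_y x))
  have t2 : Tendsto (fun p : X × X × X => (φ (p.2.1 + p.2.2), φ p.2.1)) (𝓝 (x, x, 0))
      (𝓝 (φ x, φ x)) :=
    (hc.tendsto.comp (tendsto_y'h x)).prodMk_nhds (hc.tendsto.comp (tendsto_y' x))
  have hm : (0 : ℝ) < 2 * (|m| + 1) := by positivity
  filter_upwards [h (η / (2 * (|m| + 1))) (by positivity), t1.eventually hs, t2.eventually hs,
    (tendsto_pair_yh_y x).eventually hL', (tendsto_pair_y'h_y' x).eventually hL']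
    with p h1 h2 h3 h4 h5
  simp only [add_sub_cancel_left] at h4 h5
  set A := φ (p.1 + p.2.2) - φ p.1
  set A' := φ (p.2.1 + p.2.2) - φ p.2.1
  have hdd : dd φ p = A - A' := rfl
  rw [hdd] at h1
  have e : dd (fun y => θ (φ y)) p
      = m * (A - A') + ((θ (φ (p.1 + p.2.2)) - θ (φ p.1) - m * A)
        - (θ (φ (p.2.1 + p.2.2)) - θ (φ p.2.1) - m * A')) := by
    unfold dd; ring
  rw [e]
  have hn := norm_nonneg p.2.2
  have k1 : |θ (φ (p.1 + p.2.2)) - θ (φ p.1) - m * A| ≤ κ * (|L| * ‖p.2.2‖) :=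
    h2.trans (mul_le_mul_of_nonneg_left h4 hκ0.le)
  have k2 : |θ (φ (p.2.1 + p.2.2)) - θ (φ p.2.1) - m * A'| ≤ κ * (|L| * ‖p.2.2‖) :=
    h3.trans (mul_le_mul_of_nonneg_left h5 hκ0.le)
  have k3 : |m * (A - A')| ≤ |m| * ((b + η / (2 * (|m| + 1))) * ‖p.2.2‖) := by
    rw [abs_mul]; exact mul_le_mul_of_nonneg_left h1 (abs_nonneg m)
  have k4 : |m| * (η / (2 * (|m| + 1))) ≤ η / 2 := by
    rw [mul_div_assoc', div_le_div_iff₀ hm (by norm_num)]
    nlinarith [abs_nonneg m]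
  have k5 : 2 * (κ * |L|) ≤ η / 2 := by
    rw [hκ]
    have : (0 : ℝ) < |L| + 1 := by positivity
    rw [show 2 * (η / (2 * (2 * (|L| + 1))) * |L|) = η / 2 * (|L| / (|L| + 1)) by field_simp]
    have h6 : |L| / (|L| + 1) ≤ 1 := by rw [div_le_one this]; linarith
    nlinarith
  calc _ ≤ |m * (A - A')| + |(θ (φ (p.1 + p.2.2)) - θ (φ p.1) - m * A)
        - (θ (φ (p.2.1 + p.2.2)) - θ (φ p.2.1) - m * A')| := abs_add_le _ _
    _ ≤ |m| * ((b + η / (2 * (|m| + 1))) * ‖p.2.2‖)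
        + (κ * (|L| * ‖p.2.2‖) + κ * (|L| * ‖p.2.2‖)) :=
      add_le_add k3 ((abs_sub _ _).trans (add_le_add k1 k2))
    _ = (|m| * b + (|m| * (η / (2 * (|m| + 1))) + 2 * (κ * |L|))) * ‖p.2.2‖ := by ring
    _ ≤ _ := by
      refine mul_le_mul_of_nonneg_right ?_ hn
      linarith

/-- product rule -/
lemma NS.mul {φ ψ : X → ℝ} {x : X} {b b' : ℝ} (h : NS φ x b) (h' : NS ψ x b')
    (hφ : LipAt φ x) (hψ : LipAt ψ x) :
    NS (fun y => φ y * ψ y) x (|φ x| * b' + |ψ x| * b) := by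
  intro η hη
  have cφ := hφ.continuousAt
  have cψ := hψ.continuousAt
  obtain ⟨L, hL⟩ := hφ
  obtain ⟨L', hL'⟩ := hψ
  -- small quantities
  obtain ⟨κ, hκ0, hκ⟩ : ∃ κ : ℝ, 0 < κ ∧
      (|φ x| + κ) * (b' + κ) + (|ψ x| + κ) * (b + κ) + 2 * κ * (|L| + |L'|)
        ≤ |φ x| * b' + |ψ x| * b + η := by
    have hcont : Continuous (fun κ : ℝ => (|φ x| + κ) * (b' + κ) + (|ψ x| + κ) * (b + κ)
      + 2 * κ * (|L| + |L'|)) := by fun_prop
    have h0 : ∀ᶠ κ : ℝ in 𝓝 0, (|φ x| + κ) * (b' + κ) + (|ψ x| + κ) * (b + κ)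
      + 2 * κ * (|L| + |L'|) < |φ x| * b' + |ψ x| * b + η := by
      refine (hcont.tendsto 0).eventually_lt_const ?_
      simp only [add_zero, mul_zero, zero_mul]
      linarith
    obtain ⟨κ, h1, h2⟩ := ((h0.filter_mono nhdsWithin_le_nhds).and
      (self_mem_nhdsWithin : Ioi (0 : ℝ) ∈ 𝓝[>] 0)).exists
    exact ⟨κ, h2, h1.le⟩
  have e1 : ∀ᶠ y in 𝓝 x, |φ y - φ x| < κ := by
    have := Metric.tendsto_nhds.1 cφ.tendsto κ hκ0
    simpa [Real.dist_eq] using this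
  have e2 : ∀ᶠ y in 𝓝 x, |ψ y - ψ x| < κ := by
    have := Metric.tendsto_nhds.1 cψ.tendsto κ hκ0
    simpa [Real.dist_eq] using this
  filter_upwards [h κ hκ0, h' κ hκ0, (tendsto_y x).eventually e1, (tendsto_y' x).eventually e1,
    (tendsto_yh x).eventually e2, (tendsto_y'h x).eventually e2,
    (tendsto_pair_yh_y x).eventually hL.abs, (tendsto_pair_y'h_y' x).eventually hL.abs,
    (tendsto_pair_yh_y x).eventually hL'.abs, (tendsto_pair_y'h_y' x).eventually hL'.abs]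
    with p h1 h2 a1 a2 a3 a4 l1 l2 l3 l4
  simp only [add_sub_cancel_left] at l1 l2 l3 l4
  have hn := norm_nonneg p.2.2
  set n := ‖p.2.2‖
  have e : dd (fun y => φ y * ψ y) p
      = φ p.1 * dd ψ p + ψ (p.1 + p.2.2) * dd φ p
        + ((φ p.1 - φ p.2.1) * (ψ (p.2.1 + p.2.2) - ψ p.2.1)
          + (ψ (p.1 + p.2.2) - ψ (p.2.1 + p.2.2)) * (φ (p.2.1 + p.2.2) - φ p.2.1)) := by
    unfold dd; ring
  have b1 : |φ p.1| ≤ |φ x| + κ := by
    have := abs_sub_abs_le_abs_sub (φ p.1) (φ x)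
    linarith
  have b2 : |ψ (p.1 + p.2.2)| ≤ |ψ x| + κ := by
    have := abs_sub_abs_le_abs_sub (ψ (p.1 + p.2.2)) (ψ x)
    linarith
  have b3 : |φ p.1 - φ p.2.1| ≤ 2 * κ := by
    have : φ p.1 - φ p.2.1 = (φ p.1 - φ x) - (φ p.2.1 - φ x) := by ring
    rw [this]
    exact (abs_sub _ _).trans (by linarith)
  have b4 : |ψ (p.1 + p.2.2) - ψ (p.2.1 + p.2.2)| ≤ 2 * κ := by
    have : ψ (p.1 + p.2.2) - ψ (p.2.1 + p.2.2)
      = (ψ (p.1 + p.2.2) - ψ x) - (ψ (p.2.1 + p.2.2) - ψ x) := by ring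
    rw [this]
    exact (abs_sub _ _).trans (by linarith)
  rw [e]
  calc _ ≤ (|φ p.1 * dd ψ p| + |ψ (p.1 + p.2.2) * dd φ p|)
        + (|(φ p.1 - φ p.2.1) * (ψ (p.2.1 + p.2.2) - ψ p.2.1)|
          + |(ψ (p.1 + p.2.2) - ψ (p.2.1 + p.2.2)) * (φ (p.2.1 + p.2.2) - φ p.2.1)|) :=
        (abs_add_le _ _).trans (add_le_add (abs_add_le _ _) (abs_add_le _ _))
    _ ≤ ((|φ x| + κ) * ((b' + κ) * n) + (|ψ x| + κ) * ((b + κ) * n))
        + (2 * κ * (|L'| * n) + 2 * κ * (|L| * n)) := by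
      rw [abs_mul, abs_mul, abs_mul, abs_mul]
      gcongr
    _ = ((|φ x| + κ) * (b' + κ) + (|ψ x| + κ) * (b + κ) + 2 * κ * (|L| + |L'|)) * n := by ring
    _ ≤ _ := mul_le_mul_of_nonneg_right hκ hn


lemma NS.sum {ι : Type*} (s : Finset ι) {φ : ι → X → ℝ} {x : X} {b : ι → ℝ}
    (h : ∀ i ∈ s, NS (φ i) x (b i)) : NS (fun y => ∑ i ∈ s, φ i y) x (∑ i ∈ s, b i) := by
  classical
  induction s using Finset.induction_on with
  | empty => simpa using ns_const (0 : ℝ) x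
  | insert i s hi ih =>
    simp only [Finset.sum_insert hi]
    exact (h i (Finset.mem_insert_self i s)).add (ih fun j hj => h j (Finset.mem_insert_of_mem hj))

/-- Abel summation -/
lemma abel_sum (g W : ℕ → ℝ) (J : ℕ) :
    ∑ j ∈ Finset.range (J + 1), (g j - (if j = 0 then 0 else g (j - 1))) * W j
      = ∑ j ∈ Finset.range J, g j * (W j - W (j + 1)) + g J * W J := by
  induction J with
  | zero => simp
  | succ J ih =>
    rw [Finset.sum_range_succ, ih, Finset.sum_range_succ (n := J)]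
    simp only [Nat.add_sub_cancel, Nat.succ_ne_zero, if_false]
    ring

/-- weighted sums -/
lemma NS.weights {J : ℕ} (χ W : ℕ → X → ℝ) (x : X) (jc : ℕ → ℝ) (bW : ℝ)
    (hχL : ∀ j ≤ J, LipAt (χ j) x) (hWL : ∀ j ≤ J, LipAt (W j) x)
    (hχ : ∀ j < J, NS (χ j) x (jc j)) (hW : ∀ j ≤ J, NS (W j) x bW)
    (hJ : ∀ᶠ y in 𝓝 x, χ J y = 1)
    (hmono : ∀ j ≤ J, (if j = 0 then 0 else χ (j - 1) x) ≤ χ j x) :
    NS (fun y => ∑ j ∈ Finset.range (J + 1),
        (χ j y - (if j = 0 then 0 else χ (j - 1) y)) * W j y)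
      x (bW + ∑ j ∈ Finset.range J, jc j * |W j x - W (j + 1) x|) := by
  have h1 : NS (fun y => ∑ j ∈ Finset.range (J + 1),
      (χ j x - (if j = 0 then 0 else χ (j - 1) x)) * W j y) x bW := by
    have h2 := NS.sum (Finset.range (J + 1)) (x := x)
      (φ := fun j y => (χ j x - (if j = 0 then 0 else χ (j - 1) x)) * W j y)
      (b := fun j => |χ j x - (if j = 0 then 0 else χ (j - 1) x)| * bW)
      (fun j hj => (hW j (by rw [Finset.mem_range] at hj; omega)).const_mul _)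
    refine h2.mono (le_of_eq ?_)
    have h3 : ∀ j ∈ Finset.range (J + 1), |χ j x - (if j = 0 then 0 else χ (j - 1) x)| * bW
        = (χ j x - (if j = 0 then 0 else χ (j - 1) x)) * bW := by
      intro j hj
      rw [abs_of_nonneg (sub_nonneg.2 (hmono j (by rw [Finset.mem_range] at hj; omega)))]
    rw [Finset.sum_congr rfl h3, abel_sum (fun j => χ j x) (fun _ => bW) J]
    simp [hJ.self_of_nhds]
  have h4 : NS (fun y => ∑ j ∈ Finset.range J, (χ j y - χ j x) * (W j y - W (j + 1) y)) x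
      (∑ j ∈ Finset.range J, jc j * |W j x - W (j + 1) x|) := by
    refine NS.sum (Finset.range J) fun j hj => ?_
    rw [Finset.mem_range] at hj
    have h5 := NS.mul ((hχ j hj).sub_const (χ j x)) ((hW j hj.le).sub (hW (j + 1) hj))
      ((hχL j hj.le).sub (lipAt_const _ x)) ((hWL j hj.le).sub (hWL (j + 1) hj))
    refine h5.mono (le_of_eq ?_)
    simp only [sub_self, abs_zero, zero_mul, zero_add]
    ring
  refine (h1.add h4).congr ?_
  filter_upwards [hJ] with y hy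
  have hx := hJ.self_of_nhds
  have e := abel_sum (fun j => χ j y - χ j x) (fun j => W j y) J
  simp only [hy, hx, sub_self, zero_mul, add_zero] at e
  rw [← e, ← Finset.sum_add_distrib]
  refine Finset.sum_congr rfl fun j _ => ?_
  split_ifs <;> ring

end Pool.Agent.ASPNS
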