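import Pool.Agent.ASP.Defs
import Pool.Agent.ASP.NS

set_option autoImplicit false
set_option linter.unusedSectionVars false

open MeasureTheory Set Filter Topology

namespace Pool.ASP

variable {E : Type} [NormedAddCommGroup E] [NormedSpace ℝ E]

theorem eventually3 {x0 : E} {p : E × E × E → Prop} :
    (∀ᶠ q in 𝓝 (x0, x0, (0 : E)), p q) ↔
      ∃ r > 0, ∀ y y' k, ‖y - x0‖ < r → ‖y' - x0‖ < r → ‖k‖ < r → p (y, y', k) := by
  rw [Metric.eventually_nhds_iff]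
  constructor
  · rintro ⟨r, hr, h⟩
    refine ⟨r, hr, fun y y' k h1 h2 h3 => h ?_⟩
    rw [Prod.dist_eq, Prod.dist_eq, dist_eq_norm, dist_eq_norm, dist_eq_norm, sub_zero]
    exact max_lt h1 (max_lt h2 h3)
  · rintro ⟨r, hr, h⟩
    refine ⟨r, hr, fun q hq => ?_⟩
    rw [Prod.dist_eq, Prod.dist_eq, dist_eq_norm, dist_eq_norm, dist_eq_norm, sub_zero] at hq
    obtain ⟨h1, h2⟩ := max_lt_iff.1 hq
    obtain ⟨h2, h3⟩ := max_lt_iff.1 h2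
    exact h q.1 q.2.1 q.2.2 h1 h2 h3

theorem eventually2 {x0 : E} {p : E × E → Prop} :
    (∀ᶠ q in 𝓝 (x0, x0), p q) ↔
      ∃ r > 0, ∀ y y', ‖y - x0‖ < r → ‖y' - x0‖ < r → p (y, y') := by
  rw [Metric.eventually_nhds_iff]
  constructor
  · rintro ⟨r, hr, h⟩
    refine ⟨r, hr, fun y y' h1 h2 => h ?_⟩
    rw [Prod.dist_eq, dist_eq_norm, dist_eq_norm]
    exact max_lt h1 h2
  · rintro ⟨r, hr, h⟩
    refine ⟨r, hr, fun q hq => ?_⟩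
    rw [Prod.dist_eq, dist_eq_norm, dist_eq_norm] at hq
    obtain ⟨h1, h2⟩ := max_lt_iff.1 hq
    exact h q.1 q.2 h1 h2

theorem JB_iff {φ : E → ℝ} {x0 : E} {b : ℝ} : JB φ x0 b ↔ Pool.Agent.ASPNS.NS φ x0 b := by
  have e : ∀ y y' k : E, Pool.Agent.ASPNS.dd φ (y, y', k) = φ (y + k) - φ y - φ (y' + k) + φ y' := by
    intro y y' k
    unfold Pool.Agent.ASPNS.dd
    ring
  constructor
  · intro h η hη
    rw [eventually3]
    obtain ⟨r, hr, h1⟩ := h (b + η) (by linarith)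
    exact ⟨r, hr, fun y y' k a1 a2 a3 => by rw [e]; exact h1 y y' k a1 a2 a3⟩
  · intro h b' hb'
    obtain ⟨r, hr, h1⟩ := eventually3.1 (h (b' - b) (by linarith))
    refine ⟨r, hr, fun y y' k a1 a2 a3 => ?_⟩
    have := h1 y y' k a1 a2 a3
    rw [e] at this
    simpa using this

theorem LipNear_iff {φ : E → ℝ} {x0 : E} {L : ℝ} :
    LipNear φ x0 L ↔ Pool.Agent.ASPNS.LipNear φ x0 L := by
  unfold LipNear Pool.Agent.ASPNS.LipNear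
  rw [eventually2]

theorem LipNear.lipAt {φ : E → ℝ} {x0 : E} {L : ℝ} (h : LipNear φ x0 L) :
    Pool.Agent.ASPNS.LipAt φ x0 := ⟨L, LipNear_iff.1 h⟩

theorem JB.mono {φ : E → ℝ} {x0 : E} {b c : ℝ} (h : JB φ x0 b) (hbc : b ≤ c) : JB φ x0 c :=
  JB_iff.2 ((JB_iff.1 h).mono hbc)

theorem JB.congr {φ ψ : E → ℝ} {x0 : E} {b : ℝ} (h : JB φ x0 b)
    (he : ∀ᶠ x in 𝓝 x0, φ x = ψ x) : JB ψ x0 b :=
  JB_iff.2 ((JB_iff.1 h).congr he)

theorem LipNear.congr {φ ψ : E → ℝ} {x0 : E} {L : ℝ} (h : LipNear φ x0 L)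
    (he : ∀ᶠ x in 𝓝 x0, φ x = ψ x) : LipNear ψ x0 L := by
  obtain ⟨r, hr, h1⟩ := h
  obtain ⟨s, hs, h2⟩ := Metric.eventually_nhds_iff.1 he
  refine ⟨min r s, lt_min hr hs, fun y z hy hz => ?_⟩
  rw [← h2 (by rw [dist_eq_norm]; exact lt_of_lt_of_le hy (min_le_right _ _)),
    ← h2 (by rw [dist_eq_norm]; exact lt_of_lt_of_le hz (min_le_right _ _))]
  exact h1 y z (lt_of_lt_of_le hy (min_le_left _ _)) (lt_of_lt_of_le hz (min_le_left _ _))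

theorem LipNear.continuousAt {φ : E → ℝ} {x0 : E} {L : ℝ} (h : LipNear φ x0 L) :
    ContinuousAt φ x0 := h.lipAt.continuousAt

theorem JB.add {φ ψ : E → ℝ} {x0 : E} {b c : ℝ} (h1 : JB φ x0 b) (h2 : JB ψ x0 c) :
    JB (fun x => φ x + ψ x) x0 (b + c) :=
  JB_iff.2 ((JB_iff.1 h1).add (JB_iff.1 h2))

theorem JB.const_mul {φ : E → ℝ} {x0 : E} {b : ℝ} (r : ℝ) (h1 : JB φ x0 b) :
    JB (fun x => r * φ x) x0 (|r| * b) :=
  JB_iff.2 ((JB_iff.1 h1).const_mul r)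

theorem JB.add_const {φ : E → ℝ} {x0 : E} {b : ℝ} (r : ℝ) (h1 : JB φ x0 b) :
    JB (fun x => φ x + r) x0 b :=
  JB_iff.2 ((JB_iff.1 h1).add_const r)

theorem JB_const (r : ℝ) (x0 : E) : JB (fun _ => r) x0 0 :=
  JB_iff.2 (Pool.Agent.ASPNS.ns_const r x0)

theorem JB_linear (f : E →L[ℝ] ℝ) (x0 : E) : JB (fun x => f x) x0 0 :=
  JB_iff.2 (Pool.Agent.ASPNS.ns_linear f x0)

theorem JB_of_lip {φ : E → ℝ} {L : ℝ} (hL : ∀ x y, |φ x - φ y| ≤ L * ‖x - y‖) (x0 : E) :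
    JB φ x0 (2 * L) :=
  JB_iff.2 (Pool.Agent.ASPNS.lipNear_of_forall hL x0).ns

/-- composition with a `C^1` function of one variable -/
theorem JB.comp {φ : E → ℝ} {x0 : E} {b L : ℝ} (hφ : LipNear φ x0 L) (hb : JB φ x0 b)
    (g g' : ℝ → ℝ) (hg : ∀ s, HasDerivAt g (g' s) s) (hg' : Continuous g') :
    JB (fun x => g (φ x)) x0 (|g' (φ x0)| * b) := by
  refine JB_iff.2 (Pool.Agent.ASPNS.NS.comp (JB_iff.1 hb) hφ.lipAt ?_)
  exact hasStrictDerivAt_of_hasDerivAt_of_continuousAt (Eventually.of_forall hg)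
    hg'.continuousAt

/-- product rule -/
theorem JB.mul {φ ψ : E → ℝ} {x0 : E} {b c L M : ℝ} (hφ : LipNear φ x0 L) (hψ : LipNear ψ x0 M)
    (hb : JB φ x0 b) (hc : JB ψ x0 c) :
    JB (fun x => φ x * ψ x) x0 (|ψ x0| * b + |φ x0| * c) := by
  have := Pool.Agent.ASPNS.NS.mul (JB_iff.1 hb) (JB_iff.1 hc) hφ.lipAt hψ.lipAt
  refine JB_iff.2 (this.mono (le_of_eq (by ring)))

/-- weighted sums: `J(∑ w_j V_j) ≤ max J(V_j) + ∑ J(χ_j) |V_j - V_(j+1)|` -/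
theorem JB_weights {J : ℕ} (χ W : ℕ → E → ℝ) (x0 : E) (jc : ℕ → ℝ) (L : ℝ) (bW : ℝ)
    (hχL : ∀ j ≤ J, LipNear (χ j) x0 L) (hWL : ∀ j ≤ J, LipNear (W j) x0 L)
    (hχ : ∀ j < J, JB (χ j) x0 (jc j)) (hW : ∀ j ≤ J, JB (W j) x0 bW)
    (hJ : ∀ᶠ x in 𝓝 x0, χ J x = 1)
    (hmono : ∀ j ≤ J, (if j = 0 then 0 else χ (j - 1) x0) ≤ χ j x0) :
    JB (fun x => ∑ j ∈ Finset.range (J + 1), (χ j x - (if j = 0 then 0 else χ (j - 1) x)) * W j x)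
      x0 (bW + ∑ j ∈ Finset.range J, jc j * |W j x0 - W (j + 1) x0|) :=
  JB_iff.2 (Pool.Agent.ASPNS.NS.weights χ W x0 jc bW (fun j hj => (hχL j hj).lipAt)
    (fun j hj => (hWL j hj).lipAt) (fun j hj => JB_iff.1 (hχ j hj))
    (fun j hj => JB_iff.1 (hW j hj)) hJ hmono)

end Pool.ASP
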