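import Pool.Agent.ASP.Defs

set_option autoImplicit false

open MeasureTheory Set Filter Topology

namespace Pool.ASP

variable {E : Type} [NormedAddCommGroup E] [NormedSpace ℝ E]

/-- averages of slices -/
theorem JB_integral {φ : ℝ → E → ℝ} {x0 : E} {a b L r : ℝ} (ha : 0 < a) (hr : 0 < r) (hb : 0 ≤ b)
    (hL : 0 ≤ L)
    (hlip : ∀ d ∈ Set.Icc a (2 * a), ∀ y z, ‖y - x0‖ < r → ‖z - x0‖ < r →
      |φ d y - φ d z| ≤ L * ‖y - z‖)
    (hcont : ∀ y, ‖y - x0‖ < r → ContinuousOn (fun d => φ d y) (Set.Icc a (2 * a)))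
    (C : Set ℝ) (hC : C.Countable) (hJ : ∀ d ∈ Set.Icc a (2 * a), d ∉ C → JB (φ d) x0 b) :
    JB (fun x => (1 / a) * ∫ d in a..(2 * a), φ d x) x0 b := by
  have ha2 : a ≤ 2 * a := by linarith
  by_contra hcon
  unfold JB at hcon
  push Not at hcon
  obtain ⟨b', hb', H⟩ := hcon
  have hρ : ∀ n : ℕ, 0 < r / 2 / ((n : ℝ) + 1) := fun n => by positivity
  choose y y' k hy hy' hk hbig using fun n : ℕ => H _ (hρ n)
  have hle : ∀ n : ℕ, r / 2 / ((n : ℝ) + 1) ≤ r / 2 := fun n => by
    rw [div_le_iff₀ (by positivity)]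
    have : (0 : ℝ) ≤ n := Nat.cast_nonneg n
    nlinarith
  have hy1 : ∀ n, ‖y n - x0‖ < r := fun n => by linarith [hy n, hle n]
  have hy1' : ∀ n, ‖y' n - x0‖ < r := fun n => by linarith [hy' n, hle n]
  have hyk : ∀ n, ‖y n + k n - x0‖ < r := fun n => by
    calc ‖y n + k n - x0‖ = ‖(y n - x0) + k n‖ := by congr 1; abel
      _ ≤ ‖y n - x0‖ + ‖k n‖ := norm_add_le _ _
      _ < r := by linarith [hy n, hk n, hle n]
  have hyk' : ∀ n, ‖y' n + k n - x0‖ < r := fun n => by
    calc ‖y' n + k n - x0‖ = ‖(y' n - x0) + k n‖ := by congr 1; abel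
      _ ≤ ‖y' n - x0‖ + ‖k n‖ := norm_add_le _ _
      _ < r := by linarith [hy' n, hk n, hle n]
  -- the double difference
  set D : ℕ → ℝ → ℝ := fun n d => φ d (y n + k n) - φ d (y n) - φ d (y' n + k n) + φ d (y' n)
    with hD
  have hDc : ∀ n, ContinuousOn (D n) (Icc a (2 * a)) := fun n =>
    (((hcont _ (hyk n)).sub (hcont _ (hy1 n))).sub (hcont _ (hyk' n))).add (hcont _ (hy1' n))
  have hint : ∀ z, ‖z - x0‖ < r → IntervalIntegrable (fun d => φ d z) volume a (2 * a) :=
    fun z hz => (hcont z hz).intervalIntegrable_of_Icc ha2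
  have hDi : ∀ n, IntervalIntegrable (D n) volume a (2 * a) := fun n =>
    (hDc n).intervalIntegrable_of_Icc ha2
  have hkpos : ∀ n, 0 < ‖k n‖ := by
    intro n
    rcases (norm_nonneg (k n)).eq_or_lt with h | h
    · exfalso
      have h0 : k n = 0 := norm_eq_zero.1 h.symm
      have hb1 := hbig n
      rw [h0] at hb1
      simp at hb1
    · exact h
  have hDle : ∀ n, ∀ d ∈ Icc a (2 * a), |D n d| ≤ 2 * L * ‖k n‖ := by
    intro n d hd
    have q1 := hlip d hd (y n + k n) (y n) (hyk n) (hy1 n)
    have q2 := hlip d hd (y' n + k n) (y' n) (hyk' n) (hy1' n)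
    rw [add_sub_cancel_left] at q1 q2
    have e1 : D n d = (φ d (y n + k n) - φ d (y n)) - (φ d (y' n + k n) - φ d (y' n)) := by
      simp only [hD]; ring
    rw [e1]
    have := abs_sub (φ d (y n + k n) - φ d (y n)) (φ d (y' n + k n) - φ d (y' n))
    linarith
  set G : ℕ → ℝ → ℝ := fun n d => max (|D n d| / ‖k n‖ - b) 0 with hG
  have hGc : ∀ n, ContinuousOn (G n) (Icc a (2 * a)) := fun n => by
    exact ((((hDc n).abs).div_const _).sub continuousOn_const).sup continuousOn_const
  have hlim : Tendsto (fun n => ∫ d in a..(2 * a), G n d) atTop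
      (𝓝 (∫ d in a..(2 * a), (0 : ℝ))) := by
    refine intervalIntegral.tendsto_integral_filter_of_dominated_convergence (fun _ => 2 * L)
      (Eventually.of_forall fun n => ?_) (Eventually.of_forall fun n => ?_)
      (intervalIntegrable_const) ?_
    · rw [uIoc_of_le ha2]
      exact ((hGc n).mono Ioc_subset_Icc_self).aestronglyMeasurable measurableSet_Ioc
    · refine Eventually.of_forall fun d hd => ?_
      rw [uIoc_of_le ha2] at hd
      have hd' : d ∈ Icc a (2 * a) := Ioc_subset_Icc_self hd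
      have q := hDle n d hd'
      rw [Real.norm_eq_abs, abs_of_nonneg (le_max_right _ _)]
      refine max_le ?_ (by positivity)
      have : |D n d| / ‖k n‖ ≤ 2 * L := by
        rw [div_le_iff₀ (hkpos n)]
        exact q
      linarith
    · have hCn : ∀ᵐ d : ℝ, d ∉ C := by
        rw [ae_iff]
        simpa using hC.measure_zero volume
      filter_upwards [hCn] with d hdC hd
      rw [uIoc_of_le ha2] at hd
      have hd' : d ∈ Icc a (2 * a) := Ioc_subset_Icc_self hd
      rw [Metric.tendsto_atTop]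
      intro ε hε
      obtain ⟨s, hs, Hs⟩ := hJ d hd' hdC (b + ε / 2) (by linarith)
      obtain ⟨n0, hn0⟩ := exists_nat_gt (r / 2 / s)
      refine ⟨n0, fun n hn => ?_⟩
      have hns : r / 2 / ((n : ℝ) + 1) ≤ s := by
        rw [div_le_iff₀ (by positivity)]
        rw [div_lt_iff₀ hs] at hn0
        have : (n0 : ℝ) ≤ n := by exact_mod_cast hn
        nlinarith
      have q := Hs (y n) (y' n) (k n) (by linarith [hy n]) (by linarith [hy' n])
        (by linarith [hk n])
      rw [Real.dist_eq, sub_zero, abs_of_nonneg (le_max_right _ _)]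
      refine max_lt ?_ hε
      have : |D n d| / ‖k n‖ ≤ b + ε / 2 := by
        rw [div_le_iff₀ (hkpos n)]
        exact q
      linarith
  rw [intervalIntegral.integral_zero] at hlim
  have hlow : ∀ n, a * (b' - b) ≤ ∫ d in a..(2 * a), G n d := by
    intro n
    have e1 : (1 / a * ∫ d in a..(2 * a), φ d (y n + k n)) - (1 / a * ∫ d in a..(2 * a), φ d (y n))
        - (1 / a * ∫ d in a..(2 * a), φ d (y' n + k n)) + (1 / a * ∫ d in a..(2 * a), φ d (y' n))
        = 1 / a * ∫ d in a..(2 * a), D n d := by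
      simp only [hD]
      rw [intervalIntegral.integral_add
        (((hint _ (hyk n)).sub (hint _ (hy1 n))).sub (hint _ (hyk' n))) (hint _ (hy1' n)),
        intervalIntegral.integral_sub ((hint _ (hyk n)).sub (hint _ (hy1 n))) (hint _ (hyk' n)),
        intervalIntegral.integral_sub (hint _ (hyk n)) (hint _ (hy1 n))]
      ring
    have hb1 := hbig n
    rw [e1, abs_mul, abs_of_nonneg (by positivity : (0 : ℝ) ≤ 1 / a)] at hb1
    have h2 : |∫ d in a..(2 * a), D n d| ≤ ∫ d in a..(2 * a), |D n d| :=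
      intervalIntegral.abs_integral_le_integral_abs ha2
    have h3 : (∫ d in a..(2 * a), |D n d|) ≤ ∫ d in a..(2 * a), (‖k n‖ * (b + G n d)) := by
      refine intervalIntegral.integral_mono_on ha2 (hDi n).abs ?_ ?_
      · exact (continuousOn_const.mul (continuousOn_const.add (hGc n))).intervalIntegrable_of_Icc
          ha2
      · intro d hd
        have h4 : |D n d| / ‖k n‖ - b ≤ G n d := le_max_left _ _
        have h5 : |D n d| / ‖k n‖ ≤ b + G n d := by linarith
        rw [div_le_iff₀ (hkpos n)] at h5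
        linarith
    have h6 : (∫ d in a..(2 * a), (‖k n‖ * (b + G n d))) =
        ‖k n‖ * (a * b + ∫ d in a..(2 * a), G n d) := by
      rw [intervalIntegral.integral_const_mul, intervalIntegral.integral_add
        intervalIntegrable_const ((hGc n).intervalIntegrable_of_Icc ha2),
        intervalIntegral.integral_const]
      simp only [smul_eq_mul]
      ring
    have h7 : b' * ‖k n‖ * a < ‖k n‖ * (a * b + ∫ d in a..(2 * a), G n d) := by
      have : b' * ‖k n‖ < 1 / a * (‖k n‖ * (a * b + ∫ d in a..(2 * a), G n d)) := by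
        refine hb1.trans_le ?_
        gcongr
        linarith
      rw [one_div, inv_mul_eq_div, lt_div_iff₀ ha] at this
      exact this
    have h8 : b' * a < a * b + ∫ d in a..(2 * a), G n d := by
      have : ‖k n‖ * (b' * a) < ‖k n‖ * (a * b + ∫ d in a..(2 * a), G n d) := by linarith
      exact lt_of_mul_lt_mul_left this (hkpos n).le
    linarith
  have := ge_of_tendsto' hlim hlow
  have : 0 < a * (b' - b) := mul_pos ha (by linarith)
  linarith

end Pool.ASP
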