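import Pool.Agent.ASP.LipSup1

set_option autoImplicit false

open MeasureTheory Set Filter Topology

namespace Pool.ASP

variable {E : Type} [NormedAddCommGroup E] [NormedSpace ℝ E] {P : Sys E} (F : Fam P) (B : P.K)

/-- if `u` is in a gap over `x` and `w` is not in the same gap over `y`, then `G` at `(x,u)` is
close to `max u (h_B x)` -/
theorem G_near_max (α : Ordinal.{0}) (hS : ∀ β < α, SupV F B β) {a : ℝ} (ha : 0 < a) (ha1 : a ≤ 1)
    {x y : E} {u w D : ℝ} (hD1 : ‖x - y‖ ≤ D) (hD2 : |u - w| ≤ D)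
    (hne : ∀ β < α, Gap P B β x u → ¬ Gap P B β y w) :
    |G P F.N B α x u a - max u (P.h B x)| ≤ 12 * cc * D := by
  have hcc : (0 : ℝ) < cc := by unfold cc; norm_num
  have hD0 : 0 ≤ D := (norm_nonneg _).trans hD1
  by_cases hg : ∃ β, β < α ∧ Gap P B β x u
  · obtain ⟨β, hβ, hg⟩ := hg
    have hnot := hne β hβ hg
    have hclose := G_close F B α hS ha ha1 hβ hg
    have hmax : max u (P.h B x) = P.h B x := by
      apply max_eq_right
      exact (hg.2.le).trans (hS_le_h B β x)
    rw [hmax]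
    have h1 := abs_le.mp (P.h_lip (P.S B (Order.succ β)) x y)
    have h2 := abs_le.mp (P.h_lip (P.S B β) x y)
    have h3 := abs_le.mp hD2
    rw [Gap, not_and_or, not_lt, not_lt] at hnot
    rcases hnot with hn | hn
    · have h4 : u - P.h (P.S B (Order.succ β)) x ≤ 2 * D := by linarith
      have h5 := mul_le_mul_of_nonneg_left h4 (by positivity : (0 : ℝ) ≤ 6 * cc)
      linarith [hclose.2.1]
    · have h4 : P.h (P.S B β) x - u ≤ 2 * D := by linarith
      have h5 := mul_le_mul_of_nonneg_left h4 (by positivity : (0 : ℝ) ≤ 6 * cc)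
      linarith [hclose.2.2]
  · rw [G_nogap P F.N B a hg, sub_self, abs_zero]
    positivity

theorem lipG_of (α : Ordinal.{0}) (hL : ∀ β < α, LipV F B β) (hS : ∀ β < α, SupV F B β) :
    LipG F B α := by
  intro a ha ha1 x y u w hu hw
  have hcc : (0 : ℝ) < cc := by unfold cc; norm_num
  set D : ℝ := max (TT * ‖x - y‖) |u - w| with hD
  have hD0 : 0 ≤ D := (abs_nonneg _).trans (le_max_right _ _)
  have hxy : ‖x - y‖ ≤ D := by
    refine le_trans ?_ (le_max_left _ _)
    have : 0 ≤ ‖x - y‖ := norm_nonneg _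
    unfold TT
    linarith
  have huw : |u - w| ≤ D := le_max_right _ _
  by_cases hcase : ∃ β, β < α ∧ Gap P B β x u ∧ Gap P B β y w
  · obtain ⟨β, hβ, hg, hg'⟩ := hcase
    have h1 := G_same F B α hL hS ha ha1 hβ hg hg'
    refine h1.trans (mul_le_mul_of_nonneg_right ?_ hD0)
    have h2 : cc * a ^ 2 ≤ a / 2 := by
      unfold cc
      nlinarith
    have h3 := mul_le_mul_of_nonneg_left h2 (by positivity : (0 : ℝ) ≤ 180 * cc)
    unfold KK
    linarith
  · have hne : ∀ β < α, Gap P B β x u → ¬ Gap P B β y w := fun β hβ h1 h2 =>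
      hcase ⟨β, hβ, h1, h2⟩
    have hne' : ∀ β < α, Gap P B β y w → ¬ Gap P B β x u := fun β hβ h1 h2 =>
      hcase ⟨β, hβ, h2, h1⟩
    have h1 := abs_le.mp (G_near_max F B α hS ha ha1 hxy huw hne)
    have hyx : ‖y - x‖ ≤ D := by rw [norm_sub_rev]; exact hxy
    have hwu : |w - u| ≤ D := by rw [abs_sub_comm]; exact huw
    have h2 := abs_le.mp (G_near_max F B α hS ha ha1 hyx hwu hne')
    have h3 : |max u (P.h B x) - max w (P.h B y)| ≤ D := by
      refine (abs_max_sub_max_le_max _ _ _ _).trans (max_le huw ?_)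
      exact (P.h_lip B x y).trans hxy
    have h3' := abs_le.mp h3
    have hKK : 24 * cc ≤ KK a := by
      unfold KK
      have : 0 ≤ 180 * cc * a := by positivity
      linarith
    have h4 := mul_le_mul_of_nonneg_right hKK hD0
    rw [abs_le]
    constructor <;> linarith [h1.1, h1.2, h2.1, h2.2, h3'.1, h3'.2]

end Pool.ASP
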