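import Pool.Agent.ASP.LipSup1

set_option autoImplicit false

open MeasureTheory Set Filter Topology

namespace Pool.ASP

variable {E : Type} [NormedAddCommGroup E] [NormedSpace ℝ E] {P : Sys E} (F : Fam P) (B : P.K)

theorem KK_nonneg' {a : ℝ} (ha : 0 < a) : 0 ≤ KK a := by
  unfold KK cc
  positivity

/-- continuity of `G` in the level, from the Lipschitz property -/
theorem G_contOn_of (α : Ordinal.{0}) (hG : LipG F B α) {a : ℝ} (ha : 0 < a) (ha1 : a ≤ 1)
    (x : E) : ContinuousOn (fun u => G P F.N B α x u a) (Set.Ioi (P.h (P.S B α) x)) := by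
  have hK : 0 ≤ 1 + KK a := by have := KK_nonneg' ha; linarith
  have hlip : LipschitzOnWith (Real.toNNReal (1 + KK a)) (fun u => G P F.N B α x u a)
      (Set.Ioi (P.h (P.S B α) x)) := by
    refine LipschitzOnWith.of_dist_le_mul (fun u hu w hw => ?_)
    rw [Real.dist_eq, Real.dist_eq, Real.coe_toNNReal _ hK]
    have h := hG a ha ha1 x x u w hu hw
    simpa using h
  exact hlip.continuousOn

theorem G_intervalIntegrable (α : Ordinal.{0}) (hG : LipG F B α) {a : ℝ} (ha : 0 < a)
    (ha1 : a ≤ 1) (x : E) (v : ℝ) (hv : P.h (P.S B α) x - 4 / 5 * a < v) :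
    IntervalIntegrable (fun d => G P F.N B α x (v + d) a - d) volume a (2 * a) := by
  apply ContinuousOn.intervalIntegrable
  apply ContinuousOn.sub _ continuousOn_id
  have hc := G_contOn_of F B α hG ha ha1 x
  refine hc.comp (continuous_const.add continuous_id).continuousOn ?_
  intro d hd
  rw [Set.uIcc_of_le (by linarith)] at hd
  simp only [Set.mem_Ioi]
  linarith [hd.1]

theorem lipV_of (α : Ordinal.{0}) (hG : LipG F B α) : LipV F B α := by
  intro a ha ha1 x y v w hv hw
  have hK : 0 ≤ 1 + KK a := by have := KK_nonneg' ha; linarith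
  rw [V_eq, V_eq, ← mul_sub,
    ← intervalIntegral.integral_sub (G_intervalIntegrable F B α hG ha ha1 x v hv)
      (G_intervalIntegrable F B α hG ha ha1 y w hw)]
  have hb : ‖∫ d in a..(2 * a), ((G P F.N B α x (v + d) a - d) - (G P F.N B α y (w + d) a - d))‖
      ≤ ((1 + KK a) * max (TT * ‖x - y‖) |v - w|) * |2 * a - a| := by
    apply intervalIntegral.norm_integral_le_of_norm_le_const
    intro d hd
    rw [Set.uIoc_of_le (by linarith)] at hd
    have h := hG a ha ha1 x y (v + d) (w + d) (by linarith [hd.1]) (by linarith [hd.1])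
    have e1 : (v + d) - (w + d) = v - w := by ring
    have e2 : (G P F.N B α x (v + d) a - d) - (G P F.N B α y (w + d) a - d) =
        G P F.N B α x (v + d) a - G P F.N B α y (w + d) a := by ring
    rw [e1] at h
    rw [e2, Real.norm_eq_abs]
    exact h
  rw [Real.norm_eq_abs] at hb
  have e3 : |2 * a - a| = a := by
    rw [abs_of_nonneg] <;> linarith
  rw [e3] at hb
  rw [abs_mul, abs_of_nonneg (by positivity : (0 : ℝ) ≤ 1 / a)]
  calc 1 / a * |∫ d in a..(2 * a), ((G P F.N B α x (v + d) a - d) - (G P F.N B α y (w + d) a - d))|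
      ≤ 1 / a * (((1 + KK a) * max (TT * ‖x - y‖) |v - w|) * a) := by
        apply mul_le_mul_of_nonneg_left hb (by positivity)
    _ = (1 + KK a) * max (TT * ‖x - y‖) |v - w| := by
        field_simp

/-- Lipschitz bound for the operator at the top, from `LipV` -/
theorem TN_lip_of (hL : LipV F B (P.Θ B)) {a : ℝ} (ha : 0 < a) (ha1 : a ≤ 1) (x y : E) :
    |V P F.N B (P.Θ B) x 0 a - V P F.N B (P.Θ B) y 0 a| ≤ 2 * ‖x - y‖ := by
  have h := hL a ha ha1 x y 0 0 (by rw [P.S_top]; linarith) (by rw [P.S_top]; linarith)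
  have hn := norm_nonneg (x - y)
  have hT : max (TT * ‖x - y‖) |(0 : ℝ) - 0| = TT * ‖x - y‖ := by
    rw [sub_zero, abs_zero]
    apply max_eq_left
    unfold TT
    positivity
  rw [hT] at h
  refine h.trans ?_
  have hk : 1 + KK a ≤ 1 + 204 / 10000 := by
    unfold KK cc
    linarith
  have : (1 + KK a) * TT ≤ 2 := by
    unfold TT
    linarith
  calc (1 + KK a) * (TT * ‖x - y‖) = ((1 + KK a) * TT) * ‖x - y‖ := by ring
    _ ≤ 2 * ‖x - y‖ := mul_le_mul_of_nonneg_right this hn

end Pool.ASP
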