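import Pool.Agent.ASP.SupV
import Pool.Agent.ASP.LipV
import Pool.Agent.ASP.LipSupG

set_option autoImplicit false

open MeasureTheory Set Filter Topology

namespace Pool.ASP

variable {E : Type} [NormedAddCommGroup E] [NormedSpace ℝ E] {P : Sys E} (F : Fam P) (B : P.K)

theorem lipV_supV (α : Ordinal.{0}) : LipV F B α ∧ SupV F B α := by
  induction α using WellFoundedLT.induction with
  | ind α ih =>
    have hG := lipG_of F B α (fun β hβ => (ih β hβ).1) (fun β hβ => (ih β hβ).2)
    exact ⟨lipV_of F B α hG, supV_of F B α hG (fun β hβ => (ih β hβ).2)⟩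

theorem lipV (α : Ordinal.{0}) : LipV F B α := (lipV_supV F B α).1

theorem supV (α : Ordinal.{0}) : SupV F B α := (lipV_supV F B α).2

theorem lipG (α : Ordinal.{0}) : LipG F B α :=
  lipG_of F B α (fun β _ => lipV F B β) (fun β _ => supV F B β)

/-- the operator -/
noncomputable def TN (P : Sys E) (N : P.K → ℝ → E → ℝ) : P.K → ℝ → E → ℝ :=
  fun B a x => V P N B (P.Θ B) x 0 a

theorem TN_close {a : ℝ} (ha : 0 < a) (ha1 : a ≤ 1) (x : E) :
    |TN P F.N B a x - P.h B x| ≤ 3 * a :=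
  TN_close_of F B (supV F B _) ha ha1 x

theorem TN_lip {a : ℝ} (ha : 0 < a) (ha1 : a ≤ 1) (x y : E) :
    |TN P F.N B a x - TN P F.N B a y| ≤ 2 * ‖x - y‖ :=
  TN_lip_of F B (lipV F B _) ha ha1 x y

noncomputable def TFam : Fam P where
  N := TN P F.N
  close := fun B _ ha ha1 x => TN_close F B ha ha1 x
  lip := fun B _ ha ha1 x y => TN_lip F B ha ha1 x y

/-- `G` is continuous in `u` -/
theorem G_continuousOn (α : Ordinal.{0}) {a : ℝ} (ha : 0 < a) (ha1 : a ≤ 1) (x : E) :
    ContinuousOn (fun u => G P F.N B α x u a) (Set.Ioi (P.h (P.S B α) x)) :=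
  G_continuousOn_of F B α (lipG F B α) ha ha1 x

end Pool.ASP
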