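import Pool.Agent.ASP.Weights

set_option autoImplicit false

open MeasureTheory Set Filter Topology

namespace Pool.ASP

variable {E : Type} [NormedAddCommGroup E] [NormedSpace ℝ E] {P : Sys E} (F : Fam P) (B : P.K)

/-- Lipschitz property of `V α` -/
def LipV (α : Ordinal.{0}) : Prop :=
  ∀ a, 0 < a → a ≤ 1 → ∀ (x y : E) (v w : ℝ),
    P.h (P.S B α) x - 4 / 5 * a < v → P.h (P.S B α) y - 4 / 5 * a < w →
    |V P F.N B α x v a - V P F.N B α y w a| ≤ (1 + KK a) * max (TT * ‖x - y‖) |v - w|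

/-- sup estimate for `V α` -/
def SupV (α : Ordinal.{0}) : Prop :=
  ∀ a, 0 < a → a ≤ 1 → ∀ (x : E) (v : ℝ),
    P.h (P.S B α) x - 4 / 5 * a < v → v ≤ P.h B x + a / 5 →
    |V P F.N B α x v a - P.h B x| ≤ 3 * a

/-- Lipschitz property of `G α` -/
def LipG (α : Ordinal.{0}) : Prop :=
  ∀ a, 0 < a → a ≤ 1 → ∀ (x y : E) (u w : ℝ),
    P.h (P.S B α) x < u → P.h (P.S B α) y < w →
    |G P F.N B α x u a - G P F.N B α y w a| ≤ (1 + KK a) * max (TT * ‖x - y‖) |u - w|

theorem hS_le_h (β : Ordinal.{0}) (x : E) : P.h (P.S B β) x ≤ P.h B x := by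
  have h1 := P.S_anti B 0 β x (by simp)
  rw [P.S_zero] at h1
  exact h1

theorem Gap.lt_ends {β : Ordinal.{0}} {x : E} {u : ℝ} (hg : Gap P B β x u) :
    P.h (P.S B (Order.succ β)) x < P.h (P.S B β) x := lt_trans hg.1 hg.2

theorem tt_dom {a : ℝ} (ha : 0 < a) (ha1 : a ≤ 1) {β : Ordinal.{0}} (j : ℕ) {x : E} {u : ℝ}
    (hg : Gap P B β x u) :
    P.h (P.S B β) x - 4 / 5 * aj a j < tt P F.N B a β j x ∧
      tt P F.N B a β j x ≤ P.h B x + aj a j / 5 := by
  have h1 := tt_close F B ha ha1 j (Gap.lt_ends B hg)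
  have h2 := abs_le.mp h1
  have h3 := aj_pos ha j
  have h4 := hS_le_h B β x
  constructor <;> linarith [h2.1, h2.2]

theorem V_close_M {a : ℝ} (ha : 0 < a) (ha1 : a ≤ 1) {β : Ordinal.{0}} (hS : SupV F B β)
    (j : ℕ) {x : E} {u : ℝ} (hg : Gap P B β x u) :
    |V P F.N B β x (tt P F.N B a β j x) (aj a j) - P.h B x| ≤ 3 * aj a j := by
  obtain ⟨h1, h2⟩ := tt_dom F B ha ha1 j hg
  exact hS (aj a j) (aj_pos ha j) (aj_le_one ha ha1 j) x _ h1 h2

/-- in a gap, `G` is within `3 c a^2` and within `6 c m` of `h_B` -/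
theorem G_close (α : Ordinal.{0}) (hS : ∀ β < α, SupV F B β) {a : ℝ} (ha : 0 < a) (ha1 : a ≤ 1)
    {β : Ordinal.{0}} (hβ : β < α) {x : E} {u : ℝ} (hg : Gap P B β x u) :
    |G P F.N B α x u a - P.h B x| ≤ 3 * (cc * a ^ 2) ∧
    |G P F.N B α x u a - P.h B x| ≤ 6 * cc * (u - P.h (P.S B (Order.succ β)) x) ∧
    |G P F.N B α x u a - P.h B x| ≤ 6 * cc * (P.h (P.S B β) x - u) := by
  have hcc : (0 : ℝ) < cc := by unfold cc; norm_num
  rw [G_gap P F.N B a hβ hg]
  refine ⟨?_, ?_, ?_⟩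
  · refine wsum_close F B ha ha1 hg _ _ _ (fun j _ => ?_)
    have h1 := V_close_M F B ha ha1 (hS β hβ) j hg
    have h2 := aj_le_zero ha j
    linarith
  · refine wsum_close F B ha ha1 hg _ _ _ (fun j hj => ?_)
    have h1 := V_close_M F B ha ha1 (hS β hβ) j hg
    have h2 := aj_le_rho ha ha1 j
    have h3 := (rho_le_of_chi F B ha ha1 j hg hj).1
    have h4 := mul_le_mul_of_nonneg_left h3 hcc.le
    linarith
  · refine wsum_close F B ha ha1 hg _ _ _ (fun j hj => ?_)
    have h1 := V_close_M F B ha ha1 (hS β hβ) j hg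
    have h2 := aj_le_rho ha ha1 j
    have h3 := (rho_le_of_chi F B ha ha1 j hg hj).2
    have h4 := mul_le_mul_of_nonneg_left h3 hcc.le
    linarith

/-- two points in the same gap -/
theorem G_same (α : Ordinal.{0}) (hL : ∀ β < α, LipV F B β) (hS : ∀ β < α, SupV F B β)
    {a : ℝ} (ha : 0 < a) (ha1 : a ≤ 1)
    {β : Ordinal.{0}} (hβ : β < α) {x y : E} {u w : ℝ}
    (hg : Gap P B β x u) (hg' : Gap P B β y w) :
    |G P F.N B α x u a - G P F.N B α y w a| ≤
      (1 + KK (cc * a ^ 2) + 90 * cc * a) * max (TT * ‖x - y‖) |u - w| := by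
  have hcc : (0 : ℝ) < cc := by unfold cc; norm_num
  set d : ℝ := max (TT * ‖x - y‖) |u - w| with hd
  have hd0 : 0 ≤ d := le_trans (abs_nonneg _) (le_max_right _ _)
  rw [G_gap P F.N B a hβ hg, G_gap P F.N B a hβ hg']
  obtain ⟨J1, hJ1⟩ := chi_eventually F B ha ha1 hg
  obtain ⟨J2, hJ2⟩ := chi_eventually F B ha ha1 hg'
  set J := max J1 J2 with hJ
  set χ : ℕ → ℝ := fun j => chi P F.N B a β j x u with hχ
  set χ' : ℕ → ℝ := fun j => chi P F.N B a β j y w with hχ'
  set W : ℕ → ℝ := fun j => V P F.N B β x (tt P F.N B a β j x) (aj a j) with hW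
  set W' : ℕ → ℝ := fun j => V P F.N B β y (tt P F.N B a β j y) (aj a j) with hW'
  have h1 : ∀ j, J ≤ j → χ j = 1 := fun j hj => hJ1 j (le_trans (le_max_left _ _) hj)
  have h2 : ∀ j, J ≤ j → χ' j = 1 := fun j hj => hJ2 j (le_trans (le_max_right _ _) hj)
  have e1 : (∑' j, wt P F.N B a β j x u * W j) =
      ∑ j ∈ Finset.range (J + 1), (χ j - (if j = 0 then 0 else χ (j - 1))) * W j :=
    weights_tsum χ W J h1
  have e2 : (∑' j, wt P F.N B a β j x u * W' j) =
      ∑ j ∈ Finset.range (J + 1), (χ j - (if j = 0 then 0 else χ (j - 1))) * W' j :=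
    weights_tsum χ W' J h1
  have e3 : (∑' j, wt P F.N B a β j x u * (W j - W' j)) =
      ∑ j ∈ Finset.range (J + 1), (χ j - (if j = 0 then 0 else χ (j - 1))) * (W j - W' j) :=
    weights_tsum χ (fun j => W j - W' j) J h1
  have e4 : (∑' j, wt P F.N B a β j x u * W' j) =
      W' J + ∑ j ∈ Finset.range J, χ j * (W' j - W' (j + 1)) := abel_tsum χ W' J h1
  have e5 : (∑' j, wt P F.N B a β j y w * W' j) =
      W' J + ∑ j ∈ Finset.range J, χ' j * (W' j - W' (j + 1)) := abel_tsum χ' W' J h2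
  have e6 : (∑' j, wt P F.N B a β j x u * W j) - (∑' j, wt P F.N B a β j x u * W' j) =
      ∑' j, wt P F.N B a β j x u * (W j - W' j) := by
    rw [e1, e2, e3, ← Finset.sum_sub_distrib]
    refine Finset.sum_congr rfl (fun j _ => ?_)
    ring
  have e7 : (∑' j, wt P F.N B a β j x u * W' j) - (∑' j, wt P F.N B a β j y w * W' j) =
      ∑ j ∈ Finset.range J, (χ j - χ' j) * (W' j - W' (j + 1)) := by
    rw [e4, e5, add_sub_add_left_eq_sub, ← Finset.sum_sub_distrib]
    refine Finset.sum_congr rfl (fun j _ => ?_)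
    ring
  -- first part
  have hKK0 : 0 ≤ 1 + KK (cc * a ^ 2) := by
    unfold KK
    positivity
  have f1 : |∑' j, wt P F.N B a β j x u * (W j - W' j)| ≤ (1 + KK (cc * a ^ 2)) * d := by
    have h := wsum_close F B ha ha1 hg (fun j => W j - W' j) 0 ((1 + KK (cc * a ^ 2)) * d)
      (fun j _ => ?_)
    · simpa using h
    · rw [sub_zero]
      have g1 := hL β hβ (aj a j) (aj_pos ha j) (aj_le_one ha ha1 j) x y
        (tt P F.N B a β j x) (tt P F.N B a β j y) (tt_dom F B ha ha1 j hg).1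
        (tt_dom F B ha ha1 j hg').1
      have g2 := tt_lip F B ha ha1 β j x y
      have g3 : max (TT * ‖x - y‖) |tt P F.N B a β j x - tt P F.N B a β j y| ≤ d :=
        max_le (le_max_left _ _) (le_trans g2 (le_max_left _ _))
      have g4 : (1 + KK (aj a j)) ≤ 1 + KK (cc * a ^ 2) := by
        have := aj_le_zero ha j
        unfold KK
        have h5 := mul_le_mul_of_nonneg_left this (by positivity : (0 : ℝ) ≤ 180 * cc)
        linarith
      have g5 : 0 ≤ max (TT * ‖x - y‖) |tt P F.N B a β j x - tt P F.N B a β j y| :=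
        le_trans (abs_nonneg _) (le_max_right _ _)
      calc |W j - W' j| ≤ (1 + KK (aj a j)) *
            max (TT * ‖x - y‖) |tt P F.N B a β j x - tt P F.N B a β j y| := g1
        _ ≤ (1 + KK (cc * a ^ 2)) *
            max (TT * ‖x - y‖) |tt P F.N B a β j x - tt P F.N B a β j y| :=
              mul_le_mul_of_nonneg_right g4 g5
        _ ≤ (1 + KK (cc * a ^ 2)) * d := mul_le_mul_of_nonneg_left g3 hKK0
  -- second part
  have f2 : |∑ j ∈ Finset.range J, (χ j - χ' j) * (W' j - W' (j + 1))| ≤ 90 * cc * a * d := by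
    calc |∑ j ∈ Finset.range J, (χ j - χ' j) * (W' j - W' (j + 1))|
        ≤ ∑ j ∈ Finset.range J, |(χ j - χ' j) * (W' j - W' (j + 1))| :=
          Finset.abs_sum_le_sum_abs _ _
      _ ≤ ∑ j ∈ Finset.range J, 45 * d * (aj a j / rho a j) := by
          refine Finset.sum_le_sum (fun j _ => ?_)
          rw [abs_mul]
          have k1 : |χ j - χ' j| ≤ 15 / 2 * d / rho a j := chi_lip F B ha ha1 β j x y u w
          have k2 := V_close_M F B ha ha1 (hS β hβ) j hg'
          have k3 := V_close_M F B ha ha1 (hS β hβ) (j + 1) hg'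
          have k4 := aj_succ_le ha j
          have k5 : |W' j - W' (j + 1)| ≤ 6 * aj a j := by
            have k6 := abs_le.mp k2
            have k7 := abs_le.mp k3
            refine abs_le.mpr ⟨?_, ?_⟩
            · simp only [hW']
              linarith [k6.1, k6.2, k7.1, k7.2]
            · simp only [hW']
              linarith [k6.1, k6.2, k7.1, k7.2]
          have hr := rho_pos ha j
          calc |χ j - χ' j| * |W' j - W' (j + 1)|
              ≤ (15 / 2 * d / rho a j) * (6 * aj a j) :=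
                mul_le_mul k1 k5 (abs_nonneg _) (by positivity)
            _ = 45 * d * (aj a j / rho a j) := by ring
      _ = 45 * d * ∑ j ∈ Finset.range J, aj a j / rho a j := by rw [Finset.mul_sum]
      _ ≤ 45 * d * (2 * cc * a) :=
          mul_le_mul_of_nonneg_left (sum_aj_div_rho ha J) (by positivity)
      _ = 90 * cc * a * d := by ring
  have e8 : (∑' j, wt P F.N B a β j x u * W j) - (∑' j, wt P F.N B a β j y w * W' j) =
      (∑' j, wt P F.N B a β j x u * (W j - W' j)) +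
        ∑ j ∈ Finset.range J, (χ j - χ' j) * (W' j - W' (j + 1)) := by
    rw [← e6, ← e7]
    ring
  calc |(∑' j, wt P F.N B a β j x u * W j) - (∑' j, wt P F.N B a β j y w * W' j)|
      = |(∑' j, wt P F.N B a β j x u * (W j - W' j)) +
        ∑ j ∈ Finset.range J, (χ j - χ' j) * (W' j - W' (j + 1))| := by rw [e8]
    _ ≤ |∑' j, wt P F.N B a β j x u * (W j - W' j)| +
        |∑ j ∈ Finset.range J, (χ j - χ' j) * (W' j - W' (j + 1))| := abs_add_le _ _
    _ ≤ (1 + KK (cc * a ^ 2)) * d + 90 * cc * a * d := add_le_add f1 f2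
    _ = (1 + KK (cc * a ^ 2) + 90 * cc * a) * d := by ring

end Pool.ASP
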