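import Pool.Agent.ASP.Fix
import Pool.Agent.ASP.HCount
import Pool.Agent.ASP.JCalc
import Pool.Agent.ASP.JCalcAvg
import Pool.Agent.ASP.JC1

set_option autoImplicit false

open MeasureTheory Set Filter Topology

namespace Pool.ASP

variable {E : Type} [NormedAddCommGroup E] [NormedSpace ℝ E] {P : Sys E}

theorem mj_lip_mono {φ : E → ℝ} {x0 : E} {L M : ℝ} (h : LipNear φ x0 L) (hLM : L ≤ M) :
    LipNear φ x0 M := by
  obtain ⟨r, hr, h⟩ := h
  exact ⟨r, hr, fun y z hy hz =>
    (h y z hy hz).trans (mul_le_mul_of_nonneg_right hLM (norm_nonneg _))⟩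

theorem mj_lip_of_ev {φ : E → ℝ} {x0 : E} {L : ℝ} (p : E → Prop) (hp : ∀ᶠ x in 𝓝 x0, p x)
    (h : ∀ y z, p y → p z → |φ y - φ z| ≤ L * ‖y - z‖) : LipNear φ x0 L := by
  obtain ⟨r, hr, hr2⟩ := Metric.eventually_nhds_iff.mp hp
  refine ⟨r, hr, fun y z hy hz => h y z (hr2 ?_) (hr2 ?_)⟩
  · rwa [dist_eq_norm]
  · rwa [dist_eq_norm]

theorem mj_ev_ball (x0 : E) {r : ℝ} (hr : 0 < r) : ∀ᶠ x in 𝓝 x0, ‖x - x0‖ < r := by
  refine Metric.eventually_nhds_iff.mpr ⟨r, hr, fun y hy => ?_⟩
  rwa [dist_eq_norm] at hy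

theorem mj_lip_common (χ : ℕ → E → ℝ) (x0 : E) (h : ∀ j, ∃ L, LipNear (χ j) x0 L) (J : ℕ) :
    ∃ L, ∀ j ≤ J, LipNear (χ j) x0 L := by
  induction J with
  | zero =>
    obtain ⟨L, hL⟩ := h 0
    refine ⟨L, fun j hj => ?_⟩
    rw [Nat.le_zero.mp hj]
    exact hL
  | succ J ih =>
    obtain ⟨L, hL⟩ := ih
    obtain ⟨M, hM⟩ := h (J + 1)
    refine ⟨max L M, fun j hj => ?_⟩
    rcases Nat.lt_or_ge j (J + 1) with h1 | h1
    · exact mj_lip_mono (hL j (Nat.lt_succ_iff.mp h1)) (le_max_left _ _)
    · have : j = J + 1 := le_antisymm hj h1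
      rw [this]
      exact mj_lip_mono hM (le_max_right _ _)

theorem mj_h_cont (P : Sys E) (B : P.K) : Continuous (P.h B) := by
  refine (LipschitzWith.of_dist_le_mul (K := 1) fun x y => ?_).continuous
  rw [Real.dist_eq, dist_eq_norm, NNReal.coe_one, one_mul]
  exact P.h_lip B x y

theorem mj_gap_ev (B : P.K) {β : Ordinal.{0}} {x0 : E} {u : E → ℝ} (hu : ContinuousAt u x0)
    (hg : Gap P B β x0 (u x0)) : ∀ᶠ x in 𝓝 x0, Gap P B β x (u x) := by
  have h1 : ∀ᶠ x in 𝓝 x0, P.h (P.S B (Order.succ β)) x < u x :=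
    (mj_h_cont P _).continuousAt.eventually_lt hu hg.1
  have h2 : ∀ᶠ x in 𝓝 x0, u x < P.h (P.S B β) x :=
    hu.eventually_lt (mj_h_cont P _).continuousAt hg.2
  filter_upwards [h1, h2] with x hx1 hx2
  exact ⟨hx1, hx2⟩

theorem mj_TT_pos : 0 < TT := by
  unfold TT
  norm_num

/-- `JB` of the cut-off functions -/
theorem mj_JB_chi (F : Fam P) (B : P.K) {om : ℝ} (hom : 0 ≤ om)
    (hJ : ∀ B a x0, 0 < a → a ≤ 1 → JB (F.N B a) x0 om)
    {a : ℝ} (ha : 0 < a) (ha1 : a ≤ 1) (β : Ordinal.{0}) (j : ℕ) (x0 : E) (u : E → ℝ) {L : ℝ}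
    (hu : LipNear u x0 L) {jv : ℝ} (hjv : 0 ≤ jv) (hub : JB u x0 jv) :
    JB (fun x => chi P F.N B a β j x (u x)) x0 (3 * (jv + om) / rho a j) := by
  have hρ := rho_pos ha j
  have hτ := tau_pos ha j
  have hτ1 := tau_le_one ha ha1 j
  -- the two inner functions
  have hb : JB (fun x => bb P F.N B a β j x) x0 om := hJ _ _ x0 hτ hτ1
  have ht : JB (fun x => tt P F.N B a β j x) x0 (om / 100) := by
    have h1 := (JB_linear (P.f B β) x0).add ((hJ (P.C B β) (tau a j) x0 hτ hτ1).const_mul (1 / 100))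
    refine JB.mono h1 ?_
    rw [abs_of_pos (by norm_num : (0 : ℝ) < 1 / 100)]
    linarith
  have hneg : ∀ (φ : E → ℝ) (b : ℝ), JB φ x0 b → JB (fun x => (-1) * φ x) x0 b := by
    intro φ b h
    have := h.const_mul (-1)
    simpa using this
  have h1 : JB (fun x => (1 / rho a j) * (u x + (-1) * bb P F.N B a β j x)) x0
      ((jv + om) / rho a j) := by
    refine JB.mono ((hub.add (hneg _ _ hb)).const_mul (1 / rho a j)) (le_of_eq ?_)
    rw [abs_of_pos (by positivity : (0 : ℝ) < 1 / rho a j)]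
    ring
  have h2 : JB (fun x => (1 / rho a j) * (tt P F.N B a β j x + (-1) * u x)) x0
      ((om / 100 + jv) / rho a j) := by
    refine JB.mono ((ht.add (hneg _ _ hub)).const_mul (1 / rho a j)) (le_of_eq ?_)
    rw [abs_of_pos (by positivity : (0 : ℝ) < 1 / rho a j)]
    ring
  obtain ⟨r, hr, hur⟩ := hu
  have l1 : LipNear (fun x => (1 / rho a j) * (u x + (-1) * bb P F.N B a β j x)) x0
      ((L + 2) / rho a j) := by
    refine ⟨r, hr, fun y z hy hz => ?_⟩
    have e1 := hur y z hy hz
    have e2 := bb_lip F B ha ha1 β j y z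
    have e3 : (1 / rho a j) * (u y + (-1) * bb P F.N B a β j y) -
        (1 / rho a j) * (u z + (-1) * bb P F.N B a β j z) =
        ((u y - u z) - (bb P F.N B a β j y - bb P F.N B a β j z)) / rho a j := by
      ring
    rw [e3, abs_div, abs_of_pos hρ, div_mul_eq_mul_div]
    refine div_le_div_of_nonneg_right ?_ hρ.le
    calc |(u y - u z) - (bb P F.N B a β j y - bb P F.N B a β j z)|
        ≤ |u y - u z| + |bb P F.N B a β j y - bb P F.N B a β j z| := abs_sub _ _
      _ ≤ L * ‖y - z‖ + 2 * ‖y - z‖ := add_le_add e1 e2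
      _ = (L + 2) * ‖y - z‖ := by ring
  have l2 : LipNear (fun x => (1 / rho a j) * (tt P F.N B a β j x + (-1) * u x)) x0
      ((TT + L) / rho a j) := by
    refine ⟨r, hr, fun y z hy hz => ?_⟩
    have e1 := hur y z hy hz
    have e2 := tt_lip F B ha ha1 β j y z
    have e3 : (1 / rho a j) * (tt P F.N B a β j y + (-1) * u y) -
        (1 / rho a j) * (tt P F.N B a β j z + (-1) * u z) =
        ((tt P F.N B a β j y - tt P F.N B a β j z) - (u y - u z)) / rho a j := by
      ring
    rw [e3, abs_div, abs_of_pos hρ, div_mul_eq_mul_div]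
    refine div_le_div_of_nonneg_right ?_ hρ.le
    calc |(tt P F.N B a β j y - tt P F.N B a β j z) - (u y - u z)|
        ≤ |tt P F.N B a β j y - tt P F.N B a β j z| + |u y - u z| := abs_sub _ _
      _ ≤ TT * ‖y - z‖ + L * ‖y - z‖ := add_le_add e2 e1
      _ = (TT + L) * ‖y - z‖ := by ring
  have c1 := JB.comp l1 h1 th (fun s => 6 * max 0 ((s - 1) * (2 - s))) th_hasDerivAt
    th_deriv_continuous
  have c2 := JB.comp l2 h2 th (fun s => 6 * max 0 ((s - 1) * (2 - s))) th_hasDerivAt
    th_deriv_continuous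
  have m1 : LipNear (fun x => th ((1 / rho a j) * (u x + (-1) * bb P F.N B a β j x))) x0
      (3 / 2 * ((L + 2) / rho a j)) := by
    obtain ⟨s, hs, hl⟩ := l1
    refine ⟨s, hs, fun y z hy hz => ?_⟩
    refine (th_lip _ _).trans ?_
    rw [mul_assoc]
    exact mul_le_mul_of_nonneg_left (hl y z hy hz) (by norm_num)
  have m2 : LipNear (fun x => th ((1 / rho a j) * (tt P F.N B a β j x + (-1) * u x))) x0
      (3 / 2 * ((TT + L) / rho a j)) := by
    obtain ⟨s, hs, hl⟩ := l2
    refine ⟨s, hs, fun y z hy hz => ?_⟩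
    refine (th_lip _ _).trans ?_
    rw [mul_assoc]
    exact mul_le_mul_of_nonneg_left (hl y z hy hz) (by norm_num)
  have key := JB.mul m1 m2 c1 c2
  have hfun : (fun x => chi P F.N B a β j x (u x)) =
      (fun x => th ((1 / rho a j) * (u x + (-1) * bb P F.N B a β j x)) *
        th ((1 / rho a j) * (tt P F.N B a β j x + (-1) * u x))) := by
    funext x
    unfold chi
    congr 2 <;> ring
  rw [hfun]
  refine JB.mono key ?_
  have b1 : |th ((1 / rho a j) * (tt P F.N B a β j x0 + (-1) * u x0))| ≤ 1 := by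
    rw [abs_of_nonneg (th_nonneg _)]
    exact th_le_one _
  have b2 : |th ((1 / rho a j) * (u x0 + (-1) * bb P F.N B a β j x0))| ≤ 1 := by
    rw [abs_of_nonneg (th_nonneg _)]
    exact th_le_one _
  have b3 := th_deriv_le ((1 / rho a j) * (u x0 + (-1) * bb P F.N B a β j x0))
  have b4 := th_deriv_le ((1 / rho a j) * (tt P F.N B a β j x0 + (-1) * u x0))
  have p1 : 0 ≤ (jv + om) / rho a j := by positivity
  have p2 : 0 ≤ (om / 100 + jv) / rho a j := by positivity
  have q1 : |th ((1 / rho a j) * (tt P F.N B a β j x0 + (-1) * u x0))| *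
      (|6 * max 0 (((1 / rho a j) * (u x0 + (-1) * bb P F.N B a β j x0) - 1) *
        (2 - (1 / rho a j) * (u x0 + (-1) * bb P F.N B a β j x0)))| * ((jv + om) / rho a j)) ≤
      1 * (3 / 2 * ((jv + om) / rho a j)) :=
    mul_le_mul b1 (mul_le_mul_of_nonneg_right b3 p1) (by positivity) (by norm_num)
  have q2 : |th ((1 / rho a j) * (u x0 + (-1) * bb P F.N B a β j x0))| *
      (|6 * max 0 (((1 / rho a j) * (tt P F.N B a β j x0 + (-1) * u x0) - 1) *
        (2 - (1 / rho a j) * (tt P F.N B a β j x0 + (-1) * u x0)))| *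
          ((om / 100 + jv) / rho a j)) ≤
      1 * (3 / 2 * ((om / 100 + jv) / rho a j)) :=
    mul_le_mul b2 (mul_le_mul_of_nonneg_right b4 p2) (by positivity) (by norm_num)
  have q3 : 1 * (3 / 2 * ((jv + om) / rho a j)) + 1 * (3 / 2 * ((om / 100 + jv) / rho a j)) ≤
      3 * (jv + om) / rho a j := by
    have : 1 * (3 / 2 * ((jv + om) / rho a j)) + 1 * (3 / 2 * ((om / 100 + jv) / rho a j)) =
        (3 / 2 * (jv + om) + 3 / 2 * (om / 100 + jv)) / rho a j := by
      ring
    rw [this]
    refine div_le_div_of_nonneg_right ?_ hρ.le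
    linarith
  exact (add_le_add q1 q2).trans q3

theorem mj_tt_JB (F : Fam P) (B : P.K) {om : ℝ}
    (hJ : ∀ B a x0, 0 < a → a ≤ 1 → JB (F.N B a) x0 om)
    {a : ℝ} (ha : 0 < a) (ha1 : a ≤ 1) (β : Ordinal.{0}) (j : ℕ) (x0 : E) :
    JB (fun x => tt P F.N B a β j x) x0 (om / 100) := by
  have hτ := tau_pos ha j
  have hτ1 := tau_le_one ha ha1 j
  have h1 := (JB_linear (P.f B β) x0).add ((hJ (P.C B β) (tau a j) x0 hτ hτ1).const_mul (1 / 100))
  refine JB.mono h1 ?_
  rw [abs_of_pos (by norm_num : (0 : ℝ) < 1 / 100)]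
  linarith

/-- the slices -/
theorem mj_slice (F : Fam P) (om : ℝ) (hom : 0 ≤ om)
    (hJ : ∀ B a x0, 0 < a → a ≤ 1 → JB (F.N B a) x0 om) (B : P.K) (α : Ordinal.{0})
    (IH : ∀ β < α, ∀ a, 0 < a → a ≤ 1 → ∀ (x0 : E) (v : E → ℝ) (L : ℝ), LipNear v x0 L →
      P.h (P.S B β) x0 - 4 / 5 * a < v x0 → ∀ jv, 0 ≤ jv → JB v x0 jv →
      JB (fun x => V P F.N B β x (v x) a) x0 (max jv (om / 100) + 72 * cc * a * (jv + om)))
    {a : ℝ} (ha : 0 < a) (ha1 : a ≤ 1) (x0 : E) (u : E → ℝ) (L : ℝ) (hu : LipNear u x0 L)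
    (h0 : P.h (P.S B α) x0 < u x0) (hpos : 0 < u x0) (jv : ℝ) (hjv : 0 ≤ jv) (hub : JB u x0 jv)
    (hn : u x0 ∉ HS P B x0) :
    JB (fun x => G P F.N B α x (u x) a) x0 (max jv (om / 100) + 72 * cc * a * (jv + om)) := by
  have hcc : 0 < cc := by unfold cc; norm_num
  have hcont := hu.continuousAt
  have hextra : 0 ≤ 72 * cc * a * (jv + om) := by positivity
  rcases lt_or_ge (P.h B x0) (u x0) with hcase | hcase
  · -- above `h_B`
    have hev : ∀ᶠ x in 𝓝 x0, P.h B x < u x :=
      (mj_h_cont P B).continuousAt.eventually_lt hcont hcase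
    refine JB.mono (JB.congr hub ?_) ((le_max_left jv (om / 100)).trans (le_add_of_nonneg_right hextra))
    filter_upwards [hev] with x hx
    rw [G_nogap, max_eq_left hx.le]
    rintro ⟨β, _, hβ⟩
    have h1 := P.S_anti B 0 β x (bot_le)
    rw [P.S_zero] at h1
    linarith [hβ.2]
  · obtain ⟨β, hβ⟩ := exists_gap P B hpos hcase hn
    have hβα : β < α := Gap.lt P B h0 hβ
    have hgev := mj_gap_ev B hcont hβ
    -- a uniform `J`
    obtain ⟨J, hJ1⟩ : ∃ J : ℕ, ∀ᶠ x in 𝓝 x0, ∀ j, J ≤ j → chi P F.N B a β j x (u x) = 1 := by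
      set m := min (u x0 - P.h (P.S B (Order.succ β)) x0) (P.h (P.S B β) x0 - u x0) with hm
      have hm0 : 0 < m := lt_min (by linarith [hβ.1]) (by linarith [hβ.2])
      obtain ⟨J, hJm⟩ := exists_pow_lt_of_lt_one (show 0 < m / (6 * a) by positivity)
        (show (1 / 2 : ℝ) < 1 by norm_num)
      have hρJ : 3 * rho a J < m / 2 := by
        have e1 : rho a J = a * (1 / 2) ^ J := by
          unfold rho
          rw [one_div, inv_pow]
          rfl
        rw [e1]
        have e2 : (1 / 2 : ℝ) ^ J * (6 * a) < m := by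
          rwa [lt_div_iff₀ (by positivity)] at hJm
        linarith
      have hc1 : ContinuousAt (fun x => u x - P.h (P.S B (Order.succ β)) x) x0 :=
        hcont.sub (mj_h_cont P _).continuousAt
      have hc2 : ContinuousAt (fun x => P.h (P.S B β) x - u x) x0 :=
        (mj_h_cont P _).continuousAt.sub hcont
      have hv1 : ∀ᶠ x in 𝓝 x0, m / 2 < u x - P.h (P.S B (Order.succ β)) x :=
        continuousAt_const.eventually_lt hc1 (by
          have := min_le_left (u x0 - P.h (P.S B (Order.succ β)) x0) (P.h (P.S B β) x0 - u x0)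
          linarith)
      have hv2 : ∀ᶠ x in 𝓝 x0, m / 2 < P.h (P.S B β) x - u x :=
        continuousAt_const.eventually_lt hc2 (by
          have := min_le_right (u x0 - P.h (P.S B (Order.succ β)) x0) (P.h (P.S B β) x0 - u x0)
          linarith)
      refine ⟨J, ?_⟩
      filter_upwards [hgev, hv1, hv2] with x hx h1 h2 j hj
      have hle : rho a j ≤ rho a J := by
        unfold rho
        exact div_le_div_of_nonneg_left ha.le (by positivity)
          (pow_le_pow_right₀ (by norm_num) hj)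
      exact chi_eq_one F B ha ha1 j hx (by linarith) (by linarith)
    -- rewrite as a finite sum near `x0`
    have hfin : ∀ᶠ x in 𝓝 x0, (∑ j ∈ Finset.range (J + 1),
        (chi P F.N B a β j x (u x) - (if j = 0 then 0 else chi P F.N B a β (j - 1) x (u x))) *
          V P F.N B β x (tt P F.N B a β j x) (aj a j)) = G P F.N B α x (u x) a := by
      filter_upwards [hgev, hJ1] with x hx hJx
      rw [G_gap P F.N B a hβα hx]
      exact (weights_tsum (fun j => chi P F.N B a β j x (u x))
        (fun j => V P F.N B β x (tt P F.N B a β j x) (aj a j)) J hJx).symm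
    refine JB.congr ?_ hfin
    -- data for `JB_weights`
    have hhβ : ∀ᶠ x in 𝓝 x0, P.h (P.S B (Order.succ β)) x < P.h (P.S B β) x := by
      filter_upwards [hgev] with x hx
      exact hx.1.trans hx.2
    have hχL : ∀ j, ∃ L', LipNear (fun x => chi P F.N B a β j x (u x)) x0 L' := by
      intro j
      obtain ⟨r, hr, hur⟩ := hu
      refine ⟨15 / 2 * (TT + |L|) / rho a j, r, hr, fun y z hy hz => ?_⟩
      have hρ := rho_pos ha j
      refine (chi_lip F B ha ha1 β j y z (u y) (u z)).trans ?_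
      have e0 : 15 / 2 * (TT + |L|) / rho a j * ‖y - z‖ =
          15 / 2 * ((TT + |L|) * ‖y - z‖) / rho a j := by ring
      rw [e0]
      refine div_le_div_of_nonneg_right ?_ hρ.le
      refine mul_le_mul_of_nonneg_left ?_ (by norm_num)
      have hTT := mj_TT_pos
      refine max_le ?_ ?_
      · exact mul_le_mul_of_nonneg_right (le_add_of_nonneg_right (abs_nonneg _)) (norm_nonneg _)
      · refine (hur y z hy hz).trans (mul_le_mul_of_nonneg_right ?_ (norm_nonneg _))
        linarith [le_abs_self L]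
    have hdom : ∀ j, ∀ x, P.h (P.S B (Order.succ β)) x < P.h (P.S B β) x →
        P.h (P.S B β) x - 4 / 5 * aj a j < tt P F.N B a β j x := by
      intro j x hx
      have h1 := tt_close F B ha ha1 j hx
      have h2 := aj_pos ha j
      rw [abs_le] at h1
      linarith [h1.1]
    have hWL : ∀ j, ∃ L', LipNear (fun x => V P F.N B β x (tt P F.N B a β j x) (aj a j)) x0 L' := by
      intro j
      refine ⟨(1 + KK (aj a j)) * TT, mj_lip_of_ev _ hhβ fun y z hy hz => ?_⟩
      refine (lipV F B β (aj a j) (aj_pos ha j) (aj_le_one ha ha1 j) y z _ _ (hdom j y hy)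
        (hdom j z hz)).trans ?_
      have hKK : 0 ≤ 1 + KK (aj a j) := by
        unfold KK
        have := aj_pos ha j
        positivity
      rw [mul_assoc]
      refine mul_le_mul_of_nonneg_left ?_ hKK
      exact max_le le_rfl (tt_lip F B ha ha1 β j y z)
    obtain ⟨L1, hL1⟩ := mj_lip_common (fun j x => chi P F.N B a β j x (u x)) x0 hχL J
    obtain ⟨L2, hL2⟩ := mj_lip_common
      (fun j x => V P F.N B β x (tt P F.N B a β j x) (aj a j)) x0 hWL J
    have hJW : ∀ j, JB (fun x => V P F.N B β x (tt P F.N B a β j x) (aj a j)) x0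
        (om / 100 + 72 * cc * (cc * a ^ 2) * (om / 100 + om)) := by
      intro j
      have htL : LipNear (fun x => tt P F.N B a β j x) x0 TT :=
        ⟨1, one_pos, fun y z _ _ => tt_lip F B ha ha1 β j y z⟩
      have h1 := IH β hβα (aj a j) (aj_pos ha j) (aj_le_one ha ha1 j) x0
        (fun x => tt P F.N B a β j x) TT htL (hdom j x0 (hβ.1.trans hβ.2)) (om / 100)
        (by positivity) (mj_tt_JB F B hJ ha ha1 β j x0)
      refine JB.mono h1 ?_
      rw [max_self]
      have h2 := aj_le_zero ha j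
      have h3 : 72 * cc * aj a j * (om / 100 + om) ≤ 72 * cc * (cc * a ^ 2) * (om / 100 + om) := by
        refine mul_le_mul_of_nonneg_right ?_ (by positivity)
        exact mul_le_mul_of_nonneg_left h2 (by positivity)
      linarith
    have hmono : ∀ j ≤ J, (if j = 0 then 0 else chi P F.N B a β (j - 1) x0 (u x0)) ≤
        chi P F.N B a β j x0 (u x0) := by
      intro j _
      have := wt_nonneg F B ha ha1 j hβ
      unfold wt at this
      linarith
    have key := JB_weights (J := J) (fun j x => chi P F.N B a β j x (u x))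
      (fun j x => V P F.N B β x (tt P F.N B a β j x) (aj a j)) x0
      (fun j => 3 * (jv + om) / rho a j) (max L1 L2)
      (om / 100 + 72 * cc * (cc * a ^ 2) * (om / 100 + om))
      (fun j hj => mj_lip_mono (hL1 j hj) (le_max_left _ _))
      (fun j hj => mj_lip_mono (hL2 j hj) (le_max_right _ _))
      (fun j _ => mj_JB_chi F B hom hJ ha ha1 β j x0 u hu hjv hub)
      (fun j _ => hJW j)
      (by filter_upwards [hJ1] with x hx; exact hx J le_rfl)
      hmono
    refine JB.mono key ?_
    -- the numbers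
    have hdiff : ∀ j, |V P F.N B β x0 (tt P F.N B a β j x0) (aj a j) -
        V P F.N B β x0 (tt P F.N B a β (j + 1) x0) (aj a (j + 1))| ≤ 6 * aj a j := by
      intro j
      have hsup : ∀ i, |V P F.N B β x0 (tt P F.N B a β i x0) (aj a i) - P.h B x0| ≤ 3 * aj a i := by
        intro i
        refine supV F B β (aj a i) (aj_pos ha i) (aj_le_one ha ha1 i) x0 _
          (hdom i x0 (hβ.1.trans hβ.2)) ?_
        have h1 := tt_close F B ha ha1 i (hβ.1.trans hβ.2)
        have h2 := aj_pos ha i
        have h3 := P.S_anti B 0 β x0 bot_le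
        rw [P.S_zero] at h3
        rw [abs_le] at h1
        linarith [h1.2]
      have h1 := hsup j
      have h2 := hsup (j + 1)
      have h3 := aj_succ_le ha j
      rw [abs_le] at h1 h2 ⊢
      constructor <;> linarith [h1.1, h1.2, h2.1, h2.2]
    have hsum : ∑ j ∈ Finset.range J, 3 * (jv + om) / rho a j *
        |V P F.N B β x0 (tt P F.N B a β j x0) (aj a j) -
          V P F.N B β x0 (tt P F.N B a β (j + 1) x0) (aj a (j + 1))| ≤
        18 * (jv + om) * (2 * cc * a) := by
      have h1 : ∑ j ∈ Finset.range J, 3 * (jv + om) / rho a j *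
          |V P F.N B β x0 (tt P F.N B a β j x0) (aj a j) -
            V P F.N B β x0 (tt P F.N B a β (j + 1) x0) (aj a (j + 1))| ≤
          ∑ j ∈ Finset.range J, 18 * (jv + om) * (aj a j / rho a j) := by
        refine Finset.sum_le_sum fun j _ => ?_
        have hρ := rho_pos ha j
        calc 3 * (jv + om) / rho a j *
            |V P F.N B β x0 (tt P F.N B a β j x0) (aj a j) -
              V P F.N B β x0 (tt P F.N B a β (j + 1) x0) (aj a (j + 1))|
            ≤ 3 * (jv + om) / rho a j * (6 * aj a j) :=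
              mul_le_mul_of_nonneg_left (hdiff j) (by positivity)
          _ = 18 * (jv + om) * (aj a j / rho a j) := by ring
      refine h1.trans ?_
      rw [← Finset.mul_sum]
      exact mul_le_mul_of_nonneg_left (sum_aj_div_rho ha J) (by positivity)
    have hfinal : om / 100 + 72 * cc * (cc * a ^ 2) * (om / 100 + om) +
        18 * (jv + om) * (2 * cc * a) ≤ max jv (om / 100) + 72 * cc * a * (jv + om) := by
      have h1 : om / 100 ≤ max jv (om / 100) := le_max_right _ _
      have h2 : 72 * cc * (cc * a ^ 2) * (om / 100 + om) ≤ 36 * cc * a * om := by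
        have e1 : 72 * cc * (cc * a ^ 2) * (om / 100 + om) =
            (cc * a * om) * (a * (72 * cc * (101 / 100))) := by ring
        have e2 : 36 * cc * a * om = (cc * a * om) * 36 := by ring
        rw [e1, e2]
        refine mul_le_mul_of_nonneg_left ?_ (by positivity)
        have e3 : 72 * cc * (101 / 100) ≤ 36 := by unfold cc; norm_num
        calc a * (72 * cc * (101 / 100)) ≤ 1 * 36 :=
              mul_le_mul ha1 e3 (by positivity) (by norm_num)
          _ = 36 := by norm_num
      have h3 : 0 ≤ 36 * cc * a * jv := by positivity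
      nlinarith [h1, h2, h3]
    exact (add_le_add le_rfl hsum).trans hfinal

theorem JV (F : Fam P) (om : ℝ) (hom : 0 ≤ om)
    (hJ : ∀ B a x0, 0 < a → a ≤ 1 → JB (F.N B a) x0 om) (B : P.K) (α : Ordinal.{0}) :
    ∀ a, 0 < a → a ≤ 1 → ∀ (x0 : E) (v : E → ℝ) (L : ℝ), LipNear v x0 L →
      P.h (P.S B α) x0 - 4 / 5 * a < v x0 → ∀ jv, 0 ≤ jv → JB v x0 jv →
      JB (fun x => V P F.N B α x (v x) a) x0 (max jv (om / 100) + 72 * cc * a * (jv + om)) := by
  induction α using WellFoundedLT.induction with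
  | ind α IH =>
    intro a ha ha1 x0 v L hv h0 jv hjv hvb
    have hcc : 0 < cc := by unfold cc; norm_num
    have hb : 0 ≤ max jv (om / 100) + 72 * cc * a * (jv + om) := by
      have h1 : 0 ≤ max jv (om / 100) := hjv.trans (le_max_left _ _)
      have h2 : 0 ≤ 72 * cc * a * (jv + om) := by positivity
      linarith
    have hKK : 0 ≤ 1 + KK a := by
      unfold KK
      positivity
    have hTT := mj_TT_pos
    have hcont := hv.continuousAt
    -- a good radius
    have hdom : ∀ᶠ x in 𝓝 x0, P.h (P.S B α) x - 4 / 5 * a < v x :=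
      ((mj_h_cont P _).continuousAt.sub continuousAt_const).eventually_lt hcont h0
    obtain ⟨r1, hr1, hr1'⟩ := hv
    obtain ⟨r2, hr2, hr2'⟩ := Metric.eventually_nhds_iff.mp hdom
    have hr2'' : ∀ y, ‖y - x0‖ < r2 → P.h (P.S B α) y - 4 / 5 * a < v y := fun y hy =>
      hr2' (by rwa [dist_eq_norm])
    have hfun : (fun x => V P F.N B α x (v x) a) =
        (fun x => (1 / a) * ∫ d in a..(2 * a), (fun d x => G P F.N B α x (v x + d) a - d) d x) := by
      funext x
      rw [V_eq]
    rw [hfun]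
    refine JB_integral (L := (1 + KK a) * (TT + |L|)) (r := min r1 r2) ha (lt_min hr1 hr2) hb
      (by positivity) ?_ ?_ {d | v x0 + d ∈ HS P B x0} ?_ ?_
    · intro d hd y z hy hz
      have hy1 := lt_of_lt_of_le hy (min_le_left _ _)
      have hy2 := lt_of_lt_of_le hy (min_le_right _ _)
      have hz1 := lt_of_lt_of_le hz (min_le_left _ _)
      have hz2 := lt_of_lt_of_le hz (min_le_right _ _)
      have e1 := lipG F B α a ha ha1 y z (v y + d) (v z + d)
        (by linarith [hr2'' y hy2, hd.1]) (by linarith [hr2'' z hz2, hd.1])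
      have e2 : G P F.N B α y (v y + d) a - d - (G P F.N B α z (v z + d) a - d) =
          G P F.N B α y (v y + d) a - G P F.N B α z (v z + d) a := by ring
      rw [e2]
      refine e1.trans ?_
      rw [mul_assoc]
      refine mul_le_mul_of_nonneg_left ?_ hKK
      refine max_le ?_ ?_
      · exact mul_le_mul_of_nonneg_right (le_add_of_nonneg_right (abs_nonneg _)) (norm_nonneg _)
      · have e3 : v y + d - (v z + d) = v y - v z := by ring
        rw [e3]
        refine (hr1' y z hy1 hz1).trans (mul_le_mul_of_nonneg_right ?_ (norm_nonneg _))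
        linarith [le_abs_self L]
    · intro y hy
      have hy2 := lt_of_lt_of_le hy (min_le_right _ _)
      have hc := G_continuousOn F B α ha ha1 y
      have h1 : ContinuousOn (fun d => G P F.N B α y (v y + d) a) (Set.Icc a (2 * a)) := by
        refine hc.comp (f := fun d => v y + d) (by fun_prop) ?_
        intro d hd
        have := hr2'' y hy2
        exact Set.mem_Ioi.mpr (by linarith [hd.1])
      exact h1.sub continuousOn_id
    · have h1 := HS_countable P B x0
      exact h1.preimage (add_right_injective (v x0))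
    · intro d hd hdn
      have hup : LipNear (fun x => v x + d) x0 L := by
        refine ⟨r1, hr1, fun y z hy hz => ?_⟩
        have e3 : v y + d - (v z + d) = v y - v z := by ring
        rw [e3]
        exact hr1' y z hy hz
      have h1 : P.h (P.S B α) x0 < v x0 + d := by linarith [hd.1]
      have h2 : 0 < v x0 + d := lt_of_le_of_lt (P.h_nonneg _ _) h1
      have h3 := mj_slice F om hom hJ B α IH ha ha1 x0 (fun x => v x + d) L hup h1 h2 jv hjv
        (hvb.add_const d) hdn
      exact JB.congr (h3.add_const (-d)) (Eventually.of_forall fun x => by ring)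

theorem JN_half (F : Fam P) (hF : ∀ B a, 0 < a → a ≤ 1 → ∀ x, TN P F.N B a x = F.N B a x)
    (om : ℝ) (hom : 0 ≤ om)
    (hJ : ∀ B a x0, 0 < a → a ≤ 1 → JB (F.N B a) x0 om) :
    ∀ B a x0, 0 < a → a ≤ 1 → JB (F.N B a) x0 (om / 2) := by
  intro B a x0 ha ha1
  have hcc : 0 < cc := by unfold cc; norm_num
  have h1 := JV F om hom hJ B (P.Θ B) a ha ha1 x0 (fun _ => 0) 0
    ⟨1, one_pos, fun y z _ _ => by simp⟩ (by rw [P.S_top]; linarith) 0 le_rfl (JB_const 0 x0)
  have h2 : (fun x => V P F.N B (P.Θ B) x 0 a) = F.N B a := by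
    funext x
    exact hF B a ha ha1 x
  rw [h2] at h1
  refine JB.mono h1 ?_
  rw [max_eq_right (by positivity : (0 : ℝ) ≤ om / 100), zero_add]
  have h3 : 72 * cc * a * om ≤ 72 * cc * 1 * om := by
    refine mul_le_mul_of_nonneg_right ?_ hom
    exact mul_le_mul_of_nonneg_left ha1 (by positivity)
  have h4 : 72 * cc * 1 * om = 72 / 10000 * om := by unfold cc; ring
  linarith

theorem exists_C1 (P : Sys E) : ∃ F : Fam P, ∀ B a, 0 < a → a ≤ 1 → ContDiff ℝ 1 (F.N B a) := by
  obtain ⟨F, hF⟩ := exists_fixed P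
  refine ⟨F, fun B a ha ha1 => contDiff_of_JB (F.lip B a ha ha1) fun x0 => ?_⟩
  have hall : ∀ n : ℕ, ∀ B a x0, 0 < a → a ≤ 1 → JB (F.N B a) x0 (4 / 2 ^ n) := by
    intro n
    induction n with
    | zero =>
      intro B a x0 ha ha1
      have := JB_of_lip (F.lip B a ha ha1) x0
      refine JB.mono this ?_
      norm_num
    | succ n ih =>
      intro B a x0 ha ha1
      have := JN_half F hF (4 / 2 ^ n) (by positivity) ih B a x0 ha ha1
      refine JB.mono this (le_of_eq ?_)
      rw [pow_succ]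
      ring
  intro b' hb'
  obtain ⟨n, hn⟩ := exists_pow_lt_of_lt_one (show 0 < b' / 4 by linarith)
    (show (1 / 2 : ℝ) < 1 by norm_num)
  refine hall n B a x0 ha ha1 b' ?_
  have e1 : (4 : ℝ) / 2 ^ n = 4 * (1 / 2) ^ n := by
    rw [one_div, inv_pow]
    rfl
  change 4 / 2 ^ n < b'
  rw [e1]
  linarith

end Pool.ASP
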