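import Pool.Agent.ASP.LipSup1

set_option autoImplicit false

open MeasureTheory Set Filter Topology

namespace Pool.ASP

variable {E : Type} [NormedAddCommGroup E] [NormedSpace ℝ E] {P : Sys E} (F : Fam P) (B : P.K)

theorem G_continuousOn_of (α : Ordinal.{0}) (hG : LipG F B α) {a : ℝ} (ha : 0 < a) (ha1 : a ≤ 1)
    (x : E) :
    ContinuousOn (fun u => G P F.N B α x u a) (Set.Ioi (P.h (P.S B α) x)) := by
  have hK : 0 ≤ 1 + KK a := by
    unfold KK cc
    positivity
  have hlip : LipschitzOnWith (Real.toNNReal (1 + KK a)) (fun u => G P F.N B α x u a)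
      (Set.Ioi (P.h (P.S B α) x)) := by
    refine LipschitzOnWith.of_dist_le_mul fun u hu w hw => ?_
    have h := hG a ha ha1 x x u w hu hw
    rw [sub_self, norm_zero, mul_zero, max_eq_right (abs_nonneg _)] at h
    rw [Real.dist_eq, Real.dist_eq, Real.coe_toNNReal _ hK]
    exact h
  exact hlip.continuousOn

theorem G_slice_continuousOn_of (α : Ordinal.{0}) (hG : LipG F B α) {a : ℝ} (ha : 0 < a)
    (ha1 : a ≤ 1) (x : E) (v : ℝ) (hv : P.h (P.S B α) x - 4 / 5 * a < v) :
    ContinuousOn (fun d => G P F.N B α x (v + d) a - d) (Set.Icc a (2 * a)) := by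
  refine ContinuousOn.sub ?_ continuousOn_id
  refine (G_continuousOn_of F B α hG ha ha1 x).comp (continuousOn_const.add continuousOn_id) ?_
  intro d hd
  simp only [Set.mem_Ioi]
  linarith [hd.1]

theorem supV_of (α : Ordinal.{0}) (hG : LipG F B α) (hS : ∀ β < α, SupV F B β) :
    SupV F B α := by
  intro a ha ha1 x v hv hv'
  have ha2 : a ≤ 2 * a := by linarith
  have hc := G_slice_continuousOn_of F B α hG ha ha1 x v hv
  have hi : IntervalIntegrable (fun d => G P F.N B α x (v + d) a - d) volume a (2 * a) :=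
    hc.intervalIntegrable_of_Icc ha2
  have hcc : 3 * (cc * a ^ 2) ≤ a / 5 := by
    unfold cc
    nlinarith
  have key : ∀ d ∈ Set.Icc a (2 * a), |G P F.N B α x (v + d) a - d - P.h B x| ≤ 3 * a := by
    intro d hd
    by_cases hg : ∃ β, β < α ∧ Gap P B β x (v + d)
    · obtain ⟨β, hβ, hgap⟩ := hg
      have h1 := abs_le.1 (G_close F B α hS ha ha1 hβ hgap).1
      rw [abs_le]
      constructor <;> linarith [hd.1, hd.2, h1.1, h1.2]
    · rw [G_nogap P F.N B a hg]
      rcases le_total (v + d) (P.h B x) with h | h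
      · rw [max_eq_right h, abs_le]
        constructor <;> linarith [hd.1, hd.2]
      · rw [max_eq_left h, abs_le]
        constructor <;> linarith [hd.1, hd.2]
  have hM : P.h B x = (1 / a) * ∫ _ in a..(2 * a), P.h B x := by
    rw [intervalIntegral.integral_const, smul_eq_mul]
    field_simp
    ring
  rw [V_eq]
  have e1 : (1 / a * ∫ d in a..(2 * a), (G P F.N B α x (v + d) a - d)) - P.h B x =
      1 / a * ∫ d in a..(2 * a), (G P F.N B α x (v + d) a - d - P.h B x) := by
    rw [intervalIntegral.integral_sub hi intervalIntegrable_const, mul_sub, ← hM]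
  rw [e1, abs_mul, abs_of_nonneg (by positivity : (0 : ℝ) ≤ 1 / a)]
  have h2 := intervalIntegral.norm_integral_le_of_norm_le_const (a := a) (b := 2 * a)
    (f := fun d => G P F.N B α x (v + d) a - d - P.h B x) (C := 3 * a) (by
      intro d hd
      rw [Set.uIoc_of_le ha2] at hd
      exact key d (Set.Ioc_subset_Icc_self hd))
  rw [Real.norm_eq_abs] at h2
  have e2 : |2 * a - a| = a := by rw [abs_of_nonneg] <;> linarith
  rw [e2] at h2
  calc 1 / a * |∫ d in a..(2 * a), (G P F.N B α x (v + d) a - d - P.h B x)|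
      ≤ 1 / a * (3 * a * a) := by gcongr
    _ = 3 * a := by field_simp

theorem TN_close_of (hS : SupV F B (P.Θ B)) {a : ℝ} (ha : 0 < a) (ha1 : a ≤ 1) (x : E) :
    |V P F.N B (P.Θ B) x 0 a - P.h B x| ≤ 3 * a := by
  refine hS a ha ha1 x 0 ?_ ?_
  · rw [P.S_top]
    linarith
  · have := P.h_nonneg B x
    positivity

end Pool.ASP
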