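import Pool.Agent.ASP.Defs

set_option autoImplicit false

open MeasureTheory Set Filter Topology

namespace Pool.ASP

theorem th_deriv_continuous : Continuous (fun s : ℝ => 6 * max 0 ((s - 1) * (2 - s))) := by
  fun_prop

theorem th_hasDerivAt (s : ℝ) : HasDerivAt th (6 * max 0 ((s - 1) * (2 - s))) s :=
  (th_deriv_continuous.integral_hasStrictDerivAt 1 s).hasDerivAt

theorem th_deriv_le (s : ℝ) : |6 * max 0 ((s - 1) * (2 - s))| ≤ 3 / 2 := by
  have h0 : 0 ≤ max 0 ((s - 1) * (2 - s)) := le_max_left _ _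
  have h1 : max 0 ((s - 1) * (2 - s)) ≤ 1 / 4 := by
    refine max_le (by norm_num) ?_
    nlinarith [sq_nonneg (2 * s - 3)]
  rw [abs_of_nonneg (by positivity)]
  linarith

theorem th_differentiable : Differentiable ℝ th := fun s => (th_hasDerivAt s).differentiableAt

theorem th_mono : Monotone th := by
  refine monotone_of_deriv_nonneg th_differentiable fun s => ?_
  rw [(th_hasDerivAt s).deriv]
  have h0 : 0 ≤ max 0 ((s - 1) * (2 - s)) := le_max_left _ _
  positivity

theorem th_of_le {s : ℝ} (h : s ≤ 1) : th s = 0 := by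
  unfold th
  rw [intervalIntegral.integral_symm]
  have : ∫ y in s..(1 : ℝ), 6 * max 0 ((y - 1) * (2 - y)) = ∫ y in s..(1 : ℝ), (0 : ℝ) := by
    refine intervalIntegral.integral_congr fun y hy => ?_
    rw [uIcc_of_le h] at hy
    have : (y - 1) * (2 - y) ≤ 0 := by nlinarith [hy.1, hy.2]
    rw [max_eq_left this, mul_zero]
  rw [this]
  simp

theorem th_two : th 2 = 1 := by
  unfold th
  have : ∫ y in (1 : ℝ)..2, 6 * max 0 ((y - 1) * (2 - y)) =
      ∫ y in (1 : ℝ)..2, (6 * ((y - 1) * (2 - y))) := by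
    refine intervalIntegral.integral_congr fun y hy => ?_
    rw [uIcc_of_le (by norm_num)] at hy
    have : 0 ≤ (y - 1) * (2 - y) := mul_nonneg (by linarith [hy.1]) (by linarith [hy.2])
    rw [max_eq_right this]
  rw [this]
  have hd : ∀ y ∈ uIcc (1 : ℝ) 2, HasDerivAt (fun y : ℝ => -2 * y ^ 3 + 9 * y ^ 2 - 12 * y)
      (6 * ((y - 1) * (2 - y))) y := by
    intro y _
    have h := (((hasDerivAt_pow 3 y).const_mul (-2)).add ((hasDerivAt_pow 2 y).const_mul 9)).sub
      ((hasDerivAt_id y).const_mul 12)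
    have e : (-2 : ℝ) * (((3 : ℕ) : ℝ) * y ^ (3 - 1)) + 9 * (((2 : ℕ) : ℝ) * y ^ (2 - 1)) -
        12 * 1 = 6 * ((y - 1) * (2 - y)) := by
      norm_num
      ring
    rw [← e]
    exact h
  rw [intervalIntegral.integral_eq_sub_of_hasDerivAt hd
    (Continuous.intervalIntegrable (by fun_prop) _ _)]
  norm_num

theorem th_of_ge {s : ℝ} (h : 2 ≤ s) : th s = 1 := by
  have h1 : th s = th 2 + ∫ y in (2 : ℝ)..s, 6 * max 0 ((y - 1) * (2 - y)) := by
    unfold th
    rw [intervalIntegral.integral_add_adjacent_intervals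
      (th_deriv_continuous.intervalIntegrable _ _) (th_deriv_continuous.intervalIntegrable _ _)]
  have : ∫ y in (2 : ℝ)..s, 6 * max 0 ((y - 1) * (2 - y)) = ∫ y in (2 : ℝ)..s, (0 : ℝ) := by
    refine intervalIntegral.integral_congr fun y hy => ?_
    rw [uIcc_of_le h] at hy
    have : (y - 1) * (2 - y) ≤ 0 := by nlinarith [hy.1, hy.2]
    rw [max_eq_left this, mul_zero]
  rw [h1, this, th_two]
  simp

theorem th_nonneg (s : ℝ) : 0 ≤ th s := by
  rcases le_total s 1 with h | h
  · rw [th_of_le h]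
  · have := th_mono h
    rwa [th_of_le le_rfl] at this

theorem th_le_one (s : ℝ) : th s ≤ 1 := by
  rcases le_total 2 s with h | h
  · rw [th_of_ge h]
  · have := th_mono h
    rwa [th_two] at this

theorem th_lip (s t : ℝ) : |th s - th t| ≤ 3 / 2 * |s - t| := by
  have h := Convex.norm_image_sub_le_of_norm_hasDerivWithin_le (f := th)
    (f' := fun s => 6 * max 0 ((s - 1) * (2 - s))) (C := 3 / 2) (s := univ) (x := t) (y := s)
    (fun x _ => (th_hasDerivAt x).hasDerivWithinAt) (fun x _ => th_deriv_le x) convex_univ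
    (mem_univ _) (mem_univ _)
  simpa [Real.norm_eq_abs] using h

end Pool.ASP
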