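import Pool.Agent.ASP.Theta

set_option autoImplicit false

open MeasureTheory Set Filter Topology

namespace Pool.ASP

theorem cc_pos : 0 < cc := by unfold cc; norm_num

theorem aj_pos {a : ℝ} (ha : 0 < a) (j : ℕ) : 0 < aj a j := by
  have := cc_pos
  unfold aj
  positivity

theorem rho_pos {a : ℝ} (ha : 0 < a) (j : ℕ) : 0 < rho a j := by
  unfold rho
  positivity

theorem tau_pos {a : ℝ} (ha : 0 < a) (j : ℕ) : 0 < tau a j := by
  have := aj_pos ha j
  unfold tau
  positivity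

theorem aj_le_zero {a : ℝ} (ha : 0 < a) (j : ℕ) : aj a j ≤ cc * a ^ 2 := by
  have := cc_pos
  unfold aj
  exact div_le_self (by positivity) (one_le_pow₀ (by norm_num))

theorem aj_le_one {a : ℝ} (ha : 0 < a) (ha1 : a ≤ 1) (j : ℕ) : aj a j ≤ 1 := by
  refine (aj_le_zero ha j).trans ?_
  unfold cc
  nlinarith

theorem tau_le_one {a : ℝ} (ha : 0 < a) (ha1 : a ≤ 1) (j : ℕ) : tau a j ≤ 1 := by
  have h1 := aj_le_one ha ha1 j
  have h2 := aj_pos ha j
  unfold tau
  linarith

theorem aj_succ_le {a : ℝ} (ha : 0 < a) (j : ℕ) : aj a (j + 1) ≤ aj a j := by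
  have h : aj a (j + 1) = aj a j / 4 := by
    unfold aj
    rw [pow_succ (4 : ℝ) j, div_div]
  have := aj_pos ha j
  rw [h]
  linarith

/-- `a_j = c a rho_j / 2^j` -/
theorem aj_eq (a : ℝ) (j : ℕ) : aj a j = cc * a * rho a j / 2 ^ j := by
  unfold aj rho
  rw [show (4 : ℝ) ^ j = 2 ^ j * 2 ^ j by rw [← mul_pow]; norm_num]
  field_simp

theorem aj_le_rho {a : ℝ} (ha : 0 < a) (ha1 : a ≤ 1) (j : ℕ) : aj a j ≤ cc * rho a j := by
  have h1 := rho_pos ha j
  have h2 := cc_pos
  rw [aj_eq]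
  refine (div_le_self (by positivity) (one_le_pow₀ (by norm_num))).trans ?_
  have : cc * a * rho a j = (cc * rho a j) * a := by ring
  rw [this]
  exact mul_le_of_le_one_right (by positivity) ha1

theorem rho_succ (a : ℝ) (j : ℕ) : rho a (j + 1) = rho a j / 2 := by
  unfold rho
  rw [pow_succ]
  field_simp

/-- finite sums of `a_j / rho_j` are at most `2 c a` -/
theorem sum_aj_div_rho {a : ℝ} (ha : 0 < a) (J : ℕ) :
    ∑ j ∈ Finset.range J, aj a j / rho a j ≤ 2 * cc * a := by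
  have h1 : ∀ j, aj a j / rho a j = cc * a * (1 / 2) ^ j := by
    intro j
    have := rho_pos ha j
    rw [aj_eq]
    field_simp
    rw [one_div, inv_pow]
    field_simp
  have h2 : ∀ J : ℕ, ∑ j ∈ Finset.range J, aj a j / rho a j = cc * a * (2 - 2 * (1 / 2) ^ J) := by
    intro J
    induction J with
    | zero => simp
    | succ n ih =>
      rw [Finset.sum_range_succ, ih, h1, pow_succ]
      ring
  rw [h2]
  have h3 : 0 < cc * a := mul_pos cc_pos ha
  have h4 : (0 : ℝ) ≤ (1 / 2) ^ J := by positivity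
  nlinarith

theorem weights_zero (χ : ℕ → ℝ) (J : ℕ) (h : ∀ j, J ≤ j → χ j = 1) (j : ℕ) (hj : J + 1 ≤ j) :
    χ j - (if j = 0 then 0 else χ (j - 1)) = 0 := by
  rw [if_neg (by omega), h j (by omega), h (j - 1) (by omega), sub_self]

theorem weights_partial (χ : ℕ → ℝ) (J : ℕ) :
    ∑ j ∈ Finset.range (J + 1), (χ j - (if j = 0 then 0 else χ (j - 1))) = χ J := by
  induction J with
  | zero => simp
  | succ n ih =>
    rw [Finset.sum_range_succ, ih]
    simp

theorem abel_partial (χ W : ℕ → ℝ) (J : ℕ) :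
    ∑ j ∈ Finset.range (J + 1), (χ j - (if j = 0 then 0 else χ (j - 1))) * W j =
      χ J * W J + ∑ j ∈ Finset.range J, χ j * (W j - W (j + 1)) := by
  induction J with
  | zero => simp
  | succ n ih =>
    rw [Finset.sum_range_succ, ih, Finset.sum_range_succ]
    simp
    ring

/-- the same as a finite sum of non-negative weights -/
theorem weights_tsum (χ W : ℕ → ℝ) (J : ℕ) (h : ∀ j, J ≤ j → χ j = 1) :
    ∑' j, (χ j - (if j = 0 then 0 else χ (j - 1))) * W j =
      ∑ j ∈ Finset.range (J + 1), (χ j - (if j = 0 then 0 else χ (j - 1))) * W j := by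
  refine tsum_eq_sum ?_
  intro j hj
  rw [Finset.mem_range, not_lt] at hj
  rw [weights_zero χ J h j hj, zero_mul]

/-- Abel summation for the weights -/
theorem abel_tsum (χ W : ℕ → ℝ) (J : ℕ) (h : ∀ j, J ≤ j → χ j = 1) :
    ∑' j, (χ j - (if j = 0 then 0 else χ (j - 1))) * W j =
      W J + ∑ j ∈ Finset.range J, χ j * (W j - W (j + 1)) := by
  rw [weights_tsum χ W J h, abel_partial, h J le_rfl, one_mul]

theorem weights_sum_one (χ : ℕ → ℝ) (J : ℕ) (h : ∀ j, J ≤ j → χ j = 1) :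
    ∑ j ∈ Finset.range (J + 1), (χ j - (if j = 0 then 0 else χ (j - 1))) = 1 := by
  rw [weights_partial, h J le_rfl]

variable {E : Type} [NormedAddCommGroup E] [NormedSpace ℝ E] {P : Sys E} (F : Fam P) (B : P.K)

theorem bb_close {a : ℝ} (ha : 0 < a) (ha1 : a ≤ 1) (β : Ordinal.{0}) (j : ℕ) (x : E) :
    |bb P F.N B a β j x - P.h (P.S B (Order.succ β)) x| ≤ aj a j / 10 := by
  have h1 := F.close (P.S B (Order.succ β)) (tau a j) (tau_pos ha j) (tau_le_one ha ha1 j) x
  unfold bb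
  refine h1.trans (le_of_eq ?_)
  unfold tau
  ring

theorem tt_close {a : ℝ} (ha : 0 < a) (ha1 : a ≤ 1) {β : Ordinal.{0}} (j : ℕ) {x : E}
    (hx : P.h (P.S B (Order.succ β)) x < P.h (P.S B β) x) :
    |tt P F.N B a β j x - P.h (P.S B β) x| ≤ aj a j / 10 := by
  have h1 := F.close (P.C B β) (tau a j) (tau_pos ha j) (tau_le_one ha ha1 j) x
  have h2 := P.split B β x hx
  have h3 := aj_pos ha j
  have h4 : tt P F.N B a β j x - P.h (P.S B β) x =
      (1 / 100) * (F.N (P.C B β) (tau a j) x - P.h (P.C B β) x) := by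
    unfold tt
    rw [h2]
    ring
  rw [h4, abs_mul, abs_of_pos (by norm_num : (0 : ℝ) < 1 / 100)]
  have h5 : 3 * tau a j = aj a j / 10 := by
    unfold tau
    ring
  rw [h5] at h1
  have h6 := abs_nonneg (F.N (P.C B β) (tau a j) x - P.h (P.C B β) x)
  linarith

theorem bb_lip {a : ℝ} (ha : 0 < a) (ha1 : a ≤ 1) (β : Ordinal.{0}) (j : ℕ) (x y : E) :
    |bb P F.N B a β j x - bb P F.N B a β j y| ≤ 2 * ‖x - y‖ :=
  F.lip (P.S B (Order.succ β)) (tau a j) (tau_pos ha j) (tau_le_one ha ha1 j) x y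

theorem tt_lip {a : ℝ} (ha : 0 < a) (ha1 : a ≤ 1) (β : Ordinal.{0}) (j : ℕ) (x y : E) :
    |tt P F.N B a β j x - tt P F.N B a β j y| ≤ TT * ‖x - y‖ := by
  have h1 := F.lip (P.C B β) (tau a j) (tau_pos ha j) (tau_le_one ha ha1 j) x y
  have h2 := P.f_le B β (x - y)
  rw [map_sub] at h2
  have h4 : tt P F.N B a β j x - tt P F.N B a β j y =
      (P.f B β x - P.f B β y) +
      (1 / 100) * (F.N (P.C B β) (tau a j) x - F.N (P.C B β) (tau a j) y) := by
    unfold tt
    ring
  rw [h4]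
  refine (abs_add_le _ _).trans ?_
  rw [abs_mul, abs_of_pos (by norm_num : (0 : ℝ) < 1 / 100)]
  unfold TT
  linarith

theorem chi_nonneg (a : ℝ) (β : Ordinal.{0}) (j : ℕ) (x : E) (u : ℝ) :
    0 ≤ chi P F.N B a β j x u :=
  mul_nonneg (th_nonneg _) (th_nonneg _)

theorem chi_le_one (a : ℝ) (β : Ordinal.{0}) (j : ℕ) (x : E) (u : ℝ) :
    chi P F.N B a β j x u ≤ 1 :=
  mul_le_one₀ (th_le_one _) (th_nonneg _) (th_le_one _)

/-- one factor of `chi_mono` -/
theorem th_factor_mono {a p q m : ℝ} {j : ℕ} (ha : 0 < a) (ha1 : a ≤ 1)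
    (hp : |p - m| ≤ aj a j / 10) (hq : |q - m| ≤ aj a (j + 1) / 10) :
    th (p / rho a j) ≤ th (q / rho a (j + 1)) := by
  rcases le_or_gt (p / rho a j) 1 with h | h
  · rw [th_of_le h]
    exact th_nonneg _
  · refine th_mono ?_
    have hr := rho_pos ha j
    rw [lt_div_iff₀ hr] at h
    rw [rho_succ, div_le_div_iff₀ hr (by positivity)]
    have h1 := abs_le.mp hp
    have h2 := abs_le.mp hq
    have h3 := aj_succ_le ha j
    have h4 := aj_le_rho ha ha1 j
    have h5 : cc * rho a j = rho a j / 10000 := by unfold cc; ring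
    rw [h5] at h4
    have h6 : p / 2 ≤ q := by linarith
    have : p * (rho a j / 2) = (p / 2) * rho a j := by ring
    rw [this]
    exact mul_le_mul_of_nonneg_right h6 hr.le

theorem chi_mono {a : ℝ} (ha : 0 < a) (ha1 : a ≤ 1) {β : Ordinal.{0}} (j : ℕ) {x : E} {u : ℝ}
    (hg : Gap P B β x u) :
    chi P F.N B a β j x u ≤ chi P F.N B a β (j + 1) x u := by
  have hx := hg.1.trans hg.2
  have b0 := bb_close F B ha ha1 β j x
  have b1 := bb_close F B ha ha1 β (j + 1) x
  have t0 := tt_close F B ha ha1 j hx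
  have t1 := tt_close F B ha ha1 (j + 1) hx
  unfold chi
  refine mul_le_mul ?_ ?_ (th_nonneg _) (th_nonneg _)
  · refine th_factor_mono (m := u - P.h (P.S B (Order.succ β)) x) ha ha1 ?_ ?_
    · rw [show u - bb P F.N B a β j x - (u - P.h (P.S B (Order.succ β)) x) =
        -(bb P F.N B a β j x - P.h (P.S B (Order.succ β)) x) by ring, abs_neg]
      exact b0
    · rw [show u - bb P F.N B a β (j + 1) x - (u - P.h (P.S B (Order.succ β)) x) =
        -(bb P F.N B a β (j + 1) x - P.h (P.S B (Order.succ β)) x) by ring, abs_neg]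
      exact b1
  · refine th_factor_mono (m := P.h (P.S B β) x - u) ha ha1 ?_ ?_
    · rw [show tt P F.N B a β j x - u - (P.h (P.S B β) x - u) =
        tt P F.N B a β j x - P.h (P.S B β) x by ring]
      exact t0
    · rw [show tt P F.N B a β (j + 1) x - u - (P.h (P.S B β) x - u) =
        tt P F.N B a β (j + 1) x - P.h (P.S B β) x by ring]
      exact t1

theorem chi_eq_one {a : ℝ} (ha : 0 < a) (ha1 : a ≤ 1) {β : Ordinal.{0}} (j : ℕ) {x : E} {u : ℝ}
    (hg : Gap P B β x u)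
    (h1 : 3 * rho a j ≤ u - P.h (P.S B (Order.succ β)) x)
    (h2 : 3 * rho a j ≤ P.h (P.S B β) x - u) :
    chi P F.N B a β j x u = 1 := by
  have hx := hg.1.trans hg.2
  have b0 := abs_le.mp (bb_close F B ha ha1 β j x)
  have t0 := abs_le.mp (tt_close F B ha ha1 j hx)
  have hr := rho_pos ha j
  have h4 := aj_le_rho ha ha1 j
  have h5 : cc * rho a j = rho a j / 10000 := by unfold cc; ring
  rw [h5] at h4
  unfold chi
  rw [th_of_ge, th_of_ge, one_mul]
  · rw [le_div_iff₀ hr]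
    linarith
  · rw [le_div_iff₀ hr]
    linarith

theorem exists_rho_le {a m : ℝ} (hm : 0 < m) : ∃ J : ℕ, ∀ j, J ≤ j → 3 * rho a j ≤ m := by
  have h : Tendsto (fun j : ℕ => 3 * rho a j) atTop (𝓝 0) := by
    have h1 : Tendsto (fun j : ℕ => (3 * a) * (1 / 2 : ℝ) ^ j) atTop (𝓝 ((3 * a) * 0)) :=
      (tendsto_pow_atTop_nhds_zero_of_lt_one (by norm_num) (by norm_num)).const_mul _
    rw [mul_zero] at h1
    refine h1.congr ?_
    intro j
    unfold rho
    rw [one_div, inv_pow]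
    field_simp
  have h2 := (h.eventually (gt_mem_nhds hm))
  rw [eventually_atTop] at h2
  obtain ⟨J, hJ⟩ := h2
  exact ⟨J, fun j hj => (hJ j hj).le⟩

theorem chi_eventually {a : ℝ} (ha : 0 < a) (ha1 : a ≤ 1) {β : Ordinal.{0}} {x : E} {u : ℝ}
    (hg : Gap P B β x u) :
    ∃ J : ℕ, ∀ j, J ≤ j → chi P F.N B a β j x u = 1 := by
  obtain ⟨J1, hJ1⟩ := exists_rho_le (a := a) (sub_pos.mpr hg.1)
  obtain ⟨J2, hJ2⟩ := exists_rho_le (a := a) (sub_pos.mpr hg.2)
  refine ⟨max J1 J2, fun j hj => ?_⟩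
  exact chi_eq_one F B ha ha1 j hg (hJ1 j ((le_max_left _ _).trans hj))
    (hJ2 j ((le_max_right _ _).trans hj))

/-- if `χ_j ≠ 0` then `ρ_j` is at most twice the distance to either end of the gap -/
theorem rho_le_of_chi {a : ℝ} (ha : 0 < a) (ha1 : a ≤ 1) {β : Ordinal.{0}} (j : ℕ) {x : E} {u : ℝ}
    (hg : Gap P B β x u) (hc : chi P F.N B a β j x u ≠ 0) :
    rho a j ≤ 2 * (u - P.h (P.S B (Order.succ β)) x) ∧ rho a j ≤ 2 * (P.h (P.S B β) x - u) := by
  have hx := hg.1.trans hg.2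
  have b0 := abs_le.mp (bb_close F B ha ha1 β j x)
  have t0 := abs_le.mp (tt_close F B ha ha1 j hx)
  have hr := rho_pos ha j
  have h4 := aj_le_rho ha ha1 j
  have h5 : cc * rho a j = rho a j / 10000 := by unfold cc; ring
  rw [h5] at h4
  unfold chi at hc
  have hc1 := left_ne_zero_of_mul hc
  have hc2 := right_ne_zero_of_mul hc
  have e1 : 1 < (u - bb P F.N B a β j x) / rho a j := by
    by_contra hcon
    exact hc1 (th_of_le (not_lt.mp hcon))
  have e2 : 1 < (tt P F.N B a β j x - u) / rho a j := by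
    by_contra hcon
    exact hc2 (th_of_le (not_lt.mp hcon))
  rw [lt_div_iff₀ hr] at e1 e2
  constructor <;> linarith

theorem wt_nonneg {a : ℝ} (ha : 0 < a) (ha1 : a ≤ 1) {β : Ordinal.{0}} (j : ℕ) {x : E} {u : ℝ}
    (hg : Gap P B β x u) : 0 ≤ wt P F.N B a β j x u := by
  unfold wt
  cases j with
  | zero =>
    rw [if_pos rfl, sub_zero]
    exact chi_nonneg F B a β 0 x u
  | succ n =>
    rw [if_neg (Nat.succ_ne_zero n), Nat.add_sub_cancel]
    exact sub_nonneg.mpr (chi_mono F B ha ha1 n hg)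

theorem chi_ne_of_wt {a : ℝ} (ha : 0 < a) (ha1 : a ≤ 1) {β : Ordinal.{0}} (j : ℕ) {x : E} {u : ℝ}
    (hg : Gap P B β x u) (hw : wt P F.N B a β j x u ≠ 0) : chi P F.N B a β j x u ≠ 0 := by
  intro hc
  apply hw
  refine le_antisymm ?_ (wt_nonneg F B ha ha1 j hg)
  unfold wt
  rw [hc, zero_sub, neg_nonpos]
  split_ifs
  · exact le_rfl
  · exact chi_nonneg F B a β (j - 1) x u

/-- convex combination estimate -/
theorem wsum_close {a : ℝ} (ha : 0 < a) (ha1 : a ≤ 1) {β : Ordinal.{0}} {x : E} {u : ℝ}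
    (hg : Gap P B β x u) (W : ℕ → ℝ) (M D : ℝ)
    (hW : ∀ j, chi P F.N B a β j x u ≠ 0 → |W j - M| ≤ D) :
    |∑' j, wt P F.N B a β j x u * W j - M| ≤ D := by
  obtain ⟨J, hJ⟩ := chi_eventually F B ha ha1 hg
  have h1 := weights_tsum (fun j => chi P F.N B a β j x u) W J hJ
  have h2 := weights_sum_one (fun j => chi P F.N B a β j x u) J hJ
  have h1' : ∑' j, wt P F.N B a β j x u * W j =
      ∑ j ∈ Finset.range (J + 1), wt P F.N B a β j x u * W j := h1
  have h2' : ∑ j ∈ Finset.range (J + 1), wt P F.N B a β j x u = 1 := h2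
  rw [h1']
  have h3 : ∑ j ∈ Finset.range (J + 1), wt P F.N B a β j x u * W j - M =
      ∑ j ∈ Finset.range (J + 1), wt P F.N B a β j x u * (W j - M) := by
    simp_rw [mul_sub]
    rw [Finset.sum_sub_distrib, ← Finset.sum_mul, h2', one_mul]
  rw [h3]
  refine (Finset.abs_sum_le_sum_abs _ _).trans ?_
  have h4 : ∀ j ∈ Finset.range (J + 1),
      |wt P F.N B a β j x u * (W j - M)| ≤ wt P F.N B a β j x u * D := by
    intro j _
    have hn := wt_nonneg F B ha ha1 j hg
    rw [abs_mul, abs_of_nonneg hn]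
    by_cases hw : wt P F.N B a β j x u = 0
    · rw [hw, zero_mul, zero_mul]
    · exact mul_le_mul_of_nonneg_left (hW j (chi_ne_of_wt F B ha ha1 j hg hw)) hn
  refine (Finset.sum_le_sum h4).trans (le_of_eq ?_)
  rw [← Finset.sum_mul, h2', one_mul]

theorem chi_lip {a : ℝ} (ha : 0 < a) (ha1 : a ≤ 1) (β : Ordinal.{0}) (j : ℕ) (x y : E) (u w : ℝ) :
    |chi P F.N B a β j x u - chi P F.N B a β j y w| ≤
      15 / 2 * max (TT * ‖x - y‖) |u - w| / rho a j := by
  have hr := rho_pos ha j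
  set d := max (TT * ‖x - y‖) |u - w| with hd
  have d1 : TT * ‖x - y‖ ≤ d := le_max_left _ _
  have d2 : |u - w| ≤ d := le_max_right _ _
  have hb := bb_lip F B ha ha1 β j x y
  have ht := tt_lip F B ha ha1 β j x y
  have hn := norm_nonneg (x - y)
  have d3 : ‖x - y‖ ≤ d := by
    unfold TT at d1
    linarith
  set A := (u - bb P F.N B a β j x) / rho a j with hA
  set A' := (w - bb P F.N B a β j y) / rho a j with hA'
  set C := (tt P F.N B a β j x - u) / rho a j with hC
  set C' := (tt P F.N B a β j y - w) / rho a j with hC'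
  have e1 : |A - A'| ≤ 3 * d / rho a j := by
    rw [hA, hA', ← sub_div, abs_div, abs_of_pos hr]
    refine div_le_div_of_nonneg_right ?_ hr.le
    rw [show u - bb P F.N B a β j x - (w - bb P F.N B a β j y) =
      (u - w) - (bb P F.N B a β j x - bb P F.N B a β j y) by ring]
    refine (abs_sub _ _).trans ?_
    linarith
  have e2 : |C - C'| ≤ 2 * d / rho a j := by
    rw [hC, hC', ← sub_div, abs_div, abs_of_pos hr]
    refine div_le_div_of_nonneg_right ?_ hr.le
    rw [show tt P F.N B a β j x - u - (tt P F.N B a β j y - w) =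
      (tt P F.N B a β j x - tt P F.N B a β j y) - (u - w) by ring]
    refine (abs_sub _ _).trans ?_
    linarith
  have f1 : |th A - th A'| ≤ 3 / 2 * (3 * d / rho a j) :=
    (th_lip A A').trans (mul_le_mul_of_nonneg_left e1 (by norm_num))
  have f2 : |th C - th C'| ≤ 3 / 2 * (2 * d / rho a j) :=
    (th_lip C C').trans (mul_le_mul_of_nonneg_left e2 (by norm_num))
  have g1 : chi P F.N B a β j x u - chi P F.N B a β j y w =
      (th A - th A') * th C + th A' * (th C - th C') := by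
    have q1 : chi P F.N B a β j x u = th A * th C := rfl
    have q2 : chi P F.N B a β j y w = th A' * th C' := rfl
    rw [q1, q2]
    ring
  rw [g1]
  refine (abs_add_le _ _).trans ?_
  rw [abs_mul, abs_mul, abs_of_nonneg (th_nonneg C), abs_of_nonneg (th_nonneg A')]
  have k1 : |th A - th A'| * th C ≤ 3 / 2 * (3 * d / rho a j) :=
    (mul_le_of_le_one_right (abs_nonneg _) (th_le_one C)).trans f1
  have k2 : th A' * |th C - th C'| ≤ 3 / 2 * (2 * d / rho a j) :=
    (mul_le_of_le_one_left (abs_nonneg _) (th_le_one A')).trans f2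
  have k3 : 15 / 2 * d / rho a j = 3 / 2 * (3 * d / rho a j) + 3 / 2 * (2 * d / rho a j) := by
    ring
  rw [k3]
  exact add_le_add k1 k2

end Pool.ASP
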